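import Mathlib

/-!
Minimal graded free resolutions, Koszul algebras and regularity, for standard graded algebras and
graded modules given by finite presentations with integer coefficients.
-/

set_option autoImplicit false

namespace Pool.Agent.Helper522.Kos

open MvPolynomial

/-- A minimal graded free resolution `⋯ → F₂ → F₁ → F₀ → N → 0` of a graded module `N`
(with set `gr e` of homogeneous elements of degree `e`) over a graded ring `R`
(with set `H e` of homogeneous elements of degree `e` and homogeneous maximal ideal `m`):
the `i`-th free module `F i = (ι i → R)` has a finite basis `ι i`, whose elements have the degrees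
`deg i`; the basis of the first one maps to homogeneous elements `gen` of `N` of the right degrees,
which generate `N`; the differentials are given by matrices `mat` with homogeneous entries of the
degrees forced by the grading (`0` where this degree is negative), all entries lie in `m`
(minimality), and the sequence is exact. -/
structure MinRes {R : Type} [CommRing R] (H : ℕ → Set R) (m : Ideal R) (N : Type)
    [AddCommGroup N] [Module R N] (gr : ℕ → Set N) where
  ι : ℕ → Type
  [fin : ∀ i, Fintype (ι i)]
  deg : ∀ i, ι i → ℕ
  gen : ι 0 → N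
  mat : ∀ i, Matrix (ι i) (ι (i + 1)) R
  gen_mem : ∀ j, gen j ∈ gr (deg 0 j)
  mat_hom : ∀ i j l, mat i j l ∈
    (if deg i j ≤ deg (i + 1) l then H (deg (i + 1) l - deg i j) else {0})
  mat_min : ∀ i j l, mat i j l ∈ m
  surj : ∀ n : N, ∃ v : ι 0 → R, ∑ j, v j • gen j = n
  exact_zero : ∀ v : ι 0 → R, ∑ j, v j • gen j = 0 ↔ ∃ w, (mat 0).mulVec w = v
  exact_succ : ∀ i (v : ι (i + 1) → R), (mat i).mulVec v = 0 ↔ ∃ w, (mat (i + 1)).mulVec w = v

attribute [instance] MinRes.fin

section

variable {R : Type} [CommRing R] (H : ℕ → Set R) (m : Ideal R)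

/-- The residue field `R ⧸ m`, concentrated in degree `0`, has a linear minimal graded free
resolution: the `i`-th free module has all its generators in degree `i`. -/
def LinearResidue : Prop :=
  ∃ F : MinRes H m (R ⧸ m) (fun e => {n | ∃ r ∈ H e, Ideal.Quotient.mk m r = n}),
    ∀ i j, F.deg i j = i

variable {b : ℕ} (Ω : Submodule R (Fin b → R))

/-- The homogeneous elements of degree `e` of the quotient `R^b ⧸ Ω` of the free module with
generators in degree `0`. -/
def homQ (e : ℕ) : Set ((Fin b → R) ⧸ Ω) :=
  {n | ∃ v : Fin b → R, (∀ i, v i ∈ H e) ∧ Submodule.Quotient.mk v = n}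

/-- The regularity of `R^b ⧸ Ω` over `R` is `r`: the supremum of all `j - i` such that the `i`-th
free module of a minimal graded free resolution has a generator of degree `j`. -/
def RegIs (r : ℤ) : Prop :=
  ∃ F : MinRes H m ((Fin b → R) ⧸ Ω) (homQ H Ω),
    IsLUB {t : ℤ | ∃ i j, t = (F.deg i j : ℤ) - i} r

/-- The graded module `M = R^b ⧸ Ω` satisfies `M₁ ≠ 0` and `Mₑ = 0` for all `e > 1`; here `Mₑ` is
the set of classes of the vectors with coordinates in `H e`. -/
def Concentrated : Prop :=
  (∃ v : Fin b → R, (∀ i, v i ∈ H 1) ∧ v ∉ Ω) ∧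
  ∀ e, 1 < e → ∀ v : Fin b → R, (∀ i, v i ∈ H e) → v ∈ Ω

end

/-- A polynomial with integer coefficients, as a list of terms; the term `(a, [i₁, …, iₖ])` is
`a · x_{i₁} ⋯ x_{iₖ}`. -/
abbrev PolyCode := List (ℤ × List ℕ)

/-- The input `R`: the number of variables and the generators of the ideal. -/
abbrev RingCode := ℕ × List PolyCode

/-- The input `M`: the number of generators (all of degree `0`) and the list of relations, each
relation being the list of its coordinates (missing coordinates are `0`). -/
abbrev ModCode := ℕ × List (List PolyCode)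

variable (K : Type) [Field K]

/-- The polynomial over `K` with the given code, in the variables `x₀, …, x_{V-1}` (the variables
with other indices are read as `0`). -/
noncomputable def poly (V : ℕ) (p : PolyCode) : MvPolynomial (Fin V) K :=
  (p.map fun t => C (t.1 : K) *
    (t.2.map fun i => if h : i < V then X ⟨i, h⟩ else 0).prod).sum

/-- The ideal `I` given by a code. -/
noncomputable def idl (ρ : RingCode) : Ideal (MvPolynomial (Fin ρ.1) K) :=
  Ideal.span {g | ∃ p ∈ ρ.2, g = poly K ρ.1 p}

/-- The algebra `R = K[x₀, …, x_{V-1}] ⧸ I` given by a code. -/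
abbrev Rg (ρ : RingCode) : Type := MvPolynomial (Fin ρ.1) K ⧸ idl K ρ

/-- The class of a polynomial in `R`. -/
noncomputable def cls (ρ : RingCode) (p : MvPolynomial (Fin ρ.1) K) : Rg K ρ :=
  Ideal.Quotient.mk (idl K ρ) p

/-- The homogeneous elements of degree `e` of `R`. -/
def homR (ρ : RingCode) (e : ℕ) : Set (Rg K ρ) :=
  {r | ∃ p : MvPolynomial (Fin ρ.1) K, p.IsHomogeneous e ∧ cls K ρ p = r}

/-- The homogeneous maximal ideal of `R`, generated by the classes of the variables. -/
noncomputable def irr (ρ : RingCode) : Ideal (Rg K ρ) :=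
  Ideal.span (Set.range fun i => cls K ρ (X i))

/-- `R` is a standard graded Koszul algebra: the generators of `I` are homogeneous of degrees at
least `2`, and the residue field of `R` has a linear minimal graded free resolution. -/
def Koszul (ρ : RingCode) : Prop :=
  (∀ p ∈ ρ.2, ∃ e, 2 ≤ e ∧ (poly K ρ.1 p).IsHomogeneous e) ∧
  LinearResidue (homR K ρ) (irr K ρ)

/-- The submodule of relations of the module `M` given by a code; `M` is the quotient by it of the
free module with `d.1` generators in degree `0`. -/
noncomputable def rels (ρ : RingCode) (d : ModCode) : Submodule (Rg K ρ) (Fin d.1 → Rg K ρ) :=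
  Submodule.span (Rg K ρ)
    {v | ∃ r ∈ d.2, v = fun i : Fin d.1 => cls K ρ (poly K ρ.1 (r.getD i []))}

/-- The inputs considered: `R` is Koszul, the relations are homogeneous (so that `M` is a graded
module, generated in degree `0`), `M₁ ≠ 0` and `Mₑ = 0` for `e > 1`. -/
def Valid (ρ : RingCode) (d : ModCode) : Prop :=
  Koszul K ρ ∧
  (∀ r ∈ d.2, ∃ e, ∀ i : Fin d.1, (poly K ρ.1 (r.getD i [])).IsHomogeneous e) ∧
  Concentrated (homR K ρ) (rels K ρ d)

/-- The regularity of `M` over `R` is `r`. -/
def HasReg (ρ : RingCode) (d : ModCode) (r : ℤ) : Prop :=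
  RegIs (homR K ρ) (irr K ρ) (rels K ρ d) r

end Pool.Agent.Helper522.Kos
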