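import Mathlib

/-!
Finitely supported kernel elements of the linear map of a reversible stack machine are the same
as accepting paths.
-/

set_option autoImplicit false

namespace Pool.Agent.Helper522.Kos

variable {P A : Type} [DecidableEq P] [DecidableEq A]

/-- Put a letter on top of a stack. -/
def push (p : P) (a : A) (w : P → List A) : P → List A := Function.update w p (a :: w p)

omit [DecidableEq A] in
@[simp] theorem push_same (p : P) (a : A) (w : P → List A) : push p a w p = a :: w p := by
  simp [push]

omit [DecidableEq A] in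
theorem push_ne {p q : P} (h : q ≠ p) (a : A) (w : P → List A) : push p a w q = w q := by
  simp [push, h]

omit [DecidableEq A] in
theorem push_inj {p : P} {a b : A} {w w' : P → List A} (h : push p a w = push p b w') :
    a = b ∧ w = w' := by
  have h1 := congrFun h p
  simp only [push_same, List.cons.injEq] at h1
  refine ⟨h1.1, ?_⟩
  funext q
  by_cases hq : q = p
  · subst hq; exact h1.2
  · have := congrFun h q
    rwa [push_ne hq, push_ne hq] at this

omit [DecidableEq A] in
theorem push_comm {p q : P} (h : p ≠ q) (a b : A) (w : P → List A) :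
    push p a (push q b w) = push q b (push p a w) := by
  funext r
  by_cases hp : r = p
  · subst hp
    rw [push_same, push_ne h, push_ne h, push_same]
  · by_cases hq : r = q
    · subst hq
      rw [push_ne hp, push_same, push_same, push_ne hp]
    · rw [push_ne hp, push_ne hq, push_ne hq, push_ne hp]

/-- A column of a machine: sources push a letter on the stack `sp`, targets pop a letter from
the stack `tp`. -/
structure Col (P A J : Type) where
  sp : P
  tp : P
  ne : sp ≠ tp
  src : A → Option J
  tg : A → Option J

variable {C J : Type}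

/-- The states attached to a column and a letter on a stack. -/
def tgt (c : C → Col P A J) (k : C) (p : P) (a : A) : Option J :=
  if p = (c k).sp then (c k).src a else if p = (c k).tp then (c k).tg a else none

/-- Every state is the source of at most one column and the target of at most one column. -/
structure Rev (c : C → Col P A J) : Prop where
  src : ∀ k k' a a' j, (c k).src a = some j → (c k').src a' = some j → k = k' ∧ a = a'
  tg : ∀ k k' a a' j, (c k).tg a = some j → (c k').tg a' = some j → k = k' ∧ a = a'

/-- One step. -/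
def Step (c : C → Col P A J) (x y : (P → List A) × J) : Prop :=
  ∃ k a b, (c k).src a = some x.2 ∧ (c k).tg b = some y.2 ∧
    push (c k).sp a x.1 = push (c k).tp b y.1

/-- The state is not a target. -/
def IsStart (c : C → Col P A J) (j : J) : Prop := ∀ k a, (c k).tg a ≠ some j

/-- The state is not a source. -/
def IsEnd (c : C → Col P A J) (j : J) : Prop := ∀ k a, (c k).src a ≠ some j

section Kernel

variable {K : Type} [Field K] [Fintype P] [Fintype A] [Fintype C]
  (s : P → (P → List A) → K) (c : C → Col P A J)

open Classical in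
/-- The image of a basis vector under the transposed map. -/
noncomputable def col (x : (P → List A) × J) : ((P → List A) × C) →₀ K :=
  ∑ k, ∑ p, ∑ a, if tgt c k p a = some x.2 then Finsupp.single (push p a x.1, k) (s p x.1) else 0

/-- The transposed map. -/
noncomputable def tr : (((P → List A) × J) →₀ K) →ₗ[K] (((P → List A) × C) →₀ K) :=
  Finsupp.linearCombination K (col s c)

theorem tr_single (x : (P → List A) × J) (r : K) :
    tr s c (Finsupp.single x r) = r • col s c x := by
  simp [tr]

open Classical in
theorem col_apply (x : (P → List A) × J) (w : P → List A) (k : C) :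
    col s c x (w, k) = ∑ p, ∑ a, if tgt c k p a = some x.2 ∧ push p a x.1 = w
      then s p x.1 else 0 := by
  unfold col
  rw [Finsupp.finsetSum_apply, Finset.sum_eq_single k]
  · rw [Finsupp.finsetSum_apply]
    refine Finset.sum_congr rfl fun p _ => ?_
    rw [Finsupp.finsetSum_apply]
    refine Finset.sum_congr rfl fun a _ => ?_
    by_cases h : tgt c k p a = some x.2
    · simp [h, Finsupp.single_apply]
    · simp [h]
  · intro k' _ hk
    rw [Finsupp.finsetSum_apply]
    refine Finset.sum_eq_zero fun p _ => ?_
    rw [Finsupp.finsetSum_apply]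
    refine Finset.sum_eq_zero fun a _ => ?_
    by_cases h : tgt c k' p a = some x.2
    · simp [h, Finsupp.single_apply, hk]
    · simp [h]
  · intro h
    exact absurd (Finset.mem_univ _) h

open Classical in
/-- Surjectivity of the word map. -/
def Surj : Prop := ∀ g : (P → List A) × J → K, ∃ y : (P → List A) × C → K, ∀ x,
  (∑ k, ∑ p, ∑ a, if tgt c k p a = some x.2 then s p x.1 * y (push p a x.1, k) else 0) = g x

open Classical in
theorem pair_col (y : (P → List A) × C → K) (x : (P → List A) × J) :
    Finsupp.linearCombination K y (col s c x) =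
      ∑ k, ∑ p, ∑ a, if tgt c k p a = some x.2 then s p x.1 * y (push p a x.1, k) else 0 := by
  unfold col
  simp only [map_sum]
  refine Finset.sum_congr rfl fun k _ => Finset.sum_congr rfl fun p _ =>
    Finset.sum_congr rfl fun a _ => ?_
  split_ifs <;> simp

open Classical in
theorem inj_of_ind (h : ∀ x0 : (P → List A) × J, ∃ y : (P → List A) × C → K, ∀ x,
    (∑ k, ∑ p, ∑ a, if tgt c k p a = some x.2 then s p x.1 * y (push p a x.1, k) else 0) =
      if x = x0 then 1 else 0) (f : ((P → List A) × J) →₀ K) (hf : tr s c f = 0) : f = 0 := by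
  ext x0
  obtain ⟨y, hy⟩ := h x0
  have h1 : Finsupp.linearCombination K y (tr s c f) = 0 := by rw [hf, map_zero]
  have h2 : Finsupp.linearCombination K y ∘ₗ tr s c =
      Finsupp.linearCombination K (fun x => if x = x0 then (1 : K) else 0) := by
    ext x
    simp only [LinearMap.comp_apply, Finsupp.lsingle_apply, tr_single, one_smul, pair_col, hy]
    simp
  rw [← LinearMap.comp_apply, h2, Finsupp.linearCombination_apply] at h1
  simp only [smul_eq_mul, mul_ite, mul_one, mul_zero] at h1
  rw [Finsupp.sum_ite_eq'] at h1
  by_contra hc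
  rw [if_pos (Finsupp.mem_support_iff.2 hc)] at h1
  exact hc h1

theorem surj_of_inj (h : ∀ f, tr s c f = 0 → f = 0) : Surj s c := by
  classical
  intro g
  have hk : LinearMap.ker (tr s c) = ⊥ := by
    rw [LinearMap.ker_eq_bot']
    exact h
  obtain ⟨L, hL⟩ := LinearMap.exists_leftInverse_of_injective _ hk
  obtain ⟨Y, hYd⟩ : ∃ Y : (P → List A) × C → K,
      Y = fun i => (Finsupp.linearCombination K g) (L (Finsupp.single i 1)) := ⟨_, rfl⟩
  refine ⟨Y, fun x => ?_⟩
  have h1 : Finsupp.linearCombination K Y = (Finsupp.linearCombination K g) ∘ₗ L := by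
    ext i
    simp [hYd]
  have h2 : L (col s c x) = Finsupp.single x 1 := by
    have := congrArg (fun m => m (Finsupp.single x (1 : K))) hL
    simpa [tr_single] using this
  have h3 := pair_col s c Y x
  rw [h1, LinearMap.comp_apply, h2] at h3
  simp only [Finsupp.linearCombination_single, one_smul] at h3
  exact h3.symm

variable {s c}

/-- A kernel element that does not vanish at a source does not vanish at the next
configuration. -/
theorem next_of_ker (hs : ∀ p w, s p w ≠ 0) {f : ((P → List A) × J) →₀ K} (hf : tr s c f = 0)
    {x : (P → List A) × J} (hx : f x ≠ 0) {k : C} {a : A} (hk : (c k).src a = some x.2) :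
    ∃ y, f y ≠ 0 ∧ Step c x y := by
  classical
  by_contra hc
  push Not at hc
  have h1 : tr s c f (push (c k).sp a x.1, k) = 0 := by rw [hf]; rfl
  unfold tr at h1
  rw [Finsupp.linearCombination_apply, Finsupp.sum, Finsupp.finsetSum_apply,
    Finset.sum_eq_single x] at h1
  · rw [Finsupp.smul_apply, col_apply, Finset.sum_eq_single (c k).sp,
      Finset.sum_eq_single a] at h1
    · rw [if_pos ⟨by simp [tgt, hk], rfl⟩] at h1
      exact (mul_ne_zero hx (hs _ _)) h1
    · intro b _ hb
      rw [if_neg]
      rintro ⟨-, h2⟩
      exact hb (push_inj h2).1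
    · intro h; exact absurd (Finset.mem_univ _) h
    · intro p _ hp
      refine Finset.sum_eq_zero fun b _ => ?_
      rw [if_neg]
      rintro ⟨h2, h3⟩
      have h4 : p = (c k).tp := by
        by_contra h5
        simp [tgt, hp, h5] at h2
      subst h4
      have h5 : (c k).tg b = some x.2 := by simpa [tgt, hp] using h2
      exact hc x hx ⟨k, a, b, hk, h5, h3.symm⟩
    · intro h; exact absurd (Finset.mem_univ _) h
  · intro y hy hyx
    rw [Finsupp.smul_apply, col_apply]
    rw [Finset.sum_eq_zero, smul_zero]
    intro p _
    refine Finset.sum_eq_zero fun b _ => ?_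
    rw [if_neg]
    rintro ⟨h2, h3⟩
    by_cases hp : p = (c k).sp
    · subst hp
      obtain ⟨rfl, h4⟩ := push_inj h3
      have h5 : (c k).src b = some y.2 := by simpa [tgt] using h2
      rw [hk] at h5
      apply hyx
      refine Prod.ext h4 ?_
      simpa using h5.symm
    · have h4 : p = (c k).tp := by
        by_contra h5
        simp [tgt, hp, h5] at h2
      subst h4
      have h5 : (c k).tg b = some y.2 := by simpa [tgt, hp] using h2
      exact hc y (Finsupp.mem_support_iff.1 hy) ⟨k, a, b, hk, h5, h3.symm⟩
  · intro h
    exact absurd (Finsupp.mem_support_iff.2 hx) h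

/-- The same backwards. -/
theorem prev_of_ker (hs : ∀ p w, s p w ≠ 0) {f : ((P → List A) × J) →₀ K} (hf : tr s c f = 0)
    {x : (P → List A) × J} (hx : f x ≠ 0) {k : C} {a : A} (hk : (c k).tg a = some x.2) :
    ∃ y, f y ≠ 0 ∧ Step c y x := by
  classical
  by_contra hc
  push Not at hc
  have hne := (c k).ne
  have h1 : tr s c f (push (c k).tp a x.1, k) = 0 := by rw [hf]; rfl
  unfold tr at h1
  rw [Finsupp.linearCombination_apply, Finsupp.sum, Finsupp.finsetSum_apply,
    Finset.sum_eq_single x] at h1
  · rw [Finsupp.smul_apply, col_apply, Finset.sum_eq_single (c k).tp,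
      Finset.sum_eq_single a] at h1
    · rw [if_pos ⟨by simp [tgt, hk, hne.symm], rfl⟩] at h1
      exact (mul_ne_zero hx (hs _ _)) h1
    · intro b _ hb
      rw [if_neg]
      rintro ⟨-, h2⟩
      exact hb (push_inj h2).1
    · intro h; exact absurd (Finset.mem_univ _) h
    · intro p _ hp
      refine Finset.sum_eq_zero fun b _ => ?_
      rw [if_neg]
      rintro ⟨h2, h3⟩
      have h4 : p = (c k).sp := by
        by_contra h5
        simp [tgt, hp, h5] at h2
      subst h4
      have h5 : (c k).src b = some x.2 := by simpa [tgt] using h2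
      exact hc x hx ⟨k, b, a, h5, hk, h3⟩
    · intro h; exact absurd (Finset.mem_univ _) h
  · intro y hy hyx
    rw [Finsupp.smul_apply, col_apply]
    rw [Finset.sum_eq_zero, smul_zero]
    intro p _
    refine Finset.sum_eq_zero fun b _ => ?_
    rw [if_neg]
    rintro ⟨h2, h3⟩
    by_cases hp : p = (c k).tp
    · subst hp
      obtain ⟨rfl, h4⟩ := push_inj h3
      have h5 : (c k).tg b = some y.2 := by simpa [tgt, hne.symm] using h2
      rw [hk] at h5
      apply hyx
      refine Prod.ext h4 ?_
      simpa using h5.symm
    · have h4 : p = (c k).sp := by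
        by_contra h5
        simp [tgt, hp, h5] at h2
      subst h4
      have h5 : (c k).src b = some y.2 := by simpa [tgt] using h2
      exact hc y (Finsupp.mem_support_iff.1 hy) ⟨k, b, a, h5, hk, h3⟩
  · intro h
    exact absurd (Finsupp.mem_support_iff.2 hx) h

open Relation

/-- A nonzero kernel element gives an accepting path. -/
theorem path_of_ker (hs : ∀ p w, s p w ≠ 0) {M : Type} [LinearOrder M]
    (μ : (P → List A) × J → M) (hμ : ∀ x y, Step c x y → μ y < μ x)
    {f : ((P → List A) × J) →₀ K} (hf : tr s c f = 0) (h0 : f ≠ 0) :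
    ∃ x y, IsStart c x.2 ∧ IsEnd c y.2 ∧ ReflTransGen (Step c) x y := by
  classical
  obtain ⟨z, hz⟩ := Finsupp.support_nonempty_iff.2 h0
  obtain ⟨y, hy, hymin⟩ := f.support.exists_min_image μ ⟨z, hz⟩
  have hyE : IsEnd c y.2 := by
    intro k a hk
    obtain ⟨y', h1, h2⟩ := next_of_ker hs hf (Finsupp.mem_support_iff.1 hy) hk
    have h3 := hμ _ _ h2
    exact absurd (hymin y' (Finsupp.mem_support_iff.2 h1)) (not_le.2 h3)
  obtain ⟨x, hx, hxmax⟩ := (f.support.filter fun x => ReflTransGen (Step c) x y).exists_max_image μ
    ⟨y, by simp only [Finset.mem_filter]; exact ⟨hy, ReflTransGen.refl⟩⟩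
  simp only [Finset.mem_filter] at hx hxmax
  refine ⟨x, y, ?_, hyE, hx.2⟩
  intro k a hk
  obtain ⟨x', h1, h2⟩ := prev_of_ker hs hf (Finsupp.mem_support_iff.1 hx.1) hk
  have h3 := hμ _ _ h2
  exact absurd (hxmax x' ⟨Finsupp.mem_support_iff.2 h1, hx.2.head h2⟩) (not_le.2 h3)

open Classical in
/-- The part of the image of a basis vector from the source role. -/
noncomputable def outV (s : P → (P → List A) → K) (c : C → Col P A J)
    (x : (P → List A) × J) : ((P → List A) × C) →₀ K :=
  ∑ k, ∑ a, if (c k).src a = some x.2 then Finsupp.single (push (c k).sp a x.1, k)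
    (s (c k).sp x.1) else 0

open Classical in
/-- The part of the image of a basis vector from the target role. -/
noncomputable def inV (s : P → (P → List A) → K) (c : C → Col P A J)
    (x : (P → List A) × J) : ((P → List A) × C) →₀ K :=
  ∑ k, ∑ a, if (c k).tg a = some x.2 then Finsupp.single (push (c k).tp a x.1, k)
    (s (c k).tp x.1) else 0

theorem col_eq (x : (P → List A) × J) : col s c x = outV s c x + inV s c x := by
  classical
  unfold col outV inV
  rw [← Finset.sum_add_distrib]
  refine Finset.sum_congr rfl fun k _ => ?_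
  have hne := (c k).ne
  rw [← Finset.sum_subset (Finset.subset_univ {(c k).sp, (c k).tp}), Finset.sum_pair hne]
  · congr 1
    · refine Finset.sum_congr rfl fun a _ => ?_
      simp [tgt]
    · refine Finset.sum_congr rfl fun a _ => ?_
      simp [tgt, hne.symm]
  · intro p _ hp
    simp only [Finset.mem_insert, Finset.mem_singleton, not_or] at hp
    refine Finset.sum_eq_zero fun a _ => ?_
    simp [tgt, hp.1, hp.2]

theorem outV_eq (hR : Rev c) {x : (P → List A) × J} {k : C} {a : A}
    (hk : (c k).src a = some x.2) :
    outV s c x = Finsupp.single (push (c k).sp a x.1, k) (s (c k).sp x.1) := by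
  classical
  unfold outV
  rw [Finset.sum_eq_single k, Finset.sum_eq_single a, if_pos hk]
  · intro b _ hb
    rw [if_neg]
    intro h
    exact hb (hR.src _ _ _ _ _ h hk).2
  · intro h; exact absurd (Finset.mem_univ _) h
  · intro k' _ hk'
    refine Finset.sum_eq_zero fun b _ => ?_
    rw [if_neg]
    intro h
    exact hk' (hR.src _ _ _ _ _ h hk).1
  · intro h; exact absurd (Finset.mem_univ _) h

theorem inV_eq (hR : Rev c) {x : (P → List A) × J} {k : C} {a : A}
    (hk : (c k).tg a = some x.2) :
    inV s c x = Finsupp.single (push (c k).tp a x.1, k) (s (c k).tp x.1) := by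
  classical
  unfold inV
  rw [Finset.sum_eq_single k, Finset.sum_eq_single a, if_pos hk]
  · intro b _ hb
    rw [if_neg]
    intro h
    exact hb (hR.tg _ _ _ _ _ h hk).2
  · intro h; exact absurd (Finset.mem_univ _) h
  · intro k' _ hk'
    refine Finset.sum_eq_zero fun b _ => ?_
    rw [if_neg]
    intro h
    exact hk' (hR.tg _ _ _ _ _ h hk).1
  · intro h; exact absurd (Finset.mem_univ _) h

theorem outV_end {x : (P → List A) × J} (h : IsEnd c x.2) : outV s c x = 0 := by
  classical
  unfold outV
  refine Finset.sum_eq_zero fun k _ => Finset.sum_eq_zero fun a _ => ?_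
  rw [if_neg (h k a)]

theorem inV_start {x : (P → List A) × J} (h : IsStart c x.2) : inV s c x = 0 := by
  classical
  unfold inV
  refine Finset.sum_eq_zero fun k _ => Finset.sum_eq_zero fun a _ => ?_
  rw [if_neg (h k a)]

/-- An accepting path gives a nonzero kernel element. -/
theorem ker_of_path (hs : ∀ p w, s p w ≠ 0) (hR : Rev c) {x y : (P → List A) × J}
    (hx : IsStart c x.2) (hy : IsEnd c y.2) (h : ReflTransGen (Step c) x y) :
    ∃ f, tr s c f = 0 ∧ f ≠ 0 := by
  classical
  have key : ∃ f : ((P → List A) × J) →₀ K, f x = 1 ∧ ∃ r : K, tr s c f = r • outV s c y := by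
    clear hy
    induction h with
    | refl =>
      refine ⟨Finsupp.single x 1, by simp, 1, ?_⟩
      rw [tr_single, col_eq, inV_start hx, add_zero]
    | @tail z z' _ hstep ih =>
      obtain ⟨f, h1, r, h2⟩ := ih
      obtain ⟨k, a, b, h3, h4, h5⟩ := hstep
      have hne : z' ≠ x := by
        rintro rfl
        exact hx k b h4
      refine ⟨f - Finsupp.single z' (r * s (c k).sp z.1 / s (c k).tp z'.1), ?_,
        -(r * s (c k).sp z.1 / s (c k).tp z'.1), ?_⟩
      · simp [h1, hne.symm]
      · rw [map_sub, h2, tr_single, col_eq, outV_eq hR h3, inV_eq hR h4, h5, smul_add,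
          Finsupp.smul_single, Finsupp.smul_single, smul_eq_mul, smul_eq_mul,
          div_mul_cancel₀ _ (hs _ _), neg_smul]
        abel
  obtain ⟨f, h1, r, h2⟩ := key
  refine ⟨f, by rw [h2, outV_end hy, smul_zero], ?_⟩
  rintro rfl
  simp at h1

end Kernel

end Pool.Agent.Helper522.Kos
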