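import Mathlib
import Pool.Agent.Helper522.Kos.Path

/-!
The word complex over a tensor product of trivial extension algebras.
-/

set_option autoImplicit false

namespace Pool.Agent.Helper522.Kos

/-- Coordinates on a ring with the monomial basis of partial choices. -/
structure KR (K P A R : Type) [Field K] [DecidableEq P] [DecidableEq A] [CommRing R]
    [Algebra K R] where
  x : P → A → R
  coef : R ≃ₗ[K] ((P → Option A) → K)
  coef_one : coef 1 (fun _ => none) = 1
  coef_one' : ∀ c, c ≠ (fun _ => none) → coef 1 c = 0
  coef_x : ∀ p a r c, coef (x p a * r) c =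
    if c p = some a then coef r (Function.update c p none) else 0
  adj : ∀ r : R, r ∈ Algebra.adjoin K (Set.range fun q : P × A => x q.1 q.2)

/-- The degree of a partial choice. -/
def dg {P A : Type} [Fintype P] (c : P → Option A) : ℕ :=
  (Finset.univ.filter fun p => (c p).isSome = true).card

section

variable {P A : Type} [Fintype P] [DecidableEq P]

theorem dg_none : dg (fun _ : P => (none : Option A)) = 0 := by
  simp [dg]

theorem dg_eq_zero {c : P → Option A} (h : dg c = 0) : c = fun _ => none := by
  unfold dg at h
  rw [Finset.card_eq_zero, Finset.filter_eq_empty_iff] at h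
  funext p
  have := h (Finset.mem_univ p)
  simpa using this

theorem dg_update {c : P → Option A} {p : P} {a : A} (h : c p = some a) :
    dg (Function.update c p none) + 1 = dg c := by
  unfold dg
  have h1 : (Finset.univ.filter fun q => (c q).isSome = true) =
      insert p (Finset.univ.filter fun q => (Function.update c p none q).isSome = true) := by
    ext q
    by_cases hq : q = p
    · subst hq; simp [h]
    · simp [hq]
  rw [h1, Finset.card_insert_of_notMem]
  simp

theorem dg_update' {c : P → Option A} {p : P} {a : A} (h : c p = none) :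
    dg (Function.update c p (some a)) = dg c + 1 := by
  have h1 : (Function.update c p (some a)) p = some a := by simp
  have h2 := dg_update h1
  rw [Function.update_idem] at h2
  have h3 : Function.update c p none = c := by
    rw [← h]; exact Function.update_eq_self p c
  rw [h3] at h2
  omega

end

namespace KR

variable {K P A R : Type} [Field K] [DecidableEq P] [DecidableEq A] [CommRing R] [Algebra K R]
  [Fintype P] (k : KR K P A R)

/-- The homogeneous part of degree `e`. -/
def H (e : ℕ) : Submodule K R where
  carrier := {r | ∀ c, k.coef r c ≠ 0 → dg c = e}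
  zero_mem' := by intro c hc; simp at hc
  add_mem' := by
    intro a b ha hb c hc
    simp only [map_add, Pi.add_apply] at hc
    by_cases h : k.coef a c = 0
    · rw [h, zero_add] at hc; exact hb c hc
    · exact ha c h
  smul_mem' := by
    intro r a ha c hc
    simp only [map_smul, Pi.smul_apply, smul_eq_mul] at hc
    exact ha c (right_ne_zero_of_mul hc)

theorem mem_H {e : ℕ} {r : R} : r ∈ k.H e ↔ ∀ c, k.coef r c ≠ 0 → dg c = e := Iff.rfl

/-- The component of degree `e`. -/
noncomputable def comp (e : ℕ) : R →ₗ[K] R :=
  k.coef.symm.toLinearMap ∘ₗ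
    (LinearMap.pi fun c => if dg c = e then LinearMap.proj c else 0) ∘ₗ k.coef.toLinearMap

theorem coef_comp (e : ℕ) (r : R) (c : P → Option A) :
    k.coef (k.comp e r) c = if dg c = e then k.coef r c else 0 := by
  simp only [comp, LinearMap.comp_apply, LinearEquiv.coe_coe, LinearEquiv.apply_symm_apply,
    LinearMap.pi_apply]
  split_ifs <;> simp

theorem ext_coef {r s : R} (h : ∀ c, k.coef r c = k.coef s c) : r = s :=
  k.coef.injective (funext h)

theorem comp_mem (e : ℕ) (r : R) : k.comp e r ∈ k.H e := by
  intro c hc
  rw [coef_comp] at hc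
  by_contra h
  rw [if_neg h] at hc
  exact hc rfl

theorem comp_of_mem {e : ℕ} {r : R} (h : r ∈ k.H e) : k.comp e r = r := by
  apply k.ext_coef
  intro c
  rw [coef_comp]
  split_ifs with h1
  · rfl
  · by_contra h2
    exact h1 (h c (fun h3 => h2 h3.symm))

theorem sum_comp (r : R) : ∑ e ∈ Finset.range (Fintype.card P + 1), k.comp e r = r := by
  apply k.ext_coef
  intro c
  rw [map_sum, Finset.sum_apply]
  simp only [coef_comp]
  rw [Finset.sum_ite_eq, if_pos]
  rw [Finset.mem_range]
  have : dg c ≤ Fintype.card P := Finset.card_le_univ _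
  omega

theorem x_mul_mem {e : ℕ} {r : R} (h : r ∈ k.H e) (p : P) (a : A) :
    k.x p a * r ∈ k.H (e + 1) := by
  intro c hc
  rw [k.coef_x] at hc
  split_ifs at hc with h1
  · have := h _ hc
    have h2 := dg_update h1
    omega
  · exact absurd rfl hc

theorem comp_x_mul (e : ℕ) (p : P) (a : A) (r : R) :
    k.comp (e + 1) (k.x p a * r) = k.x p a * k.comp e r := by
  apply k.ext_coef
  intro c
  rw [coef_comp, k.coef_x, k.coef_x, coef_comp]
  by_cases h1 : c p = some a
  · have h2 := dg_update h1
    simp only [h1, if_true]
    by_cases h3 : dg c = e + 1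
    · rw [if_pos h3, if_pos (by omega)]
    · rw [if_neg h3, if_neg (by omega)]
  · simp [h1]

theorem comp_zero_x_mul (p : P) (a : A) (r : R) : k.comp 0 (k.x p a * r) = 0 := by
  apply k.ext_coef
  intro c
  rw [coef_comp, map_zero, Pi.zero_apply]
  split_ifs with h
  · rw [dg_eq_zero h, k.coef_x]
    simp
  · rfl

theorem one_mem : (1 : R) ∈ k.H 0 := by
  intro c hc
  by_contra h
  exact hc (k.coef_one' c (fun h1 => h (by rw [h1]; exact dg_none)))

theorem x_mem (p : P) (a : A) : k.x p a ∈ k.H 1 := by
  have := k.x_mul_mem k.one_mem p a
  simpa using this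

theorem eq_of_mem_zero {r : R} (h : r ∈ k.H 0) :
    r = k.coef r (fun _ => none) • 1 := by
  apply k.ext_coef
  intro c
  rw [map_smul, Pi.smul_apply, smul_eq_mul]
  by_cases h1 : c = fun _ => none
  · rw [h1, k.coef_one, mul_one]
  · rw [k.coef_one' c h1, mul_zero]
    by_contra h2
    exact h1 (dg_eq_zero (h c h2))

/-- The partial choice of one letter. -/
def sgl (p : P) (a : A) : P → Option A := Function.update (fun _ => none) p (some a)

omit [DecidableEq A] in
theorem dg_sgl (p : P) (a : A) : dg (sgl p a) = 1 := by
  unfold sgl
  rw [dg_update' rfl, dg_none]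

open Classical in
theorem coef_x_self (p : P) (a : A) (c : P → Option A) :
    k.coef (k.x p a) c = if c = sgl p a then 1 else 0 := by
  have h := k.coef_x p a 1 c
  have h0 : k.coef 1 (Function.update c p none) =
      if Function.update c p none = (fun _ => none) then 1 else 0 := by
    split_ifs with h1
    · rw [h1, k.coef_one]
    · exact k.coef_one' _ h1
  rw [mul_one, h0] at h
  rw [h]
  by_cases h1 : c = sgl p a
  · subst h1
    have h2 : sgl p a p = some a := by simp [sgl]
    have h3 : Function.update (sgl p a) p none = fun _ => none := by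
      unfold sgl
      rw [Function.update_idem]
      exact Function.update_eq_self p _
    rw [if_pos h2, if_pos h3, if_pos rfl]
  · rw [if_neg h1]
    split_ifs with h2 h3
    · exfalso
      apply h1
      funext q
      by_cases hq : q = p
      · subst hq; simp [sgl, h2]
      · have := congrFun h3 q
        simp only [Function.update_of_ne hq] at this
        simp [sgl, hq, this]
    · rfl
    · rfl

variable [Fintype A]

theorem eq_of_mem_one {r : R} (h : r ∈ k.H 1) :
    r = ∑ p, ∑ a, k.coef r (sgl p a) • k.x p a := by
  apply k.ext_coef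
  intro c
  simp only [map_sum, Finset.sum_apply, map_smul, Pi.smul_apply, coef_x_self, smul_eq_mul,
    mul_ite, mul_one, mul_zero]
  by_cases hc : ∃ p a, c = sgl p a
  · obtain ⟨p, a, rfl⟩ := hc
    rw [Finset.sum_eq_single p, Finset.sum_eq_single a, if_pos rfl]
    · intro b _ hb
      rw [if_neg]
      intro h1
      have := congrFun h1 p
      simp only [sgl, Function.update_self, Option.some.injEq] at this
      exact hb this.symm
    · intro h; exact absurd (Finset.mem_univ _) h
    · intro q _ hq
      refine Finset.sum_eq_zero fun b _ => ?_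
      rw [if_neg]
      intro h1
      have := congrFun h1 p
      simp [sgl, hq.symm] at this
    · intro h; exact absurd (Finset.mem_univ _) h
  · push Not at hc
    rw [Finset.sum_eq_zero]
    · by_contra h1
      have h2 := h c h1
      unfold dg at h2
      rw [Finset.card_eq_one] at h2
      obtain ⟨p, hp⟩ := h2
      have h3 : ∀ q, (c q).isSome = true ↔ q = p := by
        intro q
        have : q ∈ (Finset.univ.filter fun p => (c p).isSome = true) ↔ q ∈ ({p} : Finset P) := by
          rw [hp]
        simpa using this
      obtain ⟨a, ha⟩ := Option.isSome_iff_exists.1 ((h3 p).2 rfl)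
      apply hc p a
      funext q
      by_cases hq : q = p
      · subst hq; simp [sgl, ha]
      · have : ¬ (c q).isSome = true := fun h => hq ((h3 q).1 h)
        simp only [Bool.not_eq_true, Option.isSome_eq_false_iff, Option.isNone_iff_eq_none] at this
        simp [sgl, hq, this]
    · intro p _
      refine Finset.sum_eq_zero fun a _ => ?_
      rw [if_neg (hc p a)]

theorem comp_mul {a : R} (ha : a ∈ k.H 1) (e : ℕ) (r : R) :
    k.comp (e + 1) (a * r) = a * k.comp e r := by
  rw [k.eq_of_mem_one ha]
  simp only [Finset.sum_mul, map_sum, smul_mul_assoc, map_smul, comp_x_mul]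

theorem comp_zero_mul {a : R} (ha : a ∈ k.H 1) (r : R) : k.comp 0 (a * r) = 0 := by
  rw [k.eq_of_mem_one ha]
  simp only [Finset.sum_mul, map_sum, smul_mul_assoc, map_smul, comp_zero_x_mul, smul_zero,
    Finset.sum_const_zero]

theorem mul_mem_succ {a : R} (ha : a ∈ k.H 1) {e : ℕ} {r : R} (hr : r ∈ k.H e) :
    a * r ∈ k.H (e + 1) := by
  rw [← k.comp_of_mem hr, ← k.comp_mul ha]
  exact k.comp_mem _ _

end KR

end Pool.Agent.Helper522.Kos
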