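import Mathlib
import Pool.Agent.Helper522.Kos.Ring

/-!
The word complex: differential, square zero, exactness.
-/

set_option autoImplicit false

namespace Pool.Agent.Helper522.Kos

variable {K P A R : Type} [Field K] [DecidableEq P] [DecidableEq A] [CommRing R] [Algebra K R]
  [Fintype P] [Fintype A]

/-- The exponent of the sign. -/
def sge (rk : P → ℕ) (p : P) (w : P → List A) : ℕ :=
  ∑ q ∈ Finset.univ.filter (fun q => rk q < rk p), (w q).length

/-- The sign. -/
def sg (K : Type) [Field K] (rk : P → ℕ) (p : P) (w : P → List A) : K := (-1) ^ sge rk p w

omit [DecidableEq P] [DecidableEq A] [Fintype A] in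
theorem sg_ne_zero (rk : P → ℕ) (p : P) (w : P → List A) : sg K rk p w ≠ 0 :=
  pow_ne_zero _ (neg_ne_zero.2 one_ne_zero)

omit [DecidableEq A] [Fintype A] in
theorem sge_push_lt {rk : P → ℕ} {p q : P} (h : rk q < rk p) (a : A) (w : P → List A) :
    sge rk p (push q a w) = sge rk p w + 1 := by
  unfold sge
  rw [← Finset.add_sum_erase _ _ (Finset.mem_filter.2 ⟨Finset.mem_univ q, h⟩),
    ← Finset.add_sum_erase (Finset.univ.filter (fun q => rk q < rk p)) (fun q => (w q).length)
      (Finset.mem_filter.2 ⟨Finset.mem_univ q, h⟩), push_same, List.length_cons,
    Finset.sum_congr rfl (g := fun q => (w q).length)]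
  · omega
  · intro r hr
    rw [push_ne (Finset.ne_of_mem_erase hr)]

omit [DecidableEq A] [Fintype A] in
theorem sge_push_le {rk : P → ℕ} {p q : P} (h : rk p ≤ rk q) (a : A) (w : P → List A) :
    sge rk p (push q a w) = sge rk p w := by
  unfold sge
  refine Finset.sum_congr rfl fun r hr => ?_
  rw [Finset.mem_filter] at hr
  rw [push_ne]
  rintro rfl
  omega

variable (k : KR K P A R) (rk : P → ℕ)

section dl

variable {M : Type} [AddCommGroup M] [Module R M]

/-- The differential. -/
noncomputable def dl (z : (P → List A) → M) (w : P → List A) : M :=
  ∑ p, ∑ a, (sg K rk p w • k.x p a) • z (push p a w)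

theorem dl_map {N : Type} [AddCommGroup N] [Module R N] (φ : M →ₗ[R] N)
    (z : (P → List A) → M) (w : P → List A) :
    φ (dl k rk z w) = dl k rk (fun w => φ (z w)) w := by
  simp [dl, map_sum, map_smul]

theorem dl_sub (z z' : (P → List A) → M) (w : P → List A) :
    dl k rk (fun w => z w - z' w) w = dl k rk z w - dl k rk z' w := by
  simp [dl, smul_sub, Finset.sum_sub_distrib]

theorem x_mul_x_same (p : P) (a b : A) : k.x p a * k.x p b = 0 := by
  apply k.ext_coef
  intro c
  rw [k.coef_x, map_zero, Pi.zero_apply]
  split_ifs with h
  · have := k.coef_x p b 1 (Function.update c p none)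
    rw [mul_one] at this
    rw [this]
    simp
  · rfl

theorem dl_dl (hrk : Function.Injective rk) (z : (P → List A) → M) (w : P → List A) :
    dl k rk (dl k rk z) w = 0 := by
  have h1 : dl k rk (dl k rk z) w = ∑ t : (P × A) × (P × A),
      ((sg K rk t.1.1 w • k.x t.1.1 t.1.2) * (sg K rk t.2.1 (push t.1.1 t.1.2 w) •
        k.x t.2.1 t.2.2)) • z (push t.2.1 t.2.2 (push t.1.1 t.1.2 w)) := by
    rw [Fintype.sum_prod_type]
    unfold dl
    rw [Fintype.sum_prod_type]
    refine Finset.sum_congr rfl fun p _ => Finset.sum_congr rfl fun a _ => ?_
    rw [Fintype.sum_prod_type, Finset.smul_sum]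
    refine Finset.sum_congr rfl fun q _ => ?_
    rw [Finset.smul_sum]
    refine Finset.sum_congr rfl fun b _ => ?_
    rw [smul_smul]
  rw [h1]
  refine Finset.sum_involution (fun t _ => (t.2, t.1)) ?_ ?_ (fun _ _ => Finset.mem_univ _)
    (fun _ _ => rfl)
  · rintro ⟨⟨p, a⟩, ⟨q, b⟩⟩ _
    simp only
    by_cases hpq : p = q
    · subst hpq
      rw [smul_mul_smul_comm, smul_mul_smul_comm, x_mul_x_same, x_mul_x_same]
      simp
    · rw [push_comm hpq]
      rw [← add_smul, smul_mul_smul_comm, smul_mul_smul_comm, mul_comm (k.x q b), ← add_smul]
      have : sg K rk p w * sg K rk q (push p a w) + sg K rk q w * sg K rk p (push q b w) = 0 := by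
        unfold sg
        rcases Nat.lt_or_gt_of_ne (fun h => hpq (hrk h)) with h | h
        · rw [sge_push_lt h, sge_push_le h.le]
          ring
        · rw [sge_push_le h.le, sge_push_lt h]
          ring
      rw [this]
      simp
  · rintro ⟨⟨p, a⟩, ⟨q, b⟩⟩ _ h1 h2
    simp only [Prod.mk.injEq] at h2
    obtain ⟨⟨rfl, rfl⟩, -⟩ := h2
    apply h1
    simp only
    rw [smul_mul_smul_comm, x_mul_x_same]
    simp

end dl

/-! ### Exactness for the ring -/

/-- The summand of the coefficient of the differential. -/
noncomputable def gg (z : (P → List A) → R) (w : P → List A) (c : P → Option A) (p : P) : K :=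
  match c p with
  | none => 0
  | some a => sg K rk p w * k.coef (z (push p a w)) (Function.update c p none)

theorem coef_dl (z : (P → List A) → R) (w : P → List A) (c : P → Option A) :
    k.coef (dl k rk z w) c = ∑ p, gg k rk z w c p := by
  unfold dl
  rw [map_sum, Finset.sum_apply]
  refine Finset.sum_congr rfl fun p _ => ?_
  rw [map_sum, Finset.sum_apply]
  unfold gg
  rcases h : c p with _ | a
  · refine Finset.sum_eq_zero fun a _ => ?_
    rw [smul_eq_mul, smul_mul_assoc, map_smul, Pi.smul_apply, k.coef_x, h]
    simp
  · simp only
    rw [Finset.sum_eq_single a]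
    · rw [smul_eq_mul, smul_mul_assoc, map_smul, Pi.smul_apply, k.coef_x, h, if_pos rfl,
        smul_eq_mul]
    · intro b _ hb
      rw [smul_eq_mul, smul_mul_assoc, map_smul, Pi.smul_apply, k.coef_x, h, if_neg, smul_zero]
      simpa using hb.symm
    · intro h; exact absurd (Finset.mem_univ _) h

/-- The first stack that is not empty, counting the choice. -/
def IsMin (w : P → List A) (c : P → Option A) (p : P) : Prop :=
  (w p ≠ [] ∨ c p ≠ none) ∧ ∀ q, rk q < rk p → w q = [] ∧ c q = none

omit [DecidableEq P] [DecidableEq A] [Fintype P] [Fintype A] in
theorem isMin_unique (hrk : Function.Injective rk) {w : P → List A} {c : P → Option A} {p q : P}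
    (hp : IsMin rk w c p) (hq : IsMin rk w c q) : p = q := by
  by_contra h
  rcases Nat.lt_or_gt_of_ne (fun h' => h (hrk h')) with h' | h'
  · have := hq.2 p h'
    rcases hp.1 with h1 | h1
    · exact h1 this.1
    · exact h1 this.2
  · have := hp.2 q h'
    rcases hq.1 with h1 | h1
    · exact h1 this.1
    · exact h1 this.2

omit [DecidableEq P] [DecidableEq A] [Fintype A] in
theorem exists_isMin {w : P → List A} {c : P → Option A} (h : ∃ p, w p ≠ [] ∨ c p ≠ none) :
    ∃ p, IsMin rk w c p := by
  classical
  obtain ⟨p, hp, hmin⟩ := (Finset.univ.filter fun p => w p ≠ [] ∨ c p ≠ none).exists_min_image rk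
    (by obtain ⟨p, hp⟩ := h; exact ⟨p, by simpa using hp⟩)
  refine ⟨p, by simpa using hp, fun q hq => ?_⟩
  by_contra hc
  have : q ∈ Finset.univ.filter fun p => w p ≠ [] ∨ c p ≠ none := by
    simp only [Finset.mem_filter, Finset.mem_univ, true_and]
    by_contra h2
    push Not at h2
    exact hc h2
  have := hmin q this
  omega

open Classical in
/-- The coefficients of the homotopy. -/
noncomputable def hc (z : (P → List A) → R) (w : P → List A) (c : P → Option A) : K :=
  if h : ∃ p, IsMin rk w c p ∧ c p = none then
    match w h.choose with
    | [] => 0
    | a :: t => k.coef (z (Function.update w h.choose t))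
        (Function.update c h.choose (some a))
  else 0

/-- The homotopy. -/
noncomputable def hom (z : (P → List A) → R) (w : P → List A) : R :=
  k.coef.symm (hc k rk z w)

theorem coef_hom (z : (P → List A) → R) (w : P → List A) (c : P → Option A) :
    k.coef (hom k rk z w) c = hc k rk z w c := by
  simp [hom]

theorem hc_some (hrk : Function.Injective rk) (z : (P → List A) → R) {w : P → List A}
    {c : P → Option A} {p : P} (hp : IsMin rk w c p) (h : c p ≠ none) : hc k rk z w c = 0 := by
  unfold hc
  rw [dif_neg]
  rintro ⟨q, hq, hq2⟩
  rw [isMin_unique rk hrk hp hq] at h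
  exact h hq2

theorem hc_none (hrk : Function.Injective rk) (z : (P → List A) → R) {w : P → List A}
    {c : P → Option A} {p : P} (hp : IsMin rk w c p) (h : c p = none) {a : A} {t : List A}
    (hw : w p = a :: t) :
    hc k rk z w c = k.coef (z (Function.update w p t)) (Function.update c p (some a)) := by
  unfold hc
  have hex : ∃ p, IsMin rk w c p ∧ c p = none := ⟨p, hp, h⟩
  rw [dif_pos hex]
  have hch := isMin_unique rk hrk hex.choose_spec.1 hp
  have : ∀ q, q = p → (match w q with
    | [] => (0 : K)
    | a :: t => k.coef (z (Function.update w q t)) (Function.update c q (some a))) =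
      k.coef (z (Function.update w p t)) (Function.update c p (some a)) := by
    rintro q rfl
    rw [hw]
  exact this _ hch

theorem hom_mem (hrk : Function.Injective rk) {e : ℕ} {z : (P → List A) → R}
    (hz : ∀ w, z w ∈ k.H (e + 1)) (w : P → List A) : hom k rk z w ∈ k.H e := by
  intro c hc1
  rw [coef_hom] at hc1
  by_cases hex : ∃ p, IsMin rk w c p
  · obtain ⟨p, hp⟩ := hex
    by_cases h : c p = none
    · rcases hw : w p with _ | ⟨a, t⟩
      · rcases hp.1 with h1 | h1
        · exact absurd hw h1
        · exact absurd h h1
      · rw [hc_none k rk hrk z hp h hw] at hc1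
        have := hz _ _ hc1
        rw [dg_update' h] at this
        omega
    · exact absurd (hc_some k rk hrk z hp h) hc1
  · unfold hc at hc1
    rw [dif_neg (fun ⟨p, hp, _⟩ => hex ⟨p, hp⟩)] at hc1
    exact absurd rfl hc1

theorem exact_ring (hrk : Function.Injective rk) {e : ℕ} {z : (P → List A) → R}
    (hz : ∀ w, z w ∈ k.H (e + 1)) (hd : ∀ w, dl k rk z w = 0) (w : P → List A) :
    dl k rk (hom k rk z) w = z w := by
  apply k.ext_coef
  intro c
  rw [coef_dl]
  by_cases hex : ∃ p, c p ≠ none
  swap
  · push Not at hex
    have h0 : k.coef (z w) c = 0 := by
      by_contra h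
      have := hz w c h
      rw [funext hex, dg_none] at this
      omega
    rw [h0]
    refine Finset.sum_eq_zero fun p _ => ?_
    simp [gg, hex p]
  obtain ⟨p0, hp0⟩ := exists_isMin rk (w := w) (c := c) (by
    obtain ⟨p, hp⟩ := hex; exact ⟨p, Or.inr hp⟩)
  have hlow : ∀ p a, c p = some a → p ≠ p0 → rk p0 < rk p := by
    intro p a h1 h2
    rcases Nat.lt_or_gt_of_ne (fun h' => h2 (hrk h')) with h' | h'
    · have := (hp0.2 p h').2
      rw [h1] at this
      cases this
    · exact h'
  rcases hc0 : c p0 with _ | a0
  · -- the first stack has no choice
    rcases hw0 : w p0 with _ | ⟨a0, t⟩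
    · rcases hp0.1 with h1 | h1
      · exact absurd hw0 h1
      · exact absurd hc0 h1
    have hd2 := congrArg (fun r => k.coef r (Function.update c p0 (some a0)))
      (hd (Function.update w p0 t))
    simp only [coef_dl, map_zero, Pi.zero_apply] at hd2
    have hsum : ∀ p, gg k rk (hom k rk z) w c p +
        gg k rk z (Function.update w p0 t) (Function.update c p0 (some a0)) p =
        if p = p0 then k.coef (z w) c else 0 := by
      intro p
      by_cases hp : p = p0
      · subst hp
        have e1 : gg k rk (hom k rk z) w c p = 0 := by simp [gg, hc0]
        have e2 : push p a0 (Function.update w p t) = w := by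
          unfold push
          rw [Function.update_idem, Function.update_self, ← hw0]
          exact Function.update_eq_self p w
        have e3 : Function.update (Function.update c p (some a0)) p none = c := by
          rw [Function.update_idem, ← hc0]
          exact Function.update_eq_self p c
        have e4 : sg K rk p (Function.update w p t) = 1 := by
          unfold sg sge
          rw [Finset.sum_eq_zero, pow_zero]
          intro q hq
          rw [Finset.mem_filter] at hq
          have hqp : q ≠ p := by rintro rfl; omega
          rw [Function.update_of_ne hqp, (hp0.2 q hq.2).1]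
          rfl
        rw [e1, if_pos rfl, zero_add]
        unfold gg
        simp only [Function.update_self]
        rw [e2, e3, e4, one_mul]
      · rw [if_neg hp]
        rcases hcp : c p with _ | a
        · simp [gg, hcp, hp]
        · have hlt := hlow p a hcp hp
          have hmin : IsMin rk (push p a w) (Function.update c p none) p0 := by
            refine ⟨Or.inl ?_, ?_⟩
            · rw [push_ne (Ne.symm hp), hw0]; simp
            · intro q hq
              have hqp : q ≠ p := by rintro rfl; omega
              rw [push_ne hqp, Function.update_of_ne hqp]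
              exact hp0.2 q hq
          have e1 : gg k rk (hom k rk z) w c p = sg K rk p w *
              k.coef (z (Function.update (push p a w) p0 t))
                (Function.update (Function.update c p none) p0 (some a0)) := by
            unfold gg
            rw [hcp]
            simp only
            rw [coef_hom, hc_none k rk hrk z hmin (by rw [Function.update_of_ne (Ne.symm hp), hc0])
              (by rw [push_ne (Ne.symm hp), hw0])]
          have e2 : gg k rk z (Function.update w p0 t) (Function.update c p0 (some a0)) p =
              sg K rk p (Function.update w p0 t) *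
              k.coef (z (push p a (Function.update w p0 t)))
                (Function.update (Function.update c p0 (some a0)) p none) := by
            unfold gg
            rw [Function.update_of_ne hp, hcp]
          have e3 : push p a (Function.update w p0 t) = Function.update (push p a w) p0 t := by
            unfold push
            rw [Function.update_of_ne hp, Function.update_comm hp]
          have e4 : sg K rk p w = - sg K rk p (Function.update w p0 t) := by
            have : w = push p0 a0 (Function.update w p0 t) := by
              unfold push
              rw [Function.update_idem, Function.update_self, ← hw0]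
              exact (Function.update_eq_self p0 w).symm
            conv_lhs => rw [this]
            unfold sg
            rw [sge_push_lt hlt, pow_succ]
            ring
          rw [e1, e2, e3, Function.update_comm (Ne.symm hp), e4]
          ring
    have hs2 : (∑ p, gg k rk (hom k rk z) w c p) +
        ∑ p, gg k rk z (Function.update w p0 t) (Function.update c p0 (some a0)) p =
        k.coef (z w) c := by
      rw [← Finset.sum_add_distrib, Finset.sum_congr rfl (fun p _ => hsum p)]
      simp
    rw [hd2, add_zero] at hs2
    exact hs2
  · -- the first stack has a choice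
    rw [Finset.sum_eq_single p0]
    · have hmin : IsMin rk (push p0 a0 w) (Function.update c p0 none) p0 := by
        refine ⟨Or.inl (by rw [push_same]; simp), ?_⟩
        intro q hq
        have hqp : q ≠ p0 := by rintro rfl; omega
        rw [push_ne hqp, Function.update_of_ne hqp]
        exact hp0.2 q hq
      unfold gg
      rw [hc0]
      simp only
      rw [coef_hom, hc_none k rk hrk z hmin (by simp) (push_same _ _ _)]
      have e1 : Function.update (push p0 a0 w) p0 (w p0) = w := by
        unfold push
        rw [Function.update_idem]
        exact Function.update_eq_self p0 w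
      have e2 : Function.update (Function.update c p0 none) p0 (some a0) = c := by
        rw [Function.update_idem, ← hc0]
        exact Function.update_eq_self p0 c
      have e4 : sg K rk p0 w = 1 := by
        unfold sg sge
        rw [Finset.sum_eq_zero, pow_zero]
        intro q hq
        rw [Finset.mem_filter] at hq
        rw [(hp0.2 q hq.2).1]
        rfl
      rw [e1, e2, e4, one_mul]
    · intro p _ hp
      unfold gg
      rcases hcp : c p with _ | a
      · rfl
      · have hlt := hlow p a hcp hp
        have hmin : IsMin rk (push p a w) (Function.update c p none) p0 := by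
          refine ⟨Or.inr ?_, ?_⟩
          · rw [Function.update_of_ne (Ne.symm hp), hc0]; simp
          · intro q hq
            have hqp : q ≠ p := by rintro rfl; omega
            rw [push_ne hqp, Function.update_of_ne hqp]
            exact hp0.2 q hq
        simp only
        rw [coef_hom, hc_some k rk hrk z hmin
          (by rw [Function.update_of_ne (Ne.symm hp), hc0]; simp), mul_zero]
    · intro h; exact absurd (Finset.mem_univ _) h

end Pool.Agent.Helper522.Kos
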