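import Mathlib
import Pool.Agent.Helper522.Kos.Cx

/-!
Linear resolutions from the lifting property, and conversely.
-/

set_option autoImplicit false

namespace Pool.Agent.Helper522.Kos

variable {K P A R : Type} [Field K] [DecidableEq P] [DecidableEq A] [CommRing R] [Algebra K R]
  [Fintype P] [Fintype A] (k : KR K P A R) (rk : P → ℕ)

/-- Homogeneous vectors. -/
def HF {ι : Type} (e : ℕ) (v : ι → R) : Prop := ∀ i, v i ∈ k.H e

/-- Components of vectors. -/
noncomputable def cF {ι : Type} (e : ℕ) (v : ι → R) : ι → R := fun i => k.comp e (v i)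

theorem cF_mem {ι : Type} (e : ℕ) (v : ι → R) : HF k e (cF k e v) := fun _ => k.comp_mem _ _

theorem cF_of {ι : Type} {e : ℕ} {v : ι → R} (h : HF k e v) : cF k e v = v :=
  funext fun i => k.comp_of_mem (h i)

theorem sum_cF {ι : Type} (v : ι → R) :
    ∑ e ∈ Finset.range (Fintype.card P + 1), cF k e v = v := by
  funext i
  rw [Finset.sum_apply]
  exact k.sum_comp _

theorem HF_dl {ι : Type} {e : ℕ} {z : (P → List A) → ι → R} (h : ∀ w, HF k e (z w))
    (w : P → List A) : HF k (e + 1) (dl k rk z w) := by
  intro i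
  unfold dl
  rw [Finset.sum_apply]
  refine Submodule.sum_mem _ fun p _ => ?_
  rw [Finset.sum_apply]
  refine Submodule.sum_mem _ fun a _ => ?_
  rw [Pi.smul_apply, smul_eq_mul, smul_mul_assoc]
  exact Submodule.smul_mem _ _ (k.x_mul_mem (h _ i) p a)

theorem exact_free {ι : Type} (hrk : Function.Injective rk) {e : ℕ}
    {z : (P → List A) → ι → R} (hz : ∀ w, HF k (e + 1) (z w)) (hd : ∀ w, dl k rk z w = 0) :
    ∃ y : (P → List A) → ι → R, (∀ w, HF k e (y w)) ∧ ∀ w, dl k rk y w = z w := by
  have hcomp : ∀ (z : (P → List A) → ι → R) (w : P → List A) (i : ι),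
      dl k rk z w i = dl k rk (fun w => z w i) w := by
    intro z w i
    exact dl_map k rk (LinearMap.proj i : (ι → R) →ₗ[R] R) z w
  refine ⟨fun w i => hom k rk (fun w => z w i) w, fun w i => ?_, fun w => ?_⟩
  · exact hom_mem k rk hrk (fun w => hz w i) w
  · funext i
    rw [hcomp]
    exact exact_ring k rk hrk (fun w => hz w i)
      (fun w => by rw [← hcomp, hd]; rfl) w

/-- The lifting property. -/
def Lin {ι : Type} (Ω : Submodule R (ι → R)) : Prop :=
  ∀ (e : ℕ) (z : (P → List A) → ι → R), (∀ w, HF k (e + 1) (z w)) →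
    (∀ w, dl k rk z w ∈ Ω) →
    ∃ y : (P → List A) → ι → R, (∀ w, HF k e (y w)) ∧ ∀ w, z w - dl k rk y w ∈ Ω

/-- A homogeneous submodule without elements of degree zero and with the lifting property. -/
structure Good {ι : Type} (Ω : Submodule R (ι → R)) : Prop where
  homog : ∀ v ∈ Ω, ∀ e, cF k e v ∈ Ω
  zero : ∀ v ∈ Ω, HF k 0 v → v = 0
  lin : Lin k rk Ω

variable {k rk}

theorem Good.lift {ι : Type} {Ω : Submodule R (ι → R)} (h : Good k rk Ω)
    (hrk : Function.Injective rk) {e : ℕ} {z : (P → List A) → ι → R}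
    (hz : ∀ w, HF k (e + 2) (z w)) (hzΩ : ∀ w, z w ∈ Ω) (hd : ∀ w, dl k rk z w = 0) :
    ∃ y : (P → List A) → ι → R, (∀ w, HF k (e + 1) (y w)) ∧ (∀ w, y w ∈ Ω) ∧
      ∀ w, dl k rk y w = z w := by
  obtain ⟨y, hy, hy2⟩ := exact_free k rk hrk hz hd
  obtain ⟨u, hu, hu2⟩ := h.lin e y hy (fun w => by rw [hy2]; exact hzΩ w)
  refine ⟨fun w => y w - dl k rk u w, fun w => ?_, hu2, fun w => ?_⟩
  · intro i
    exact Submodule.sub_mem _ (hy w i) (HF_dl k rk hu w i)
  · rw [dl_sub, hy2, dl_dl k rk hrk, sub_zero]

/-- The submodule is generated by its elements of degree one. -/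
theorem Good.gen {ι : Type} {Ω : Submodule R (ι → R)} (h : Good k rk Ω)
    (hrk : Function.Injective rk) (e : ℕ) : ∀ v ∈ Ω, HF k (e + 1) v →
      v ∈ Submodule.span R {v | v ∈ Ω ∧ HF k 1 v} := by
  induction e with
  | zero => intro v hv h1; exact Submodule.subset_span ⟨hv, h1⟩
  | succ e ih =>
    intro v hv h1
    obtain ⟨y, hy1, hy2, hy3⟩ := h.lift hrk (e := e)
      (z := fun w => if w = (fun _ => []) then v else 0)
      (by
        intro w
        split_ifs
        · exact h1
        · intro i; exact Submodule.zero_mem _)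
      (by
        intro w
        split_ifs
        · exact hv
        · exact Submodule.zero_mem _)
      (by
        intro w
        unfold dl
        refine Finset.sum_eq_zero fun p _ => Finset.sum_eq_zero fun a _ => ?_
        change (sg K rk p w • k.x p a) • (if push p a w = (fun _ => []) then v else 0) = 0
        rw [if_neg, smul_zero]
        intro hc
        have := congrFun hc p
        simp at this)
    have h2 := hy3 (fun _ => [])
    simp only [if_true] at h2
    rw [← h2]
    unfold dl
    refine Submodule.sum_mem _ fun p _ => Submodule.sum_mem _ fun a _ => ?_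
    exact Submodule.smul_mem _ _ (ih _ (hy2 _) (hy1 _))

theorem Good.gen' {ι : Type} {Ω : Submodule R (ι → R)} (h : Good k rk Ω)
    (hrk : Function.Injective rk) {v : ι → R} (hv : v ∈ Ω) :
    v ∈ Submodule.span R {v | v ∈ Ω ∧ HF k 1 v} := by
  rw [← sum_cF k v]
  refine Submodule.sum_mem _ fun e _ => ?_
  rcases e with _ | e
  · rw [h.zero _ (h.homog v hv 0) (cF_mem k 0 v)]
    exact Submodule.zero_mem _
  · exact h.gen hrk e _ (h.homog v hv _) (cF_mem k _ v)

/-- The next stage. -/
theorem Good.next {ι : Type} [Fintype ι] {Ω : Submodule R (ι → R)} (h : Good k rk Ω)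
    (hrk : Function.Injective rk) : ∃ (m : ℕ) (u : Fin m → ι → R), (∀ j, HF k 1 (u j)) ∧
      LinearMap.range (Fintype.linearCombination R u) = Ω ∧
      Good k rk (LinearMap.ker (Fintype.linearCombination R u)) := by
  classical
  -- the K-subspace of elements of degree one
  let U : Submodule K (ι → R) :=
    { carrier := {v | v ∈ Ω ∧ HF k 1 v}
      zero_mem' := ⟨Ω.zero_mem, fun _ => Submodule.zero_mem _⟩
      add_mem' := fun ha hb => ⟨Ω.add_mem ha.1 hb.1, fun i => Submodule.add_mem _ (ha.2 i) (hb.2 i)⟩
      smul_mem' := by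
        intro r v hv
        refine ⟨?_, fun i => Submodule.smul_mem _ _ (hv.2 i)⟩
        have : r • v = (algebraMap K R r) • v := by
          funext i
          simp [Algebra.smul_def]
        rw [this]
        exact Ω.smul_mem _ hv.1 }
  have hR : Module.Finite K R := Module.Finite.equiv k.coef.symm
  have hfin : Module.Finite K (ι → R) := inferInstance
  have hU : Module.Finite K U := Module.Finite.of_injective U.subtype U.injective_subtype
  let b := Module.finBasis K U
  let u : Fin (Module.finrank K U) → ι → R := fun j => (b j : ι → R)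
  have hu1 : ∀ j, HF k 1 (u j) := fun j => (b j).2.2
  have huΩ : ∀ j, u j ∈ Ω := fun j => (b j).2.1
  have happ : ∀ v : Fin (Module.finrank K U) → R,
      Fintype.linearCombination R u v = ∑ j, v j • u j := fun v => rfl
  have hrange : LinearMap.range (Fintype.linearCombination R u) = Ω := by
    apply le_antisymm
    · rintro _ ⟨v, rfl⟩
      rw [happ]
      exact Submodule.sum_mem _ fun j _ => Submodule.smul_mem _ _ (huΩ j)
    · intro v hv
      have h1 := h.gen' hrk hv
      refine Submodule.span_le.2 ?_ h1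
      rintro w ⟨hw1, hw2⟩
      have h2 := b.sum_repr ⟨w, hw1, hw2⟩
      have h3 := congrArg (fun t : U => (t : ι → R)) h2
      simp only [Submodule.coe_sum, Submodule.coe_smul] at h3
      refine ⟨fun j => algebraMap K R (b.repr ⟨w, hw1, hw2⟩ j), ?_⟩
      rw [happ]
      refine Eq.trans (Finset.sum_congr rfl fun j _ => ?_) h3
      funext i
      simp [u, Algebra.smul_def]
  have hcomp : ∀ (v : Fin (Module.finrank K U) → R) (e : ℕ),
      cF k (e + 1) (Fintype.linearCombination R u v) =
        Fintype.linearCombination R u (cF k e v) := by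
    intro v e
    rw [happ, happ]
    funext i
    simp only [cF, Finset.sum_apply, Pi.smul_apply, smul_eq_mul, map_sum]
    refine Finset.sum_congr rfl fun j _ => ?_
    rw [mul_comm, k.comp_mul (hu1 j i), mul_comm]
  refine ⟨_, u, hu1, hrange, ?_, ?_, ?_⟩
  · intro v hv e
    rw [LinearMap.mem_ker] at hv ⊢
    rw [← hcomp, hv]
    funext i
    simp [cF]
  · intro v hv hv0
    rw [LinearMap.mem_ker, happ] at hv
    have h1 : ∑ j, k.coef (v j) (fun _ => none) • b j = 0 := by
      apply Subtype.ext
      rw [Submodule.coe_sum]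
      simp only [Submodule.coe_smul, Submodule.coe_zero]
      rw [← hv]
      refine Finset.sum_congr rfl fun j _ => ?_
      conv_rhs => rw [k.eq_of_mem_zero (hv0 j)]
      funext i
      simp [u]
    have h2 := (Fintype.linearIndependent_iff.1 b.linearIndependent) _ h1
    funext j
    rw [k.eq_of_mem_zero (hv0 j), h2 j, zero_smul]
    rfl
  · intro e z hz hd
    have h1 : ∀ w, dl k rk (fun w => Fintype.linearCombination R u (z w)) w = 0 := by
      intro w
      rw [← dl_map]
      exact hd w
    have h2 : ∀ w, HF k (e + 2) (Fintype.linearCombination R u (z w)) := by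
      intro w
      rw [← cF_of k (hz w), ← hcomp]
      exact cF_mem k _ _
    obtain ⟨y, hy1, hy2, hy3⟩ := h.lift hrk h2
      (fun w => by rw [← hrange]; exact ⟨z w, rfl⟩) h1
    have h3 : ∀ w, ∃ t : Fin (Module.finrank K U) → R,
        HF k e t ∧ Fintype.linearCombination R u t = y w := by
      intro w
      have h4 := hy2 w
      rw [← hrange] at h4
      obtain ⟨t, ht⟩ := h4
      refine ⟨cF k e t, cF_mem k e t, ?_⟩
      rw [← hcomp, ht, cF_of k (hy1 w)]
    choose t ht1 ht2 using h3
    refine ⟨t, ht1, fun w => ?_⟩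
    rw [LinearMap.mem_ker, map_sub, dl_map]
    simp only [ht2]
    rw [hy3, sub_self]

end Pool.Agent.Helper522.Kos
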