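import Mathlib
import Pool.Agent.Helper522.Kos.Stage
import Pool.Agent.Helper522.Kos.Defs

/-!
Minimal graded free resolutions.
-/

set_option autoImplicit false

namespace Pool.Agent.Helper522.Kos

variable {K P A R : Type} [Field K] [DecidableEq P] [DecidableEq A] [CommRing R] [Algebra K R]
  [Fintype P] [Fintype A] {k : KR K P A R} {rk : P → ℕ}

/-! ### Existence -/

/-- A stage of the construction. -/
structure Stg (k : KR K P A R) (rk : P → ℕ) where
  n : ℕ
  Ω : Submodule R (Fin n → R)
  good : Good k rk Ω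

/-- The next stage. -/
noncomputable def Stg.nxt (hrk : Function.Injective rk) (s : Stg k rk) : Stg k rk :=
  ⟨(s.good.next hrk).choose, _, (s.good.next hrk).choose_spec.choose_spec.2.2⟩

/-- The generators of the stage. -/
noncomputable def Stg.u (hrk : Function.Injective rk) (s : Stg k rk) :
    Fin (s.nxt hrk).n → Fin s.n → R := (s.good.next hrk).choose_spec.choose

theorem Stg.u_mem (hrk : Function.Injective rk) (s : Stg k rk) (j : Fin (s.nxt hrk).n) :
    HF k 1 (s.u hrk j) := (s.good.next hrk).choose_spec.choose_spec.1 j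

theorem Stg.range_u (hrk : Function.Injective rk) (s : Stg k rk) :
    LinearMap.range (Fintype.linearCombination R (s.u hrk)) = s.Ω :=
  (s.good.next hrk).choose_spec.choose_spec.2.1

theorem Stg.ker_u (hrk : Function.Injective rk) (s : Stg k rk) :
    LinearMap.ker (Fintype.linearCombination R (s.u hrk)) = (s.nxt hrk).Ω := rfl

/-- All stages. -/
noncomputable def Stg.seq (hrk : Function.Injective rk) (s : Stg k rk) : ℕ → Stg k rk
  | 0 => s
  | i + 1 => (s.seq hrk i).nxt hrk

theorem Stg.mulVec_u (hrk : Function.Injective rk) (s : Stg k rk)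
    (w : Fin (s.nxt hrk).n → R) :
    Matrix.mulVec (fun j l => s.u hrk l j) w = Fintype.linearCombination R (s.u hrk) w := by
  funext j
  simp [Matrix.mulVec, dotProduct, Fintype.linearCombination_apply, mul_comm]

theorem Stg.mem_iff (hrk : Function.Injective rk) (s : Stg k rk) (v : Fin s.n → R) :
    v ∈ s.Ω ↔ ∃ w, Matrix.mulVec (fun j l => s.u hrk l j) w = v := by
  rw [← s.range_u hrk, LinearMap.mem_range]
  simp only [s.mulVec_u hrk]

theorem Stg.ker_iff (hrk : Function.Injective rk) (s : Stg k rk)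
    (v : Fin (s.nxt hrk).n → R) : Matrix.mulVec (fun j l => s.u hrk l j) v = 0 ↔
      ∃ w, Matrix.mulVec (fun j l => (s.nxt hrk).u hrk l j) w = v := by
  rw [← (s.nxt hrk).mem_iff hrk, s.mulVec_u hrk, ← s.ker_u hrk, LinearMap.mem_ker]

theorem exists_minRes (hrk : Function.Injective rk) {b : ℕ} {Ω : Submodule R (Fin b → R)}
    (h : Good k rk Ω) {m : Ideal R} (hm : ∀ r ∈ k.H 1, r ∈ m) {N : Type} [AddCommGroup N]
    [Module R N] {gr : ℕ → Set N} (g : Fin b → N) (hg : ∀ j, g j ∈ gr 0)
    (hsurj : ∀ n : N, ∃ v : Fin b → R, ∑ j, v j • g j = n)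
    (hker : ∀ v : Fin b → R, ∑ j, v j • g j = 0 ↔ v ∈ Ω) :
    ∃ F : MinRes (fun e => (k.H e : Set R)) m N gr, (∀ i j, F.deg i j = i) ∧
      F.ι 0 = Fin b := by
  refine ⟨
    { ι := fun i => Fin (Stg.seq hrk ⟨b, Ω, h⟩ i).n
      fin := fun i => inferInstance
      deg := fun i _ => i
      gen := g
      mat := fun i j l => (Stg.seq hrk ⟨b, Ω, h⟩ i).u hrk l j
      gen_mem := hg
      mat_hom := ?_
      mat_min := ?_
      surj := hsurj
      exact_zero := ?_
      exact_succ := ?_ }, fun _ _ => rfl, rfl⟩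
  · intro i j l
    rw [if_pos (Nat.le_succ i), Nat.add_sub_cancel_left]
    exact (Stg.seq hrk ⟨b, Ω, h⟩ i).u_mem hrk l j
  · intro i j l
    exact hm _ ((Stg.seq hrk ⟨b, Ω, h⟩ i).u_mem hrk l j)
  · exact fun v => (hker v).trans (Stg.mem_iff hrk ⟨b, Ω, h⟩ v)
  · exact fun i v => Stg.ker_iff hrk (Stg.seq hrk ⟨b, Ω, h⟩ i) v

/-! ### The converse -/

section Converse

variable {m : Ideal R} {N : Type} [AddCommGroup N] [Module R N] {gr : ℕ → Set N}

theorem deg_eq (hm : ∀ r ∈ m, k.coef r (fun _ => none) = 0)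
    (F : MinRes (fun e => (k.H e : Set R)) m N gr) (hF : ∀ i j, F.deg i j ≤ i) :
    ∀ i j, F.deg i j = i := by
  classical
  intro i
  induction i with
  | zero => intro j; exact Nat.le_zero.1 (hF 0 j)
  | succ i ih =>
    intro l
    by_contra hne
    have hle : F.deg (i + 1) l ≤ i := by
      have := hF (i + 1) l
      omega
    have h0 : ∀ j, F.mat i j l = 0 := by
      intro j
      have h1 := F.mat_hom i j l
      rw [ih j] at h1
      split_ifs at h1 with h2
      · have h3 : F.deg (i + 1) l - i = 0 := by omega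
        rw [h3] at h1
        have h4 := k.eq_of_mem_zero h1
        rw [hm _ (F.mat_min i j l), zero_smul] at h4
        exact h4
      · exact h1
    have h1 : (F.mat i).mulVec (Pi.single l 1) = 0 := by
      funext j
      rw [Matrix.mulVec_single_one]
      exact h0 j
    rw [F.exact_succ] at h1
    obtain ⟨w, hw⟩ := h1
    have h2 := congrFun hw l
    rw [Pi.single_eq_same] at h2
    have h3 : (1 : R) ∈ m := by
      rw [← h2]
      unfold Matrix.mulVec dotProduct
      exact Ideal.sum_mem _ fun t _ => Ideal.mul_mem_right _ _ (F.mat_min (i + 1) l t)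
    have h4 := hm 1 h3
    rw [k.coef_one] at h4
    exact one_ne_zero h4

/-- Total length. -/
def len (w : P → List A) : ℕ := ∑ p, (w p).length

omit [DecidableEq A] [Fintype A] in
theorem len_push (p : P) (a : A) (w : P → List A) : len (push p a w) = len w + 1 := by
  unfold len
  rw [← Finset.add_sum_erase _ _ (Finset.mem_univ p),
    ← Finset.add_sum_erase Finset.univ (fun q => (w q).length) (Finset.mem_univ p),
    push_same, List.length_cons, Finset.sum_congr rfl (g := fun q => (w q).length)]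
  · omega
  · intro r hr
    rw [push_ne (Finset.ne_of_mem_erase hr)]

theorem dl_support {M : Type} [AddCommGroup M] [Module R M] {z : (P → List A) → M} {n : ℕ}
    (hz : ∀ w, len w ≠ n → z w = 0) {w : P → List A} (hw : len w + 1 ≠ n) :
    dl k rk z w = 0 := by
  unfold dl
  refine Finset.sum_eq_zero fun p _ => Finset.sum_eq_zero fun a _ => ?_
  rw [hz _ (by rwa [len_push]), smul_zero]

theorem cF_mulVec {ι κ : Type} [Fintype κ] {M : Matrix ι κ R} (hM : ∀ i j, M i j ∈ k.H 1)
    (v : κ → R) (e : ℕ) : cF k (e + 1) (M.mulVec v) = M.mulVec (cF k e v) := by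
  funext i
  simp only [cF, Matrix.mulVec, dotProduct, map_sum]
  exact Finset.sum_congr rfl fun j _ => k.comp_mul (hM i j) _ _

theorem HF_mulVec {ι κ : Type} [Fintype κ] {M : Matrix ι κ R} (hM : ∀ i j, M i j ∈ k.H 1)
    {v : κ → R} {e : ℕ} (hv : HF k e v) : HF k (e + 1) (M.mulVec v) := by
  rw [← cF_of k hv, ← cF_mulVec hM]
  exact cF_mem k _ _

theorem chase (hrk : Function.Injective rk)
    (F : MinRes (fun e => (k.H e : Set R)) m N gr) (hF : ∀ i j l, F.mat i j l ∈ k.H 1) (n : ℕ) :
    ∀ (i : ℕ) (z : (P → List A) → F.ι i → R), (∀ w, HF k 1 (z w)) →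
      (∀ w, len w ≠ n → z w = 0) → (∀ w, ∃ t, (F.mat i).mulVec t = dl k rk z w) →
      ∃ y : (P → List A) → F.ι i → R, (∀ w, HF k 0 (y w)) ∧
        ∀ w, ∃ t, (F.mat i).mulVec t = z w - dl k rk y w := by
  induction n with
  | zero =>
    intro i z hz hs _
    obtain ⟨y, hy1, hy2⟩ := exact_free k rk hrk hz (fun w => dl_support hs (by omega))
    refine ⟨y, hy1, fun w => ⟨0, ?_⟩⟩
    rw [hy2, sub_self, Matrix.mulVec_zero]
  | succ n ih =>
    intro i z hz hs hd
    choose t ht using hd
    let z' : (P → List A) → F.ι (i + 1) → R := fun w => if len w = n then cF k 1 (t w) else 0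
    have hz1 : ∀ w, HF k 1 (z' w) := by
      intro w
      simp only [z']
      split_ifs
      · exact cF_mem k _ _
      · intro j; exact Submodule.zero_mem _
    have hz2 : ∀ w, len w ≠ n → z' w = 0 := fun w hw => if_neg hw
    have hz3 : ∀ w, (F.mat i).mulVec (z' w) = dl k rk z w := by
      intro w
      simp only [z']
      split_ifs with h
      · rw [← cF_mulVec (hF i), ht, cF_of k (HF_dl k rk hz w)]
      · rw [Matrix.mulVec_zero, dl_support hs (by omega)]
    have hz4 : ∀ w, ∃ t, (F.mat (i + 1)).mulVec t = dl k rk z' w := by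
      intro w
      rw [← F.exact_succ]
      have h1 := dl_map k rk (F.mat i).mulVecLin z' w
      simp only [Matrix.mulVecLin_apply] at h1
      rw [h1]
      simp only [hz3]
      exact dl_dl k rk hrk z w
    obtain ⟨y', hy1, hy2⟩ := ih (i + 1) z' hz1 hz2 hz4
    have hy3 : ∀ w, (F.mat i).mulVec (z' w) = dl k rk (fun w => (F.mat i).mulVec (y' w)) w := by
      intro w
      have h1 := (F.exact_succ i _).2 (hy2 w)
      rw [Matrix.mulVec_sub, sub_eq_zero] at h1
      rw [h1]
      exact dl_map k rk (F.mat i).mulVecLin y' w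
    obtain ⟨y, hy4, hy5⟩ := exact_free k rk hrk (e := 0)
      (z := fun w => z w - (F.mat i).mulVec (y' w))
      (fun w j => Submodule.sub_mem _ (hz w j) (HF_mulVec (hF i) (hy1 w) j))
      (fun w => by rw [dl_sub, ← hy3, hz3, sub_self])
    refine ⟨y, hy4, fun w => ⟨y' w, ?_⟩⟩
    rw [hy5]
    abel

end Converse

/-- If the cokernel of `Ω` has a linear resolution, then degree one elements lift. -/
theorem lift_of_minRes (hrk : Function.Injective rk) {b : ℕ} {Ω : Submodule R (Fin b → R)}
    (hΩ : ∀ v ∈ Ω, ∀ e, cF k e v ∈ Ω) (h2 : ∀ v, HF k 2 v → v ∈ Ω) {m : Ideal R}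
    (hm : ∀ r ∈ m, k.coef r (fun _ => none) = 0)
    (F : MinRes (fun e => (k.H e : Set R)) m ((Fin b → R) ⧸ Ω)
      (fun e => {n | ∃ v : Fin b → R, HF k e v ∧ Submodule.Quotient.mk v = n}))
    (hF : ∀ i j, F.deg i j ≤ i) {n : ℕ} {z : (P → List A) → Fin b → R}
    (hz : ∀ w, HF k 1 (z w)) (hs : ∀ w, len w ≠ n → z w = 0) :
    ∃ y : (P → List A) → Fin b → R, (∀ w, HF k 0 (y w)) ∧ ∀ w, z w - dl k rk y w ∈ Ω := by
  have hdeg := deg_eq hm F hF
  have hmat : ∀ i j l, F.mat i j l ∈ k.H 1 := by
    intro i j l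
    have h1 := F.mat_hom i j l
    rw [hdeg, hdeg, if_pos (Nat.le_succ i), Nat.add_sub_cancel_left] at h1
    exact h1
  have hgen : ∀ j, ∃ c : Fin b → R, HF k 0 c ∧ Submodule.Quotient.mk c = F.gen j := by
    intro j
    have := F.gen_mem j
    rw [hdeg] at this
    exact this
  choose c hc1 hc2 using hgen
  have hC0 : ∀ v : F.ι 0 → R, (Submodule.Quotient.mk (Fintype.linearCombination R c v) :
      (Fin b → R) ⧸ Ω) = ∑ j, v j • F.gen j := by
    intro v
    rw [Fintype.linearCombination_apply, ← Submodule.mkQ_apply, map_sum]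
    refine Finset.sum_congr rfl fun j _ => ?_
    rw [map_smul, Submodule.mkQ_apply, hc2]
  have hC1 : ∀ (v : F.ι 0 → R) (e : ℕ), cF k e (Fintype.linearCombination R c v) =
      Fintype.linearCombination R c (cF k e v) := by
    intro v e
    funext i
    simp only [Fintype.linearCombination_apply, cF, Finset.sum_apply, Pi.smul_apply,
      smul_eq_mul, map_sum]
    refine Finset.sum_congr rfl fun j _ => ?_
    rw [k.eq_of_mem_zero (hc1 j i), mul_smul_comm, mul_one, map_smul, mul_smul_comm, mul_one]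
  have hC2 : ∀ v, (F.mat 0).mulVec v ∈
      LinearMap.ker (Ω.mkQ ∘ₗ Fintype.linearCombination R c) := by
    intro v
    rw [LinearMap.mem_ker, LinearMap.comp_apply, Submodule.mkQ_apply, hC0]
    exact (F.exact_zero _).2 ⟨v, rfl⟩
  have hv : ∀ w, ∃ v : F.ι 0 → R, z w - Fintype.linearCombination R c v ∈ Ω := by
    intro w
    obtain ⟨v, hv⟩ := F.surj (Submodule.Quotient.mk (z w))
    refine ⟨v, ?_⟩
    rw [← Submodule.Quotient.eq, hC0, hv]
  choose v hv using hv
  let z0 : (P → List A) → F.ι 0 → R := fun w => if len w = n then cF k 1 (v w) else 0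
  have hz1 : ∀ w, HF k 1 (z0 w) := by
    intro w
    simp only [z0]
    split_ifs
    · exact cF_mem k _ _
    · intro j; exact Submodule.zero_mem _
  have hz2 : ∀ w, len w ≠ n → z0 w = 0 := fun w hw => if_neg hw
  have hz3 : ∀ w, z w - Fintype.linearCombination R c (z0 w) ∈ Ω := by
    intro w
    simp only [z0]
    split_ifs with h
    · have h1 := hΩ _ (hv w) 1
      have h3 : cF k 1 (z w - Fintype.linearCombination R c (v w)) =
          z w - Fintype.linearCombination R c (cF k 1 (v w)) := by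
        rw [← hC1]
        funext i
        have h4 := congrFun (cF_of k (hz w)) i
        simp only [cF, Pi.sub_apply, map_sub] at h4 ⊢
        rw [h4]
      rwa [h3] at h1
    · rw [hs w h, map_zero, sub_zero]
      exact Ω.zero_mem
  have hz4 : ∀ w, ∃ t, (F.mat 0).mulVec t = dl k rk z0 w := by
    intro w
    rw [← F.exact_zero, ← hC0, Submodule.Quotient.mk_eq_zero]
    apply h2
    have h3 := HF_dl k rk hz1 w
    rw [← cF_of k h3, ← hC1]
    exact cF_mem k _ _
  obtain ⟨y, hy1, hy2⟩ := chase hrk F hmat n 0 z0 hz1 hz2 hz4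
  refine ⟨fun w => Fintype.linearCombination R c (y w), fun w => ?_, fun w => ?_⟩
  · change HF k 0 (Fintype.linearCombination R c (y w))
    rw [← cF_of k (hy1 w), ← hC1]
    exact cF_mem k _ _
  · obtain ⟨t, ht⟩ := hy2 w
    have h3 := hC2 t
    rw [ht, LinearMap.mem_ker, LinearMap.comp_apply, Submodule.mkQ_apply,
      Submodule.Quotient.mk_eq_zero, map_sub, dl_map] at h3
    have h4 := Ω.add_mem (hz3 w) h3
    rwa [sub_add_sub_cancel] at h4

end Pool.Agent.Helper522.Kos
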