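import Mathlib
import Pool.Agent.Helper522.Kos.Res

/-!
The module attached to a machine.
-/

set_option autoImplicit false

namespace Pool.Agent.Helper522.Kos

variable {K P A R C J : Type} [Field K] [DecidableEq P] [DecidableEq A] [CommRing R]
  [Algebra K R] [Fintype P] [Fintype A] [Fintype C]

open KR

section

variable (k : KR K P A R) (c : C → Col P A J)

open Classical in
/-- The coordinate of the degree one part at a state. -/
noncomputable def lf (v : C → R) (j : J) : K :=
  ∑ κ, ∑ p, ∑ a, if tgt c κ p a = some j then k.coef (v κ) (sgl p a) else 0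

theorem lf_add (v w : C → R) (j : J) : lf k c (v + w) j = lf k c v j + lf k c w j := by
  unfold lf
  simp only [← Finset.sum_add_distrib]
  refine Finset.sum_congr rfl fun κ _ => Finset.sum_congr rfl fun p _ =>
    Finset.sum_congr rfl fun a _ => ?_
  split_ifs <;> simp

theorem lf_smul (r : K) (v : C → R) (j : J) :
    lf k c (fun κ => r • v κ) j = r * lf k c v j := by
  unfold lf
  simp only [Finset.mul_sum]
  refine Finset.sum_congr rfl fun κ _ => Finset.sum_congr rfl fun p _ =>
    Finset.sum_congr rfl fun a _ => ?_
  split_ifs <;> simp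

theorem lf_sub (v w : C → R) (j : J) : lf k c (v - w) j = lf k c v j - lf k c w j := by
  have h := lf_add k c v (fun κ => (-1 : K) • w κ) j
  rw [lf_smul] at h
  have e : v + (fun κ => (-1 : K) • w κ) = v - w := by
    funext κ; simp [sub_eq_add_neg]
  rw [e] at h
  rw [h]
  ring

theorem lf_zero (j : J) : lf k c (0 : C → R) j = 0 := by
  unfold lf
  refine Finset.sum_eq_zero fun κ _ => Finset.sum_eq_zero fun p _ =>
    Finset.sum_eq_zero fun a _ => ?_
  split_ifs <;> simp

theorem coef_x_mul_sgl {p q : P} {a b : A} {r : R} (h : k.coef r (fun _ => none) = 0) :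
    k.coef (k.x p a * r) (sgl q b) = 0 := by
  rw [k.coef_x]
  split_ifs with h1
  · have : Function.update (sgl q b) p none = fun _ => none := by
      by_cases hp : p = q
      · subst hp
        unfold sgl
        rw [Function.update_idem]
        exact Function.update_eq_self p _
      · simp [sgl, hp] at h1
    rw [this, h]
  · rfl

/-- The relations. -/
noncomputable def Om : Submodule R (C → R) where
  carrier := {v | (∀ κ, k.coef (v κ) (fun _ => none) = 0) ∧ ∀ j, lf k c v j = 0}
  zero_mem' := ⟨by simp, lf_zero k c⟩
  add_mem' := by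
    intro v w hv hw
    refine ⟨fun κ => ?_, fun j => ?_⟩
    · rw [Pi.add_apply, map_add, Pi.add_apply, hv.1, hw.1, add_zero]
    · rw [lf_add, hv.2, hw.2, add_zero]
  smul_mem' := by
    intro r v hv
    refine Algebra.adjoin_induction (p := fun r _ => ∀ v : C → R,
      ((∀ κ, k.coef (v κ) (fun _ => none) = 0) ∧ ∀ j, lf k c v j = 0) →
      ((∀ κ, k.coef ((r • v) κ) (fun _ => none) = 0) ∧ ∀ j, lf k c (r • v) j = 0))
      ?_ ?_ ?_ ?_ (k.adj r) v hv
    · rintro _ ⟨⟨p, a⟩, rfl⟩ v hv
      refine ⟨fun κ => ?_, fun j => ?_⟩
      · simp [k.coef_x]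
      · unfold lf
        refine Finset.sum_eq_zero fun κ _ => Finset.sum_eq_zero fun q _ =>
          Finset.sum_eq_zero fun b _ => ?_
        split_ifs
        · exact coef_x_mul_sgl k (hv.1 κ)
        · rfl
    · intro r v hv
      have e : (algebraMap K R r) • v = fun κ => r • v κ := by
        funext κ; simp [Algebra.smul_def]
      rw [e]
      refine ⟨fun κ => ?_, fun j => ?_⟩
      · simp [hv.1]
      · rw [lf_smul, hv.2, mul_zero]
    · intro r s _ _ hr hs v hv
      rw [add_smul]
      refine ⟨fun κ => ?_, fun j => ?_⟩
      · rw [Pi.add_apply, map_add, Pi.add_apply, (hr v hv).1, (hs v hv).1, add_zero]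
      · rw [lf_add, (hr v hv).2, (hs v hv).2, add_zero]
    · intro r s _ _ hr hs v hv
      rw [mul_smul]
      exact hr _ (hs v hv)

variable {k c}

theorem mem_Om {v : C → R} : v ∈ Om k c ↔
    (∀ κ, k.coef (v κ) (fun _ => none) = 0) ∧ ∀ j, lf k c v j = 0 := Iff.rfl

theorem coef_none_of_HF {v : C → R} {e : ℕ} (h : HF k (e + 1) v) (κ : C) :
    k.coef (v κ) (fun _ => none) = 0 := by
  by_contra h1
  have := h κ _ h1
  rw [dg_none] at this
  omega

theorem mem_Om_of_HF {v : C → R} {e : ℕ} (h : HF k (e + 2) v) : v ∈ Om k c := by
  refine ⟨coef_none_of_HF h, fun j => ?_⟩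
  unfold lf
  refine Finset.sum_eq_zero fun κ _ => Finset.sum_eq_zero fun q _ =>
    Finset.sum_eq_zero fun b _ => ?_
  split_ifs
  · by_contra h1
    have := h κ _ h1
    rw [dg_sgl] at this
    omega
  · rfl

theorem Om_homog {v : C → R} (hv : v ∈ Om k c) (e : ℕ) : cF k e v ∈ Om k c := by
  refine ⟨fun κ => ?_, fun j => ?_⟩
  · simp only [cF]
    rw [k.coef_comp, hv.1]
    simp
  · by_cases he : e = 1
    · subst he
      have : lf k c (cF k 1 v) j = lf k c v j := by
        unfold lf
        refine Finset.sum_congr rfl fun κ _ => Finset.sum_congr rfl fun q _ =>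
          Finset.sum_congr rfl fun b _ => ?_
        simp only [cF, k.coef_comp, dg_sgl, if_true]
      rw [this, hv.2]
    · unfold lf
      refine Finset.sum_eq_zero fun κ _ => Finset.sum_eq_zero fun q _ =>
        Finset.sum_eq_zero fun b _ => ?_
      simp only [cF, k.coef_comp, dg_sgl]
      simp [Ne.symm he]

theorem coef_dl_sgl (rk : P → ℕ) (Y : (P → List A) × C → K) (w : P → List A) (κ : C)
    (p : P) (a : A) : k.coef (dl k rk (fun w κ => Y (w, κ) • (1 : R)) w κ) (sgl p a) =
      sg K rk p w * Y (push p a w, κ) := by
  have h1 := dl_map k rk (LinearMap.proj κ : (C → R) →ₗ[R] R)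
    (fun w κ => Y (w, κ) • (1 : R)) w
  simp only [LinearMap.proj_apply] at h1
  rw [h1, coef_dl, Finset.sum_eq_single p]
  · have h2 : sgl p a p = some a := by simp [sgl]
    have h3 : Function.update (sgl p a) p none = fun _ => none := by
      unfold sgl
      rw [Function.update_idem]
      exact Function.update_eq_self p _
    unfold gg
    rw [h2]
    simp only
    rw [h3, map_smul, Pi.smul_apply, k.coef_one, smul_eq_mul, mul_one]
  · intro q _ hq
    have : sgl p a q = none := by simp [sgl, hq]
    unfold gg
    rw [this]
  · intro h; exact absurd (Finset.mem_univ _) h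

open Classical in
theorem lf_dl (rk : P → ℕ) (Y : (P → List A) × C → K) (w : P → List A) (j : J) :
    lf k c (dl k rk (fun w κ => Y (w, κ) • (1 : R)) w) j =
      ∑ κ, ∑ p, ∑ a, if tgt c κ p a = some j then
        (sg K rk p w * Y (push p a w, κ)) else 0 := by
  unfold lf
  refine Finset.sum_congr rfl fun κ _ => Finset.sum_congr rfl fun q _ =>
    Finset.sum_congr rfl fun b _ => ?_
  split_ifs
  · exact coef_dl_sgl rk Y w κ q b
  · rfl

theorem HF_smul_one (Y : (P → List A) × C → K) (w : P → List A) :
    HF k 0 (fun κ => Y (w, κ) • (1 : R)) :=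
  fun _ => Submodule.smul_mem _ _ k.one_mem

/-- If the word map is surjective, the relations have the lifting property. -/
theorem Om_good (rk : P → ℕ) (h : Surj (sg K rk) c) : Good k rk (Om k c) where
  homog := fun _ hv e => Om_homog hv e
  zero := by
    intro v hv h0
    funext κ
    rw [k.eq_of_mem_zero (h0 κ), hv.1, zero_smul]
    rfl
  lin := by
    intro e z hz _
    rcases e with _ | e
    · obtain ⟨Y, hY⟩ := h (fun x => lf k c (z x.1) x.2)
      refine ⟨fun w κ => Y (w, κ) • (1 : R), fun w => HF_smul_one Y w, fun w => ?_⟩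
      have h1 : HF k 1 (dl k rk (fun w κ => Y (w, κ) • (1 : R)) w) :=
        HF_dl k rk (fun w => HF_smul_one Y w) w
      refine ⟨fun κ => ?_, fun j => ?_⟩
      · rw [Pi.sub_apply, map_sub, Pi.sub_apply, coef_none_of_HF (hz w),
          coef_none_of_HF h1, sub_zero]
      · rw [lf_sub, lf_dl, sub_eq_zero]
        refine (hY (w, j)).symm.trans ?_
        refine Finset.sum_congr rfl fun κ _ => Finset.sum_congr rfl fun q _ =>
          Finset.sum_congr rfl fun b _ => ?_
        split_ifs <;> rfl
    · refine ⟨fun _ => 0, fun _ _ => Submodule.zero_mem _, fun w => ?_⟩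
      have h1 : dl k rk (fun _ => (0 : C → R)) w = 0 := by simp [dl]
      rw [h1, sub_zero]
      exact mem_Om_of_HF (hz w)

open Classical in
theorem lf_single [hC : DecidableEq C] {κ : C} {p : P} {a : A} (j : J) :
    lf k c (@Pi.single C (fun _ => R) _ hC κ (k.x p a)) j =
      if tgt c κ p a = some j then 1 else 0 := by
  unfold lf
  rw [Finset.sum_eq_single κ, Finset.sum_eq_single p, Finset.sum_eq_single a]
  · rw [Pi.single_eq_same, k.coef_x_self, if_pos rfl]
  · intro b _ hb
    have : ¬ sgl p b = sgl p a := by
      intro h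
      have := congrFun h p
      simp only [sgl, Function.update_self, Option.some.injEq] at this
      exact hb this
    rw [Pi.single_eq_same, k.coef_x_self, if_neg this]
    split_ifs <;> rfl
  · intro h; exact absurd (Finset.mem_univ _) h
  · intro q _ hq
    refine Finset.sum_eq_zero fun b _ => ?_
    have : ¬ sgl q b = sgl p a := by
      intro h
      have := congrFun h p
      simp [sgl, hq.symm] at this
    rw [Pi.single_eq_same, k.coef_x_self, if_neg this]
    split_ifs <;> rfl
  · intro h; exact absurd (Finset.mem_univ _) h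
  · intro κ' _ hκ
    refine Finset.sum_eq_zero fun q _ => Finset.sum_eq_zero fun b _ => ?_
    rw [Pi.single_eq_of_ne hκ]
    simp
  · intro h; exact absurd (Finset.mem_univ _) h

theorem HF_single [DecidableEq C] (κ : C) (p : P) (a : A) :
    HF k 1 (Pi.single κ (k.x p a) : C → R) := by
  intro κ'
  by_cases h : κ' = κ
  · subst h; rw [Pi.single_eq_same]; exact k.x_mem p a
  · rw [Pi.single_eq_of_ne h]; exact Submodule.zero_mem _

/-- If degree one elements lift, the transposed map is injective. -/
theorem inj_of_lift (rk : P → ℕ) (hocc : ∀ j, ∃ κ p a, tgt c κ p a = some j)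
    (h : ∀ (n : ℕ) (z : (P → List A) → C → R), (∀ w, HF k 1 (z w)) →
      (∀ w, len w ≠ n → z w = 0) → ∃ y : (P → List A) → C → R, (∀ w, HF k 0 (y w)) ∧
        ∀ w, z w - dl k rk y w ∈ Om k c) (f : ((P → List A) × J) →₀ K)
    (hf : tr (sg K rk) c f = 0) : f = 0 := by
  classical
  refine inj_of_ind (sg K rk) c ?_ f hf
  rintro ⟨w0, j0⟩
  obtain ⟨κ, p, a, ht⟩ := hocc j0
  obtain ⟨y, hy1, hy2⟩ := h (len w0) (fun w => if w = w0 then Pi.single κ (k.x p a) else 0)
    (by
      intro w
      split_ifs
      · exact HF_single κ p a
      · intro _; exact Submodule.zero_mem _)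
    (by
      intro w hw
      rw [if_neg]
      rintro rfl
      exact hw rfl)
  obtain ⟨Y, hY⟩ : ∃ Y : (P → List A) × C → K,
      Y = fun i => k.coef (y i.1 i.2) (fun _ => none) := ⟨_, rfl⟩
  refine ⟨Y, ?_⟩
  rintro ⟨w, j⟩
  have e1 : y = fun w κ => Y (w, κ) • (1 : R) := by
    funext w κ
    rw [hY]
    exact k.eq_of_mem_zero (hy1 w κ)
  have h1 := (hy2 w).2 j
  rw [lf_sub, sub_eq_zero, e1, lf_dl] at h1
  have h2 : lf k c (if w = w0 then Pi.single κ (k.x p a) else 0) j =
      if (w, j) = (w0, j0) then 1 else 0 := by
    by_cases hw : w = w0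
    · rw [if_pos hw, lf_single, ht]
      by_cases hj : j0 = j
      · subst hj; simp [hw]
      · rw [if_neg (by simpa using hj), if_neg]
        intro h
        simp only [Prod.mk.injEq] at h
        exact hj h.2.symm
    · rw [if_neg hw, lf_zero, if_neg]
      intro h
      simp only [Prod.mk.injEq] at h
      exact hw h.1
  rw [h2] at h1
  rw [h1]

end

/-! ### Generators of the relations -/

section Span

variable (k : KR K P A R) (c : C → Col P A J)

theorem mem_span_x {rk : P → ℕ} (hrk : Function.Injective rk) {e : ℕ} {r : R}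
    (h : r ∈ k.H (e + 1)) : ∃ y : P → A → R, (∀ p a, y p a ∈ k.H e) ∧
      r = ∑ p, ∑ a, k.x p a * y p a := by
  classical
  have hz : ∀ w : P → List A, (fun w => if w = (fun _ => []) then r else 0) w ∈ k.H (e + 1) := by
    intro w
    simp only
    split_ifs
    · exact h
    · exact Submodule.zero_mem _
  have hd : ∀ w : P → List A,
      dl k rk (fun w => if w = (fun _ => []) then r else 0) w = 0 := by
    intro w
    unfold dl
    refine Finset.sum_eq_zero fun p _ => Finset.sum_eq_zero fun a _ => ?_
    change (sg K rk p w • k.x p a) • (if push p a w = (fun _ => []) then r else 0) = 0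
    rw [if_neg, smul_zero]
    intro hc
    have := congrFun hc p
    simp at this
  have h1 := exact_ring k rk hrk hz hd (fun _ => [])
  simp only [if_true] at h1
  refine ⟨fun p a => sg K rk p (fun _ => ([] : List A)) •
    hom k rk (fun w => if w = (fun _ => []) then r else 0) (push p a fun _ => []),
    fun p a => Submodule.smul_mem _ _ (hom_mem k rk hrk hz _), ?_⟩
  refine h1.symm.trans ?_
  unfold dl
  refine Finset.sum_congr rfl fun p _ => Finset.sum_congr rfl fun a _ => ?_
  rw [smul_eq_mul, smul_mul_assoc, mul_smul_comm]

/-- The relations spanning `Om`. -/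
def Rel [DecidableEq C] : Set (C → R) :=
  {v | (∃ κ p a, tgt c κ p a = none ∧ v = Pi.single κ (k.x p a)) ∨
    (∃ κ p a κ' p' a' j, tgt c κ p a = some j ∧ tgt c κ' p' a' = some j ∧
      v = Pi.single κ (k.x p a) - Pi.single κ' (k.x p' a')) ∨
    (∃ κ p a q b, v = Pi.single κ (k.x p a * k.x q b))}

theorem Om_eq_span [DecidableEq C] {rk : P → ℕ} (hrk : Function.Injective rk) :
    Om k c = Submodule.span R (Rel k c) := by
  classical
  apply le_antisymm
  · intro v hv
    rw [← sum_cF k v]
    refine Submodule.sum_mem _ fun e _ => ?_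
    rcases e with _ | _ | e
    · have h1 : cF k 0 v = 0 := by
        funext κ
        rw [k.eq_of_mem_zero (cF_mem k 0 v κ), (Om_homog hv 0).1, zero_smul]
        rfl
      rw [h1]
      exact Submodule.zero_mem _
    · -- degree one
      rw [zero_add]
      have hu := Om_homog hv 1
      have hu1 := cF_mem k 1 v
      generalize cF k 1 v = u at hu hu1
      -- the classes of the monomials
      let E : C × P × A → (C → R) := fun t => Pi.single t.1 (k.x t.2.1 t.2.2)
      let T : C × P × A → Option J := fun t => tgt c t.1 t.2.1 t.2.2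
      have hE : u = ∑ t : C × P × A, k.coef (u t.1) (sgl t.2.1 t.2.2) • E t := by
        rw [Fintype.sum_prod_type]
        simp only [Fintype.sum_prod_type]
        funext κ
        rw [Finset.sum_apply, Finset.sum_eq_single κ]
        · conv_lhs => rw [k.eq_of_mem_one (hu1 κ)]
          rw [Finset.sum_apply]
          refine Finset.sum_congr rfl fun p _ => ?_
          rw [Finset.sum_apply]
          refine Finset.sum_congr rfl fun a _ => ?_
          simp [E]
        · intro κ' _ hκ
          rw [Finset.sum_apply]
          refine Finset.sum_eq_zero fun p _ => ?_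
          rw [Finset.sum_apply]
          refine Finset.sum_eq_zero fun a _ => ?_
          simp [E, Pi.single_eq_of_ne (Ne.symm hκ)]
        · intro h; exact absurd (Finset.mem_univ _) h
      let rep : Option J → C × P × A → (C → R) := fun o t => match o with
        | none => 0
        | some j => if h : ∃ t', T t' = some j then E h.choose else 0
      have hrep : ∀ t, E t - rep (T t) t ∈ Submodule.span R (Rel k c) := by
        intro t
        apply Submodule.subset_span
        rcases hT : T t with _ | j
        · left
          exact ⟨t.1, t.2.1, t.2.2, hT, by simp [rep, E]⟩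
        · right; left
          have hex : ∃ t', T t' = some j := ⟨t, hT⟩
          exact ⟨t.1, t.2.1, t.2.2, _, _, _, j, hT, hex.choose_spec, by
            simp only [rep, dif_pos hex]; rfl⟩
      have hsum : ∑ t : C × P × A, k.coef (u t.1) (sgl t.2.1 t.2.2) • rep (T t) t = 0 := by
        have h1 : ∀ t, rep (T t) t = (fun o : Option J => match o with
          | none => (0 : C → R)
          | some j => if h : ∃ t', T t' = some j then E h.choose else 0) (T t) := fun t => rfl
        rw [← Finset.sum_fiberwise_of_maps_to (t := Finset.univ.image T)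
          (fun t _ => Finset.mem_image_of_mem T (Finset.mem_univ t))]
        refine Finset.sum_eq_zero fun o _ => ?_
        rw [Finset.sum_congr rfl (g := fun t => k.coef (u t.1) (sgl t.2.1 t.2.2) •
          (fun o : Option J => match o with
          | none => (0 : C → R)
          | some j => if h : ∃ t', T t' = some j then E h.choose else 0) o)]
        · rw [← Finset.sum_smul]
          rcases o with _ | j
          · simp
          · have h2 := hu.2 j
            have h3 : ∑ t : C × P × A with T t = some j, k.coef (u t.1) (sgl t.2.1 t.2.2) =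
                lf k c u j := by
              rw [Finset.sum_filter, Fintype.sum_prod_type]
              simp only [Fintype.sum_prod_type]
              unfold lf
              refine Finset.sum_congr rfl fun κ _ => Finset.sum_congr rfl fun q _ =>
                Finset.sum_congr rfl fun b _ => ?_
              simp only [T]
            rw [h3, h2, zero_smul]
        · intro t ht
          rw [Finset.mem_filter] at ht
          rw [h1, ht.2]
      rw [hE, ← sub_zero (∑ t : C × P × A, k.coef (u t.1) (sgl t.2.1 t.2.2) • E t), ← hsum,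
        ← Finset.sum_sub_distrib]
      refine Submodule.sum_mem _ fun t _ => ?_
      rw [← smul_sub]
      have : k.coef (u t.1) (sgl t.2.1 t.2.2) • (E t - rep (T t) t) =
          (algebraMap K R (k.coef (u t.1) (sgl t.2.1 t.2.2))) • (E t - rep (T t) t) := by
        funext κ; simp [Algebra.smul_def]
      rw [this]
      exact Submodule.smul_mem _ _ (hrep t)
    · -- higher degrees
      have hu1 := cF_mem k (e + 1 + 1) v
      generalize cF k (e + 1 + 1) v = u at hu1
      have hsum : u = ∑ κ, Pi.single κ (u κ) := by
        funext κ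
        simp [Finset.sum_apply]
      rw [hsum]
      refine Submodule.sum_mem _ fun κ _ => ?_
      obtain ⟨y, hy1, hy2⟩ := mem_span_x k hrk (hu1 κ)
      have hterm : (Pi.single κ (u κ) : C → R) =
          ∑ p, ∑ a, Pi.single κ (k.x p a * y p a) := by
        rw [hy2]
        funext κ'
        by_cases h : κ' = κ
        · subst h; simp
        · simp [Pi.single_eq_of_ne h]
      rw [hterm]
      refine Submodule.sum_mem _ fun p _ => Submodule.sum_mem _ fun a _ => ?_
      obtain ⟨y', -, hy3⟩ := mem_span_x k hrk (hy1 p a)
      have hterm2 : (Pi.single κ (k.x p a * y p a) : C → R) =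
          ∑ q, ∑ b, y' q b • Pi.single κ (k.x p a * k.x q b) := by
        rw [hy3]
        funext κ'
        by_cases h : κ' = κ
        · subst h
          simp only [Pi.single_eq_same, Finset.sum_apply, Pi.smul_apply, smul_eq_mul,
            Finset.mul_sum]
          refine Finset.sum_congr rfl fun q _ => Finset.sum_congr rfl fun b _ => ?_
          ring
        · simp [Pi.single_eq_of_ne h]
      rw [hterm2]
      refine Submodule.sum_mem _ fun q _ => Submodule.sum_mem _ fun b _ => ?_
      exact Submodule.smul_mem _ _ (Submodule.subset_span (Or.inr (Or.inr ⟨κ, p, a, q, b, rfl⟩)))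
  · rw [Submodule.span_le]
    rintro v (⟨κ, p, a, h1, rfl⟩ | ⟨κ, p, a, κ', p', a', j, h1, h2, rfl⟩ |
      ⟨κ, p, a, q, b, rfl⟩)
    · refine ⟨coef_none_of_HF (HF_single κ p a), fun j => ?_⟩
      rw [lf_single, h1, if_neg (by simp)]
    · refine ⟨fun κ'' => ?_, fun j' => ?_⟩
      · rw [Pi.sub_apply, map_sub, Pi.sub_apply, coef_none_of_HF (HF_single κ p a),
          coef_none_of_HF (HF_single κ' p' a'), sub_zero]
      · rw [lf_sub, lf_single, lf_single, h1, h2, sub_self]
    · refine mem_Om_of_HF (e := 0) ?_
      intro κ'
      by_cases h : κ' = κ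
      · subst h; rw [Pi.single_eq_same]; exact k.x_mul_mem (k.x_mem q b) p a
      · rw [Pi.single_eq_of_ne h]; exact Submodule.zero_mem _

end Span

end Pool.Agent.Helper522.Kos
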