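import Mathlib
import Pool.Agent.Helper522.Kos.Ring

/-!
The quotient of the polynomial ring by the products of two variables of the same stack.
-/

set_option autoImplicit false

namespace Pool.Agent.Helper522.Kos

open MvPolynomial

variable {K P A σ : Type} [Field K] [DecidableEq P] [DecidableEq A] [Fintype P] [Fintype A]
  [Fintype σ] [DecidableEq σ] (e : P × A ≃ σ)

/-- The ideal of the products of two variables of the same stack. -/
noncomputable def mono (K : Type) [Field K] : Ideal (MvPolynomial σ K) :=
  Ideal.span (Set.range fun t : P × A × A => X (e (t.1, t.2.1)) * X (e (t.1, t.2.2)))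

/-- The exponent of a partial choice. -/
noncomputable def expo (c : P → Option A) : σ →₀ ℕ :=
  Finsupp.equivFunOnFinite.symm fun i => if c (e.symm i).1 = some (e.symm i).2 then 1 else 0

omit [DecidableEq P] [Fintype P] [Fintype A] [DecidableEq σ] in
theorem expo_apply (c : P → Option A) (p : P) (a : A) :
    expo e c (e (p, a)) = if c p = some a then 1 else 0 := by
  simp [expo]

omit [DecidableEq P] [Fintype P] [Fintype A] [DecidableEq σ] in
theorem expo_inj {c c' : P → Option A} (h : expo e c = expo e c') : c = c' := by
  funext p
  have key : ∀ a, c p = some a ↔ c' p = some a := by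
    intro a
    have := congrArg (fun m : σ →₀ ℕ => m (e (p, a))) h
    simp only [expo_apply] at this
    by_cases h1 : c p = some a
    · rw [if_pos h1] at this
      by_cases h2 : c' p = some a
      · simp [h1, h2]
      · rw [if_neg h2] at this; omega
    · rw [if_neg h1] at this
      by_cases h2 : c' p = some a
      · rw [if_pos h2] at this; omega
      · simp [h1, h2]
  rcases h1 : c p with _ | a
  · rcases h2 : c' p with _ | b
    · rfl
    · have := (key b).2 h2
      rw [h1] at this
      cases this
  · exact ((key a).1 h1).symm

omit [DecidableEq P] [Fintype P] [Fintype A] [DecidableEq σ] in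
theorem expo_none : expo e (fun _ => none) = 0 := by
  ext i
  simp [expo]

omit [Fintype P] [Fintype A] in
theorem expo_update {c : P → Option A} {p : P} {a : A} (h : c p = some a) :
    Finsupp.single (e (p, a)) 1 + expo e (Function.update c p none) = expo e c := by
  ext i
  obtain ⟨⟨q, b⟩, rfl⟩ := e.surjective i
  rw [Finsupp.add_apply, expo_apply, expo_apply, Finsupp.single_apply]
  by_cases hq : q = p
  · subst hq
    rw [Function.update_self, h]
    by_cases hb : a = b
    · subst hb; simp
    · simp [hb]
  · rw [Function.update_of_ne hq]
    have : e (p, a) ≠ e (q, b) := by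
      intro h'
      have := e.injective h'
      simp only [Prod.mk.injEq] at this
      exact hq this.1.symm
    rw [if_neg this, zero_add]

omit [DecidableEq P] [DecidableEq σ] in
theorem expo_degree (c : P → Option A) : (expo e c).degree = dg c := by
  have h1 : (expo e c).degree = ∑ i, expo e c i := by
    rw [Finsupp.degree_eq_sum]
  rw [h1, ← e.sum_comp, Fintype.sum_prod_type]
  unfold dg
  rw [Finset.card_filter]
  refine Finset.sum_congr rfl fun p _ => ?_
  simp only [expo_apply]
  rcases h : c p with _ | a
  · simp
  · simp

omit [DecidableEq P] [Fintype P] [Fintype A] in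
theorem coeff_mem' {f : MvPolynomial σ K} (hf : f ∈ mono e K) (c : P → Option A) :
    ∀ r, coeff (expo e c) (r * f) = 0 := by
  unfold mono at hf
  induction hf using Submodule.span_induction with
  | mem f hf =>
    intro r
    obtain ⟨⟨p, a, b⟩, rfl⟩ := hf
    simp only
    rw [← mul_assoc, coeff_mul_X', coeff_mul_X']
    split_ifs with h1 h2
    · exfalso
      rw [Finsupp.mem_support_iff] at h1 h2
      rw [expo_apply] at h1
      have h1' : c p = some b := by
        by_contra hc
        rw [if_neg hc] at h1
        exact h1 rfl
      rw [Finsupp.tsub_apply, expo_apply, h1'] at h2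
      by_cases hab : b = a
      · subst hab; simp at h2
      · simp [hab] at h2
    · rfl
    · rfl
  | zero => intro r; simp
  | add f g _ _ hf hg => intro r; rw [mul_add, coeff_add, hf, hg, add_zero]
  | smul s f _ hf =>
    intro r
    rw [smul_eq_mul, ← mul_assoc]
    exact hf _

omit [DecidableEq P] [Fintype P] [Fintype A] in
theorem coeff_mem {f : MvPolynomial σ K} (hf : f ∈ mono e K) (c : P → Option A) :
    coeff (expo e c) f = 0 := by
  have := coeff_mem' e hf c 1
  rwa [one_mul] at this

omit [DecidableEq P] [Fintype P] [Fintype A] in
/-- Every monomial that does not come from a partial choice lies in the ideal. -/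
theorem monomial_mem (m : σ →₀ ℕ) (hm : ∀ c : P → Option A, m ≠ expo e c) (r : K) :
    monomial m r ∈ mono e K := by
  classical
  have key : ∃ p a b, Finsupp.single (e (p, a)) 1 + Finsupp.single (e (p, b)) 1 ≤ m := by
    by_contra hc
    push Not at hc
    have h2 : ∀ p a, m (e (p, a)) ≤ 1 := by
      intro p a
      by_contra h
      apply hc p a a
      rw [← Finsupp.single_add]
      rw [Finsupp.single_le_iff]
      omega
    have h3 : ∀ p a b, m (e (p, a)) ≠ 0 → m (e (p, b)) ≠ 0 → a = b := by
      intro p a b h1 h2
      by_contra hab
      apply hc p a b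
      intro i
      rw [Finsupp.add_apply, Finsupp.single_apply, Finsupp.single_apply]
      split_ifs with h4 h5
      · exfalso
        apply hab
        have := e.injective (h4.trans h5.symm)
        simpa using this
      · rw [← h4]; omega
      · rename_i h5
        rw [← h5]; omega
      · omega
    refine hm (fun p => if h : ∃ a, m (e (p, a)) ≠ 0 then some h.choose else none) ?_
    ext i
    obtain ⟨⟨p, a⟩, rfl⟩ := e.surjective i
    rw [expo_apply]
    by_cases h : ∃ a, m (e (p, a)) ≠ 0
    · rw [dif_pos h]
      by_cases h4 : m (e (p, a)) = 0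
      · rw [if_neg, h4]
        intro h5
        rw [Option.some.injEq] at h5
        have := h.choose_spec
        rw [h5] at this
        exact this h4
      · have h5 := h3 p _ _ h.choose_spec h4
        rw [if_pos (by rw [h5])]
        have := h2 p a
        omega
    · rw [dif_neg h, if_neg (by simp)]
      push Not at h
      exact h a
  obtain ⟨p, a, b, h⟩ := key
  have h1 : monomial m r = monomial (m - (Finsupp.single (e (p, a)) 1 +
      Finsupp.single (e (p, b)) 1)) r * (X (e (p, a)) * X (e (p, b))) := by
    rw [X, X, monomial_mul, monomial_mul, tsub_add_cancel_of_le h, mul_one, mul_one]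
  rw [h1]
  exact Ideal.mul_mem_left _ _ (Ideal.subset_span ⟨(p, a, b), rfl⟩)

/-- The linear map from coordinates. -/
noncomputable def toR (K : Type) [Field K] :
    ((P → Option A) → K) →ₗ[K] (MvPolynomial σ K ⧸ mono e K) where
  toFun g := ∑ c, g c • Ideal.Quotient.mk (mono e K) (monomial (expo e c) 1)
  map_add' g g' := by simp [add_smul, Finset.sum_add_distrib]
  map_smul' r g := by simp [Finset.smul_sum, mul_smul]

theorem toR_coeff (f : MvPolynomial σ K) :
    toR e K (fun c => coeff (expo e c) f) = Ideal.Quotient.mk (mono e K) f := by
  induction f using MvPolynomial.induction_on' with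
  | monomial m r =>
    change ∑ c : P → Option A, coeff (expo e c) (monomial m r) •
      Ideal.Quotient.mk (mono e K) (monomial (expo e c) 1) = _
    by_cases h : ∃ c : P → Option A, m = expo e c
    · obtain ⟨c, rfl⟩ := h
      rw [Finset.sum_eq_single c]
      · rw [coeff_monomial, if_pos rfl]
        have : (monomial (expo e c) r : MvPolynomial σ K) =
            r • monomial (expo e c) (1 : K) := by
          rw [smul_monomial, smul_eq_mul, mul_one]
        rw [this]
        rfl
      · intro c' _ hc'
        rw [coeff_monomial, if_neg, zero_smul]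
        intro h
        exact hc' (expo_inj e h).symm
      · intro h; exact absurd (Finset.mem_univ _) h
    · push Not at h
      rw [Finset.sum_eq_zero]
      · exact (Ideal.Quotient.eq_zero_iff_mem.2 (monomial_mem e m h r)).symm
      · intro c _
        rw [coeff_monomial, if_neg (h c), zero_smul]
  | add f g hf hg =>
    rw [map_add, ← hf, ← hg, ← map_add]
    congr 1

theorem mk_toR (g : (P → Option A) → K) : toR e K g =
    Ideal.Quotient.mk (mono e K) (∑ c, g c • monomial (expo e c) 1) := by
  change ∑ c, g c • Ideal.Quotient.mk (mono e K) (monomial (expo e c) 1) = _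
  rw [map_sum]
  rfl

theorem toR_bij : Function.Bijective (toR e K : ((P → Option A) → K) →ₗ[K] _) := by
  constructor
  · rw [← LinearMap.ker_eq_bot, LinearMap.ker_eq_bot']
    intro g hg
    rw [mk_toR, Ideal.Quotient.eq_zero_iff_mem] at hg
    funext c
    have h1 := coeff_mem e hg c
    rw [coeff_sum, Finset.sum_eq_single c] at h1
    · simpa using h1
    · intro c' _ hc'
      rw [coeff_smul, coeff_monomial, if_neg, smul_zero]
      intro h
      exact hc' (expo_inj e h)
    · intro h; exact absurd (Finset.mem_univ _) h
  · intro r
    obtain ⟨f, rfl⟩ := Ideal.Quotient.mk_surjective r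
    exact ⟨_, toR_coeff e f⟩

/-- The coordinates. -/
noncomputable def coefQ (K : Type) [Field K] :
    (MvPolynomial σ K ⧸ mono e K) ≃ₗ[K] ((P → Option A) → K) :=
  (LinearEquiv.ofBijective (toR e K) (toR_bij e)).symm

theorem coefQ_mk (f : MvPolynomial σ K) (c : P → Option A) :
    coefQ e K (Ideal.Quotient.mk (mono e K) f) c = coeff (expo e c) f := by
  have h : coefQ e K (Ideal.Quotient.mk (mono e K) f) = fun c => coeff (expo e c) f := by
    unfold coefQ
    rw [LinearEquiv.symm_apply_eq]
    exact (toR_coeff e f).symm
  rw [h]

/-- The quotient ring has the structure used in the word complex. -/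
noncomputable def krQ (K : Type) [Field K] : KR K P A (MvPolynomial σ K ⧸ mono e K) where
  x p a := Ideal.Quotient.mk _ (X (e (p, a)))
  coef := coefQ e K
  coef_one := by
    rw [← map_one (Ideal.Quotient.mk (mono e K)), coefQ_mk, expo_none, coeff_zero_one]
  coef_one' := by
    intro c hc
    rw [← map_one (Ideal.Quotient.mk (mono e K)), coefQ_mk, coeff_one, if_neg]
    intro h
    apply hc
    apply expo_inj e
    rw [expo_none, h]
  coef_x := by
    intro p a r c
    obtain ⟨f, rfl⟩ := Ideal.Quotient.mk_surjective r
    rw [← map_mul, coefQ_mk, coeff_X_mul', coefQ_mk]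
    have h1 : e (p, a) ∈ (expo e c).support ↔ c p = some a := by
      rw [Finsupp.mem_support_iff, expo_apply]
      split_ifs with h <;> simp [h]
    by_cases h : c p = some a
    · rw [if_pos (h1.2 h), if_pos h, ← expo_update e h, add_tsub_cancel_left]
    · rw [if_neg (fun h' => h (h1.1 h')), if_neg h]
  adj := by
    intro r
    obtain ⟨f, rfl⟩ := Ideal.Quotient.mk_surjective r
    have h1 : f ∈ Algebra.adjoin K (Set.range (X : σ → MvPolynomial σ K)) := by
      rw [adjoin_range_X]; trivial
    have h2 : Ideal.Quotient.mkₐ K (mono e K) f ∈
        (Algebra.adjoin K (Set.range (X : σ → MvPolynomial σ K))).map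
          (Ideal.Quotient.mkₐ K (mono e K)) := ⟨f, h1, rfl⟩
    rw [AlgHom.map_adjoin, ← Set.range_comp] at h2
    refine Algebra.adjoin_mono ?_ h2
    rintro _ ⟨i, rfl⟩
    obtain ⟨q, rfl⟩ := e.surjective i
    exact ⟨q, rfl⟩

/-- Homogeneous elements of the quotient ring are the classes of homogeneous polynomials. -/
theorem mem_H_iff (n : ℕ) (r : MvPolynomial σ K ⧸ mono e K) :
    r ∈ (krQ e K).H n ↔
      ∃ f : MvPolynomial σ K, f.IsHomogeneous n ∧ Ideal.Quotient.mk (mono e K) f = r := by
  constructor
  · intro h
    refine ⟨∑ c, coefQ e K r c • monomial (expo e c) 1, ?_, ?_⟩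
    · refine IsHomogeneous.sum _ _ _ fun c _ => ?_
      by_cases hc : coefQ e K r c = 0
      · rw [hc, zero_smul]
        exact isHomogeneous_zero _ _ _
      · have h1 : dg c = n := h c hc
        rw [smul_monomial]
        refine isHomogeneous_monomial _ ?_
        rw [expo_degree, h1]
    · rw [← mk_toR]
      exact (LinearEquiv.ofBijective (toR e K) (toR_bij e)).apply_symm_apply r
  · rintro ⟨f, hf, rfl⟩ c hc
    have h1 : coeff (expo e c) f ≠ 0 := by
      rw [← coefQ_mk]; exact hc
    have h2 := hf h1
    rw [← expo_degree e c, Finsupp.degree_eq_weight_one]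
    exact h2

end Pool.Agent.Helper522.Kos
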