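import Mathlib
import Pool.Agent.Helper522.Kos.Mod
import Pool.Agent.Helper522.Kos.Quot

/-!
Codes of the ring and of the modules attached to tables.
-/

set_option autoImplicit false

namespace Pool.Agent.Helper522.Kos

open MvPolynomial

/-! ### Evaluation of codes -/

section Eval

variable (K : Type) [Field K] (V : ℕ)

theorem poly_nil : poly K V [] = 0 := by simp [poly]

theorem poly_append (p q : PolyCode) : poly K V (p ++ q) = poly K V p + poly K V q := by
  simp [poly]

theorem poly_one (i : Fin V) : poly K V [(1, [i.val])] = X i := by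
  simp [poly]

theorem poly_neg (i : Fin V) : poly K V [(-1, [i.val])] = -X i := by
  simp [poly]

theorem poly_two (i j : Fin V) : poly K V [(1, [i.val, j.val])] = X i * X j := by
  simp [poly]

theorem poly_ite (c : Prop) [Decidable c] (p : PolyCode) :
    poly K V (if c then p else []) = if c then poly K V p else 0 := by
  split_ifs
  · rfl
  · exact poly_nil K V

end Eval

/-! ### The ring -/

section Ring

variable {P A : Type} [DecidableEq P] [DecidableEq A] [Fintype P] [Fintype A] {V : ℕ}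

/-- The code of the ring. -/
noncomputable def gensOf (e : P × A ≃ Fin V) : List PolyCode :=
  (Finset.univ : Finset (P × A × A)).toList.map
    fun t => [(1, [(e (t.1, t.2.1)).val, (e (t.1, t.2.2)).val])]

theorem idl_gensOf (K : Type) [Field K] (e : P × A ≃ Fin V) :
    idl K (V, gensOf e) = mono e K := by
  unfold idl mono
  congr 1
  ext g
  simp only [Set.mem_ofPred_eq, Set.mem_range, gensOf, List.mem_map, Finset.mem_toList,
    Finset.mem_univ, true_and]
  constructor
  · rintro ⟨_, ⟨t, rfl⟩, rfl⟩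
    exact ⟨t, (poly_two K V _ _).symm⟩
  · rintro ⟨t, rfl⟩
    exact ⟨_, ⟨t, rfl⟩, (poly_two K V _ _).symm⟩

/-- The structure of the ring, for any ideal equal to the ideal of products. -/
theorem exists_kr_aux (K : Type) [Field K] (e : P × A ≃ Fin V) (I : Ideal (MvPolynomial (Fin V) K))
    (h : I = mono e K) : ∃ k : KR K P A (MvPolynomial (Fin V) K ⧸ I),
      (∀ p a, k.x p a = Ideal.Quotient.mk I (X (e (p, a)))) ∧
      ∀ n, (k.H n : Set (MvPolynomial (Fin V) K ⧸ I)) =
        {r | ∃ f : MvPolynomial (Fin V) K, f.IsHomogeneous n ∧ Ideal.Quotient.mk I f = r} := by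
  subst h
  refine ⟨krQ e K, fun _ _ => rfl, fun n => ?_⟩
  ext r
  exact mem_H_iff e n r

/-- The structure of the ring. -/
theorem exists_kr (K : Type) [Field K] (e : P × A ≃ Fin V) :
    ∃ k : KR K P A (Rg K (V, gensOf e)),
      (∀ p a, k.x p a = Ideal.Quotient.mk (idl K (V, gensOf e)) (X (e (p, a)))) ∧
      homR K (V, gensOf e) = fun n => (k.H n : Set (Rg K (V, gensOf e))) := by
  obtain ⟨k, hk, hH⟩ := exists_kr_aux K e (idl K (V, gensOf e)) (idl_gensOf K e)
  refine ⟨k, hk, ?_⟩
  funext n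
  exact (hH n).symm

end Ring

/-! ### The relations -/

/-- The code of a vector with at most two nonzero coordinates. -/
def vd (b κ : ℕ) (p : PolyCode) (κ' : ℕ) (p' : PolyCode) : List PolyCode :=
  (List.range b).map fun i => (if i = κ then p else []) ++ (if i = κ' then p' else [])

theorem getD_vd (b κ : ℕ) (p : PolyCode) (κ' : ℕ) (p' : PolyCode) (i : Fin b) :
    (vd b κ p κ' p').getD i [] = (if i.val = κ then p else []) ++
      (if i.val = κ' then p' else []) := by
  simp [vd]

/-- The entry of a table. -/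
def ent (T : List (List ℕ)) (κ v : ℕ) : ℕ := (T.getD κ []).getD v 0

/-- The code of the relation of degree one. -/
def rel1 (b : ℕ) (T : List (List ℕ)) (κ v κ' v' : ℕ) : List PolyCode :=
  if ent T κ v = 0 then vd b κ [(1, [v])] κ' []
  else if ent T κ v = ent T κ' v' then vd b κ [(1, [v])] κ' [(-1, [v'])] else []

/-- The code of the relation of degree two. -/
def rel2 (b : ℕ) (κ v κ' v' : ℕ) : List PolyCode := vd b κ [(1, [v, v'])] κ' []

/-- The codes of the relations attached to a table. -/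
def relsOf (V b : ℕ) (T : List (List ℕ)) : List (List PolyCode) :=
  (List.range b).flatMap fun κ => (List.range V).flatMap fun v =>
    (List.range b).flatMap fun κ' => (List.range V).flatMap fun v' =>
      [rel1 b T κ v κ' v', rel2 b κ v κ' v']

theorem mem_relsOf {V b : ℕ} {T : List (List ℕ)} {r : List PolyCode} :
    r ∈ relsOf V b T ↔ ∃ (κ : Fin b) (v : Fin V) (κ' : Fin b) (v' : Fin V),
      r = rel1 b T κ v κ' v' ∨ r = rel2 b κ v κ' v' := by
  simp only [relsOf, List.mem_flatMap, List.mem_range, List.mem_cons, List.not_mem_nil, or_false]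
  constructor
  · rintro ⟨κ, hκ, v, hv, κ', hκ', v', hv', h⟩
    exact ⟨⟨κ, hκ⟩, ⟨v, hv⟩, ⟨κ', hκ'⟩, ⟨v', hv'⟩, h⟩
  · rintro ⟨κ, v, κ', v', h⟩
    exact ⟨κ, κ.2, v, v.2, κ', κ'.2, v', v'.2, h⟩

section Sem

variable {K : Type} [Field K] {P A : Type} [DecidableEq P] [DecidableEq A] [Fintype P]
  [Fintype A] {J : Type}

theorem vec_vd {ρ : RingCode} {b : ℕ} (κ : Fin b) (p : PolyCode) (κ' : Fin b) (p' : PolyCode) :
    (fun i : Fin b => Ideal.Quotient.mk (idl K ρ) (poly K ρ.1 ((vd b κ p κ' p').getD i []))) =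
      Pi.single κ (Ideal.Quotient.mk (idl K ρ) (poly K ρ.1 p)) +
        Pi.single κ' (Ideal.Quotient.mk (idl K ρ) (poly K ρ.1 p')) := by
  funext i
  rw [getD_vd, poly_append, poly_ite, poly_ite, Pi.add_apply, map_add, Pi.single_apply,
    Pi.single_apply]
  simp only [Fin.ext_iff]
  split_ifs <;> simp

theorem vec_nil {ρ : RingCode} {b : ℕ} :
    (fun i : Fin b => Ideal.Quotient.mk (idl K ρ) (poly K ρ.1 (([] : List PolyCode).getD i []))) =
      0 := by
  funext i
  simp [poly_nil]

/-- The relations attached to a table of a machine are the relations of the machine. -/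
theorem rels_eq {g : List PolyCode} {V b : ℕ} {T : List (List ℕ)}
    (e : P × A ≃ Fin V) (k : KR K P A (Rg K (V, g)))
    (hk : ∀ p a, k.x p a = Ideal.Quotient.mk (idl K (V, g)) (X (e (p, a))))
    (c : Fin b → Col P A J) (cd : J → ℕ) (hcd : Function.Injective cd)
    (hT : ∀ (κ : Fin b) (v : Fin V), ent T κ v =
      (tgt c κ (e.symm v).1 (e.symm v).2).elim 0 fun j => cd j + 1)
    {rk : P → ℕ} (hrk : Function.Injective rk) :
    rels K (V, g) (b, relsOf V b T) = Om k c := by
  have hx : ∀ v : Fin V, k.x (e.symm v).1 (e.symm v).2 =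
      Ideal.Quotient.mk (idl K (V, g)) (X v) := by
    intro v
    rw [hk, Prod.mk.eta, Equiv.apply_symm_apply]
  have hv1 : ∀ (κ : Fin b) (v : Fin V) (κ' : Fin b),
      (fun i : Fin b => Ideal.Quotient.mk (idl K (V, g))
        (poly K V ((vd b κ [(1, [v.val])] κ' []).getD i []))) =
      Pi.single κ (k.x (e.symm v).1 (e.symm v).2) := by
    intro κ v κ'
    refine (vec_vd (K := K) (ρ := (V, g)) κ _ κ' _).trans ?_
    simp only [poly_one, poly_nil, map_zero, Pi.single_zero, add_zero, hx]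
  have hv2 : ∀ (κ : Fin b) (v : Fin V) (κ' : Fin b) (v' : Fin V),
      (fun i : Fin b => Ideal.Quotient.mk (idl K (V, g))
        (poly K V ((vd b κ [(1, [v.val])] κ' [(-1, [v'.val])]).getD i []))) =
      Pi.single κ (k.x (e.symm v).1 (e.symm v).2) -
        Pi.single κ' (k.x (e.symm v').1 (e.symm v').2) := by
    intro κ v κ' v'
    refine (vec_vd (K := K) (ρ := (V, g)) κ _ κ' _).trans ?_
    simp only [poly_one, poly_neg, map_neg, Pi.single_neg, hx]
    rw [sub_eq_add_neg]
  have hv3 : ∀ (κ : Fin b) (v : Fin V) (κ' : Fin b) (v' : Fin V),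
      (fun i : Fin b => Ideal.Quotient.mk (idl K (V, g))
        (poly K V ((rel2 b κ v κ' v').getD i []))) =
      Pi.single κ (k.x (e.symm v).1 (e.symm v).2 * k.x (e.symm v').1 (e.symm v').2) := by
    intro κ v κ' v'
    refine (vec_vd (K := K) (ρ := (V, g)) κ _ κ' _).trans ?_
    simp only [poly_two, poly_nil, map_zero, Pi.single_zero, add_zero, hx, map_mul]
  rw [Om_eq_span k c hrk]
  unfold rels
  apply le_antisymm
  · rw [Submodule.span_le]
    rintro _ ⟨r, hr, rfl⟩
    obtain ⟨κ, v, κ', v', h⟩ := mem_relsOf.1 hr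
    rcases h with rfl | rfl
    · have hT1 := hT κ v
      have hT2 := hT κ' v'
      unfold rel1
      split_ifs with h1 h2
      · rw [h1] at hT1
        refine Submodule.subset_span (Or.inl ⟨κ, (e.symm v).1, (e.symm v).2, ?_, hv1 κ v κ'⟩)
        rcases h : tgt c κ (e.symm v).1 (e.symm v).2 with _ | j
        · rfl
        · rw [h] at hT1
          simp at hT1
      · rcases h : tgt c κ (e.symm v).1 (e.symm v).2 with _ | j
        · rw [h] at hT1
          exact absurd hT1 h1
        · rcases h' : tgt c κ' (e.symm v').1 (e.symm v').2 with _ | j'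
          · rw [h'] at hT2
            exact absurd (h2.trans hT2) h1
          · rw [h] at hT1
            rw [h'] at hT2
            have e1 : ent T κ v = cd j + 1 := hT1
            have e2 : ent T κ' v' = cd j' + 1 := hT2
            have hj : j = j' := hcd (by omega)
            subst hj
            exact Submodule.subset_span (Or.inr (Or.inl ⟨κ, (e.symm v).1, (e.symm v).2, κ',
              (e.symm v').1, (e.symm v').2, j, h, h', hv2 κ v κ' v'⟩))
      · have h0 : (fun i : Fin b => cls K (V, g)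
            (poly K (V, g).1 (([] : List PolyCode).getD i []))) = 0 :=
          vec_nil (K := K) (ρ := (V, g))
        rw [h0]
        exact Submodule.zero_mem _
    · exact Submodule.subset_span (Or.inr (Or.inr ⟨κ, (e.symm v).1, (e.symm v).2,
        (e.symm v').1, (e.symm v').2, hv3 κ v κ' v'⟩))
  · apply Submodule.span_mono
    rintro v (⟨κ, p, a, h1, rfl⟩ | ⟨κ, p, a, κ', p', a', j, h1, h2, rfl⟩ |
      ⟨κ, p, a, q, b', rfl⟩)
    · refine ⟨rel1 b T κ (e (p, a)) κ (e (p, a)), mem_relsOf.2 ⟨κ, e (p, a), κ, e (p, a),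
        Or.inl rfl⟩, ?_⟩
      have hT1 := hT κ (e (p, a))
      rw [Equiv.symm_apply_apply, h1, Option.elim_none] at hT1
      unfold rel1
      rw [if_pos hT1]
      refine Eq.trans ?_ (hv1 κ (e (p, a)) κ).symm
      rw [Equiv.symm_apply_apply]
    · refine ⟨rel1 b T κ (e (p, a)) κ' (e (p', a')), mem_relsOf.2 ⟨κ, e (p, a), κ', e (p', a'),
        Or.inl rfl⟩, ?_⟩
      have hT1 := hT κ (e (p, a))
      have hT2 := hT κ' (e (p', a'))
      rw [Equiv.symm_apply_apply, h1] at hT1
      rw [Equiv.symm_apply_apply, h2] at hT2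
      unfold rel1
      rw [if_neg (by rw [hT1]; simp), if_pos (hT1.trans hT2.symm)]
      refine Eq.trans ?_ (hv2 κ (e (p, a)) κ' (e (p', a'))).symm
      rw [Equiv.symm_apply_apply, Equiv.symm_apply_apply]
    · refine ⟨rel2 b κ (e (p, a)) κ (e (q, b')), mem_relsOf.2 ⟨κ, e (p, a), κ, e (q, b'),
        Or.inr rfl⟩, ?_⟩
      refine Eq.trans ?_ (hv3 κ (e (p, a)) κ (e (q, b'))).symm
      rw [Equiv.symm_apply_apply, Equiv.symm_apply_apply]

/-- The relations attached to a table are homogeneous. -/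
theorem relsOf_homog (K : Type) [Field K] {V b : ℕ} {T : List (List ℕ)} {r : List PolyCode}
    (hr : r ∈ relsOf V b T) :
    ∃ e, ∀ i : Fin b, (poly K V (r.getD i [])).IsHomogeneous e := by
  obtain ⟨κ, v, κ', v', h⟩ := mem_relsOf.1 hr
  have h0 : ∀ n, (poly K V ([] : PolyCode)).IsHomogeneous n := by
    intro n
    rw [poly_nil]
    exact isHomogeneous_zero _ _ _
  have hvd : ∀ (n : ℕ) (p p' : PolyCode), (poly K V p).IsHomogeneous n →
      (poly K V p').IsHomogeneous n → ∀ i : Fin b,
        (poly K V ((vd b κ p κ' p').getD i [])).IsHomogeneous n := by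
    intro n p p' hp hp' i
    rw [getD_vd, poly_append, poly_ite, poly_ite]
    refine IsHomogeneous.add ?_ ?_
    · split_ifs
      · exact hp
      · exact isHomogeneous_zero _ _ _
    · split_ifs
      · exact hp'
      · exact isHomogeneous_zero _ _ _
  rcases h with rfl | rfl
  · refine ⟨1, ?_⟩
    have h1 : (poly K V [(1, [v.val])]).IsHomogeneous 1 := by
      rw [poly_one]; exact isHomogeneous_X _ _
    have h2 : (poly K V [(-1, [v'.val])]).IsHomogeneous 1 := by
      rw [poly_neg]; exact (isHomogeneous_X _ _).neg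
    unfold rel1
    split_ifs
    · exact hvd 1 _ _ h1 (h0 1)
    · exact hvd 1 _ _ h1 h2
    · intro i
      exact h0 1
  · refine ⟨2, ?_⟩
    refine hvd 2 _ _ ?_ (h0 2)
    rw [poly_two]
    exact (isHomogeneous_X _ _).mul (isHomogeneous_X _ _)

end Sem

/-! ### Computability -/

section Comp

theorem vd_primrec : Primrec fun t : (ℕ × ℕ × PolyCode) × (ℕ × PolyCode) =>
    vd t.1.1 t.1.2.1 t.1.2.2 t.2.1 t.2.2 := by
  refine Primrec.list_map (Primrec.list_range.comp (Primrec.fst.comp Primrec.fst)) ?_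
  refine Primrec.list_append.comp ?_ ?_
  · refine Primrec.ite (PrimrecRel.comp Primrec.eq Primrec.snd
      (Primrec.fst.comp (Primrec.snd.comp (Primrec.fst.comp Primrec.fst)))) ?_ (Primrec.const _)
    exact Primrec.snd.comp (Primrec.snd.comp (Primrec.fst.comp Primrec.fst))
  · refine Primrec.ite (PrimrecRel.comp Primrec.eq Primrec.snd
      (Primrec.fst.comp (Primrec.snd.comp Primrec.fst))) ?_ (Primrec.const _)
    exact Primrec.snd.comp (Primrec.snd.comp Primrec.fst)

theorem ent_primrec : Primrec fun t : List (List ℕ) × ℕ × ℕ => ent t.1 t.2.1 t.2.2 := by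
  have h1 : Primrec fun t : List (List ℕ) × ℕ × ℕ => t.1.getD t.2.1 [] :=
    (Primrec.list_getD []).comp Primrec.fst (Primrec.fst.comp Primrec.snd)
  exact (Primrec.list_getD 0).comp h1 (Primrec.snd.comp Primrec.snd)

theorem mono_primrec : Primrec fun v : ℕ => ([(1, [v])] : PolyCode) :=
  Primrec.list_cons.comp (Primrec.pair (Primrec.const _)
    (Primrec.list_cons.comp Primrec.id (Primrec.const _))) (Primrec.const _)

theorem mono_primrec' : Primrec fun v : ℕ => ([(-1, [v])] : PolyCode) :=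
  Primrec.list_cons.comp (Primrec.pair (Primrec.const _)
    (Primrec.list_cons.comp Primrec.id (Primrec.const _))) (Primrec.const _)

theorem mono_primrec2 : Primrec fun v : ℕ × ℕ => ([(1, [v.1, v.2])] : PolyCode) :=
  Primrec.list_cons.comp (Primrec.pair (Primrec.const _)
    (Primrec.list_cons.comp Primrec.fst (Primrec.list_cons.comp Primrec.snd (Primrec.const _))))
      (Primrec.const _)

theorem rel1_primrec : Primrec fun t : (ℕ × List (List ℕ)) × (ℕ × ℕ) × (ℕ × ℕ) =>
    rel1 t.1.1 t.1.2 t.2.1.1 t.2.1.2 t.2.2.1 t.2.2.2 := by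
  have hb : Primrec fun t : (ℕ × List (List ℕ)) × (ℕ × ℕ) × (ℕ × ℕ) => t.1.1 :=
    Primrec.fst.comp Primrec.fst
  have hT : Primrec fun t : (ℕ × List (List ℕ)) × (ℕ × ℕ) × (ℕ × ℕ) => t.1.2 :=
    Primrec.snd.comp Primrec.fst
  have h1 : Primrec fun t : (ℕ × List (List ℕ)) × (ℕ × ℕ) × (ℕ × ℕ) => t.2.1.1 :=
    Primrec.fst.comp (Primrec.fst.comp Primrec.snd)
  have h2 : Primrec fun t : (ℕ × List (List ℕ)) × (ℕ × ℕ) × (ℕ × ℕ) => t.2.1.2 :=
    Primrec.snd.comp (Primrec.fst.comp Primrec.snd)
  have h3 : Primrec fun t : (ℕ × List (List ℕ)) × (ℕ × ℕ) × (ℕ × ℕ) => t.2.2.1 :=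
    Primrec.fst.comp (Primrec.snd.comp Primrec.snd)
  have h4 : Primrec fun t : (ℕ × List (List ℕ)) × (ℕ × ℕ) × (ℕ × ℕ) => t.2.2.2 :=
    Primrec.snd.comp (Primrec.snd.comp Primrec.snd)
  have e1 := ent_primrec.comp (Primrec.pair hT (Primrec.pair h1 h2))
  have e2 := ent_primrec.comp (Primrec.pair hT (Primrec.pair h3 h4))
  refine Primrec.ite (PrimrecRel.comp Primrec.eq e1 (Primrec.const 0)) ?_
    (Primrec.ite (PrimrecRel.comp Primrec.eq e1 e2) ?_ (Primrec.const _))
  · exact vd_primrec.comp (Primrec.pair (Primrec.pair hb (Primrec.pair h1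
      (mono_primrec.comp h2))) (Primrec.pair h3 (Primrec.const _)))
  · exact vd_primrec.comp (Primrec.pair (Primrec.pair hb (Primrec.pair h1
      (mono_primrec.comp h2))) (Primrec.pair h3 (mono_primrec'.comp h4)))

theorem rel2_primrec : Primrec fun t : (ℕ × List (List ℕ)) × (ℕ × ℕ) × (ℕ × ℕ) =>
    rel2 t.1.1 t.2.1.1 t.2.1.2 t.2.2.1 t.2.2.2 := by
  have hb : Primrec fun t : (ℕ × List (List ℕ)) × (ℕ × ℕ) × (ℕ × ℕ) => t.1.1 :=
    Primrec.fst.comp Primrec.fst
  have h1 : Primrec fun t : (ℕ × List (List ℕ)) × (ℕ × ℕ) × (ℕ × ℕ) => t.2.1.1 :=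
    Primrec.fst.comp (Primrec.fst.comp Primrec.snd)
  have h2 : Primrec fun t : (ℕ × List (List ℕ)) × (ℕ × ℕ) × (ℕ × ℕ) => t.2.1.2 :=
    Primrec.snd.comp (Primrec.fst.comp Primrec.snd)
  have h3 : Primrec fun t : (ℕ × List (List ℕ)) × (ℕ × ℕ) × (ℕ × ℕ) => t.2.2.1 :=
    Primrec.fst.comp (Primrec.snd.comp Primrec.snd)
  have h4 : Primrec fun t : (ℕ × List (List ℕ)) × (ℕ × ℕ) × (ℕ × ℕ) => t.2.2.2 :=
    Primrec.snd.comp (Primrec.snd.comp Primrec.snd)
  exact vd_primrec.comp (Primrec.pair (Primrec.pair hb (Primrec.pair h1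
      (mono_primrec2.comp (Primrec.pair h2 h4)))) (Primrec.pair h3 (Primrec.const _)))

/-- Intermediate lists of relations. -/
def rl3 (V : ℕ) (t : ℕ × List (List ℕ)) (x : ℕ × ℕ) (κ' : ℕ) : List (List PolyCode) :=
  (List.range V).flatMap fun v' => [rel1 t.1 t.2 x.1 x.2 κ' v', rel2 t.1 x.1 x.2 κ' v']

/-- Intermediate lists of relations. -/
def rl2 (V : ℕ) (t : ℕ × List (List ℕ)) (x : ℕ × ℕ) : List (List PolyCode) :=
  (List.range t.1).flatMap fun κ' => rl3 V t x κ'

/-- Intermediate lists of relations. -/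
def rl1 (V : ℕ) (t : ℕ × List (List ℕ)) (κ : ℕ) : List (List PolyCode) :=
  (List.range V).flatMap fun v => rl2 V t (κ, v)

theorem rl3_primrec (V : ℕ) : Primrec fun s : ((ℕ × List (List ℕ)) × (ℕ × ℕ)) × ℕ =>
    rl3 V s.1.1 s.1.2 s.2 := by
  unfold rl3
  refine Primrec.list_flatMap (Primrec.const _) ?_
  have hc : Primrec fun s : (((ℕ × List (List ℕ)) × (ℕ × ℕ)) × ℕ) × ℕ =>
      (s.1.1.1, s.1.1.2, (s.1.2, s.2)) :=
    Primrec.pair (Primrec.fst.comp (Primrec.fst.comp Primrec.fst))
      (Primrec.pair (Primrec.snd.comp (Primrec.fst.comp Primrec.fst))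
        (Primrec.pair (Primrec.snd.comp Primrec.fst) Primrec.snd))
  have h1 := rel1_primrec.comp hc
  have h2 := rel2_primrec.comp hc
  exact Primrec.list_cons.comp h1 (Primrec.list_cons.comp h2 (Primrec.const []))

theorem rl2_primrec (V : ℕ) : Primrec fun s : (ℕ × List (List ℕ)) × (ℕ × ℕ) =>
    rl2 V s.1 s.2 := by
  unfold rl2
  exact Primrec.list_flatMap (Primrec.list_range.comp (Primrec.fst.comp Primrec.fst))
    (rl3_primrec V)

section

attribute [local irreducible] rl2

theorem rl2_primrec' (V : ℕ) :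
    Primrec₂ fun (s : (ℕ × List (List ℕ)) × ℕ) (v : ℕ) => rl2 V s.1 (s.2, v) := by
  have hc : Primrec fun s : ((ℕ × List (List ℕ)) × ℕ) × ℕ => (s.1.1, (s.1.2, s.2)) :=
    Primrec.pair (Primrec.fst.comp Primrec.fst)
      (Primrec.pair (Primrec.snd.comp Primrec.fst) Primrec.snd)
  exact (rl2_primrec V).comp hc

theorem rl1_primrec (V : ℕ) : Primrec fun s : (ℕ × List (List ℕ)) × ℕ => rl1 V s.1 s.2 :=
  Primrec.list_flatMap (f := fun _ : (ℕ × List (List ℕ)) × ℕ => List.range V)
    (Primrec.const _) (rl2_primrec' V)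

end

theorem relsOf_eq (V b : ℕ) (T : List (List ℕ)) :
    relsOf V b T = (List.range b).flatMap fun κ => rl1 V (b, T) κ := rfl

section

attribute [local irreducible] rl1

theorem relsOf_primrec (V : ℕ) : Primrec fun t : ℕ × List (List ℕ) => relsOf V t.1 t.2 := by
  have h : Primrec fun t : ℕ × List (List ℕ) => (List.range t.1).flatMap fun κ => rl1 V t κ :=
    Primrec.list_flatMap (Primrec.list_range.comp Primrec.fst) (rl1_primrec V)
  exact h.of_eq fun t => (relsOf_eq V t.1 t.2).symm

end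

end Comp

end Pool.Agent.Helper522.Kos
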