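import Mathlib
import Pool.Agent.Helper522.Kos.Univ

/-!
A family of word equations with guessed words whose solvability is undecidable.
-/

set_option autoImplicit false

namespace Pool.Agent.Helper522.Kos.Src

open Turing Relation Pool.Agent.Helper522.Kos.Queue Pool.Agent.Helper522.Kos.Univ
open Turing.PartrecToTM2 (trNat)

/-- The equation. -/
def Sol {S : Type} (Pr : S → S → List S) (κ : S) (w : List S) : Prop :=
  ∃ V : List (S × S), w ++ V.flatMap (fun v => Pr v.1 v.2) =
    V.flatMap (fun v => [v.1, v.2]) ++ [κ]

theorem sol_of_reach {S : Type} {Pr : S → S → List S} {κ : S} {w : List S}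
    (h : QReach Pr w [κ]) : Sol Pr κ w := by
  induction h using ReflTransGen.head_induction_on with
  | refl => exact ⟨[], by simp⟩
  | @head a b hab _ ih =>
    cases hab with
    | mk x y t =>
      obtain ⟨V, hV⟩ := ih
      refine ⟨(x, y) :: V, ?_⟩
      simp only [List.flatMap_cons, List.cons_append, List.nil_append]
      rw [← hV]
      simp

theorem reach_of_sol {S : Type} {Pr : S → S → List S} {κ : S}
    (hP : ∀ x y, 2 ≤ (Pr x y).length ∨ Pr x y = [κ]) :
    ∀ (V : List (S × S)) (w : List S), (2 ≤ w.length ∨ w = [κ]) →
      w ++ V.flatMap (fun v => Pr v.1 v.2) = V.flatMap (fun v => [v.1, v.2]) ++ [κ] →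
      QReach Pr w [κ] := by
  intro V
  induction V with
  | nil =>
    intro w _ h
    simp only [List.flatMap_nil, List.append_nil, List.nil_append] at h
    rw [h]
  | cons v V ih =>
    intro w hw h
    rcases hw with hw | rfl
    · match w, hw, h with
      | a :: b :: t, _, h =>
        obtain ⟨x, y⟩ := v
        simp only [List.flatMap_cons, List.cons_append, List.nil_append, List.cons.injEq] at h
        obtain ⟨rfl, rfl, h⟩ := h
        refine ReflTransGen.head (QStep.mk a b t) (ih _ ?_ (by rw [← h]; simp))
        rcases t with _ | ⟨c, t⟩
        · simpa using hP a b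
        · left
          have : 1 ≤ (Pr a b).length := by
            rcases hP a b with h | h
            · omega
            · rw [h]; simp
          simp only [List.length_append, List.length_cons]
          omega
    · exact ReflTransGen.refl

theorem exists_source : ∃ (S : Type) (_ : Fintype S) (_ : DecidableEq S)
    (Pr : S → S → List S) (κ : S) (u : ℕ → List S), (∀ x y, Pr x y ≠ []) ∧
    (∀ g : S → ℕ, Computable fun n => (u n).map g) ∧
    ¬ ComputablePred fun n => Sol Pr κ (u n) := by
  classical
  obtain ⟨Λ, i1, i2, M, hM⟩ := exists_machine
  let S := Queue.Sym (TM2to1.Γ' PartrecToTM2.K' (fun _ => PartrecToTM2.Γ')) Λ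
  have fK : Finite PartrecToTM2.K' := by
    refine Finite.of_injective (fun k : PartrecToTM2.K' => match k with
      | .main => (0 : Fin 4)
      | .rev => 1
      | .aux => 2
      | .stack => 3) ?_
    intro a b h
    cases a <;> cases b <;> simp_all
  have fG : Finite (TM2to1.Γ' PartrecToTM2.K' (fun _ => PartrecToTM2.Γ')) :=
    inferInstanceAs (Finite (Bool × (PartrecToTM2.K' → Option PartrecToTM2.Γ')))
  have fS : Finite S := inferInstanceAs (Finite (Queue.Sym _ _))
  let iF : Fintype S := Fintype.ofFinite S
  let u : ℕ → List S := fun n => initWord (sym true .cons :: (trNat n).reverse.map (sym false))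
  refine ⟨S, iF, inferInstance, prod M, .kill, u, ?_, ?_, ?_⟩
  · intro x y h
    rcases prod_length M x y with h1 | h1
    · rw [h] at h1; simp at h1
    · rw [h] at h1; simp at h1
  · intro g
    have e : ∀ n, (u n).map g = if ((trNat n).map fun a => g (.cell (sym false a))).length % 2 = 1
        then g .mark :: g (.head default (sym true .cons)) ::
          ((trNat n).map fun a => g (.cell (sym false a))).reverse
        else g .mark :: g (.cell default) :: g (.head default (sym true .cons)) ::
          ((trNat n).map fun a => g (.cell (sym false a))).reverse := by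
      intro n
      simp only [u, initWord, List.length_cons, List.length_map, List.length_reverse,
        List.headI, List.tail_cons]
      by_cases h : (trNat n).length % 2 = 1
      · rw [if_pos h, if_pos (by omega)]
        simp [Function.comp_def]
      · rw [if_neg h, if_neg (by omega)]
        simp [Function.comp_def]
    simp only [e]
    have hd := digits_computable fun a => g (.cell (sym false a))
    have hp : Primrec fun l : List ℕ => if l.length % 2 = 1
        then g .mark :: g (.head default (sym true .cons)) :: l.reverse
        else g .mark :: g (.cell default) :: g (.head default (sym true .cons)) ::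
          l.reverse := by
      refine Primrec.ite (PrimrecRel.comp Primrec.eq (Primrec.nat_mod.comp Primrec.list_length
        (Primrec.const 2)) (Primrec.const 1)) ?_ ?_
      · exact Primrec.list_cons.comp (Primrec.const _) (Primrec.list_cons.comp (Primrec.const _)
          Primrec.list_reverse)
      · exact Primrec.list_cons.comp (Primrec.const _) (Primrec.list_cons.comp (Primrec.const _)
          (Primrec.list_cons.comp (Primrec.const _) Primrec.list_reverse))
    exact hp.to_comp.comp hd
  · intro h
    apply u_not_computable
    have key : ∀ n, Sol (prod M) .kill (u n) ↔ (Univ.u n).Dom := by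
      intro n
      rw [← hM n, ← rep_halts M (rep_init _ (by simp))]
      exact ⟨fun ⟨V, hV⟩ => reach_of_sol (prod_length M) V _ (Or.inl (initWord_length _)) hV,
        fun h => sol_of_reach h⟩
    have : (fun n => Sol (prod M) .kill (u n)) = fun n => (Univ.u n).Dom := by
      funext n; exact propext (key n)
    rwa [this] at h

end Pool.Agent.Helper522.Kos.Src
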