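import Mathlib
import Pool.Agent.Helper522.Kos.Path

/-!
The reversible stack machine that checks, for the contents of its stacks, that
`u ++ α(V) = β(V) ++ [κ]`, where `α(x,y) = Pr x y` and `β(x,y) = [x, y]`.
-/

set_option autoImplicit false

namespace Pool.Agent.Helper522.Kos.Mach

open Pool.Agent.Helper522.Kos Relation

/-- The stacks. -/
inductive Stk
  | X (b : Bool)
  | I (b : Bool)
  | Z
  deriving DecidableEq

/-- The letters. -/
inductive Ltr (S : Type)
  | s (x : S)
  | pr (x y : S)
  | mk
  | du
  deriving DecidableEq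

open Stk Ltr

variable {S : Type} [DecidableEq S] (Pr : S → S → List S)

/-- The words popped in the two phases. -/
def Q : Bool → S → S → List S
  | true, x, y => Pr x y
  | false, x, y => [y, x]

/-- The states. -/
inductive St (L : ℕ)
  | ch (i : Fin (L + 1))
  | en (b : Bool)
  | m (b : Bool)
  | tau (b : Bool) (x y : S) (i : Fin ((Q Pr b x y).length + 1))
  | sig (b : Bool) (x y : S)
  | ex (b : Bool)
  | ex2 (b : Bool)

/-- The columns. -/
inductive Cl (L : ℕ)
  | ch (i : Fin (L + 1))
  | M (b : Bool)
  | G (b : Bool)
  | E (b : Bool)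
  | F
  | T (b : Bool) (x y : S) (i : Fin ((Q Pr b x y).length + 1))

/-- The letter pushed at place `i` of a chain popping the word `l`. -/
def clt (a0 : Ltr S) (l : List S) (i : ℕ) : Ltr S :=
  if i = 0 then a0 else ((l[i - 1]?).map s).getD du

/-- The letter popped at place `i` of a chain popping the word `l`. -/
def ctl (l : List S) (i : ℕ) : Ltr S := ((l[i]?).map s).getD du

/-- The stack popped at place `i` of a chain popping the word `l` from `X b`. -/
def ctp (b : Bool) (l : List S) (i : ℕ) : Stk := if i < l.length then X b else Z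

variable (κ : S) (u : List S) (hP : ∀ x y, Pr x y ≠ [])

include hP in
omit [DecidableEq S] in
theorem Q_ne (b : Bool) (x y : S) : Q Pr b x y ≠ [] := by
  cases b
  · simp [Q]
  · exact hP x y

/-- The columns of the machine. -/
def cols : Cl Pr u.length → Col Stk (Ltr S) (St Pr u.length)
  | .ch i =>
    { sp := X false
      tp := ctp true u i
      ne := by unfold ctp; split_ifs <;> simp
      src := fun a => if a = clt mk u i then some (.ch i) else none
      tg := fun a => if a = ctl u i then
          (if h : i.val < u.length then some (.ch ⟨i.val + 1, by omega⟩) else some (.en true))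
        else none }
  | .M b =>
    { sp := Z
      tp := I b
      ne := by simp
      src := fun a => if a = du then some (.m b) else none
      tg := fun a => match a with
        | pr x y => some (.tau b x y ⟨0, by omega⟩)
        | mk => some (.ex b)
        | _ => none }
  | .G b =>
    { sp := I (!b)
      tp := Z
      ne := by simp
      src := fun a => match a with
        | pr x y => some (.sig b x y)
        | mk => some (.en b)
        | _ => none
      tg := fun a => if a = du then some (.m b) else none }
  | .E b =>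
    { sp := Z
      tp := X b
      ne := by simp
      src := fun a => if a = du then some (.ex b) else none
      tg := fun a => if a = mk then some (.ex2 b) else none }
  | .F =>
    { sp := Z
      tp := X false
      ne := by simp
      src := fun a => if a = du then some (.ex2 true) else none
      tg := fun a => if a = s κ then some (.en false) else none }
  | .T b x y i =>
    { sp := if i.val = 0 then Z else X (!b)
      tp := ctp b (Q Pr b x y) i
      ne := by
        have h := List.length_pos_iff.2 (Q_ne Pr hP b x y)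
        unfold ctp
        by_cases h0 : i.val = 0
        · rw [if_pos h0, if_pos (by omega)]
          simp
        · rw [if_neg h0]
          split_ifs <;> simp
      src := fun a => if a = clt du (Q Pr b x y) i then some (.tau b x y i) else none
      tg := fun a => if a = ctl (Q Pr b x y) i then
          (if h : i.val < (Q Pr b x y).length then some (.tau b x y ⟨i.val + 1, by omega⟩)
            else some (.sig b x y))
        else none }

variable {Pr κ u}

/-- The column and letter for which the state is a source. -/
def srcOf : St Pr u.length → Option (Cl Pr u.length × Ltr S)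
  | .ch i => some (.ch i, clt mk u i)
  | .en b => some (.G b, mk)
  | .m b => some (.M b, du)
  | .tau b x y i => some (.T b x y i, clt du (Q Pr b x y) i)
  | .sig b x y => some (.G b, pr x y)
  | .ex b => some (.E b, du)
  | .ex2 true => some (.F, du)
  | .ex2 false => none

theorem src_iff (k : Cl Pr u.length) (a : Ltr S) (j : St Pr u.length) :
    (cols Pr κ u hP k).src a = some j ↔ srcOf j = some (k, a) := by
  constructor
  · intro h
    cases k with
    | G b =>
      cases a <;> simp only [cols, Option.some.injEq, reduceCtorEq] at h <;> subst h <;> rfl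
    | _ =>
      simp only [cols, Option.ite_none_right_eq_some, Option.some.injEq] at h
      obtain ⟨rfl, rfl⟩ := h
      rfl
  · intro h
    cases j with
    | ex2 b =>
      cases b
      · simp [srcOf] at h
      · simp only [srcOf, Option.some.injEq, Prod.mk.injEq] at h
        obtain ⟨rfl, rfl⟩ := h
        simp [cols]
    | _ =>
      simp only [srcOf, Option.some.injEq, Prod.mk.injEq] at h
      obtain ⟨rfl, rfl⟩ := h
      simp [cols]

/-- The column and letter for which the state is a target. -/
def tgOf : St Pr u.length → Option (Cl Pr u.length × Ltr S)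
  | .ch ⟨0, _⟩ => none
  | .ch ⟨i + 1, h⟩ => some (.ch ⟨i, by omega⟩, ctl u i)
  | .en true => some (.ch ⟨u.length, by omega⟩, du)
  | .en false => some (.F, s κ)
  | .m b => some (.G b, du)
  | .tau b x y ⟨0, _⟩ => some (.M b, pr x y)
  | .tau b x y ⟨i + 1, h⟩ => some (.T b x y ⟨i, by omega⟩, ctl (Q Pr b x y) i)
  | .sig b x y => some (.T b x y ⟨(Q Pr b x y).length, by omega⟩, du)
  | .ex b => some (.M b, mk)
  | .ex2 b => some (.E b, mk)

theorem ctl_len (l : List S) : ctl l l.length = du := by simp [ctl]

theorem tg_iff (k : Cl Pr u.length) (a : Ltr S) (j : St Pr u.length) :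
    (cols Pr κ u hP k).tg a = some j ↔ tgOf (κ := κ) j = some (k, a) := by
  constructor
  · intro h
    cases k with
    | M b =>
      cases a <;> simp only [cols, Option.some.injEq, reduceCtorEq] at h <;> subst h <;> rfl
    | ch i =>
      simp only [cols, Option.ite_none_right_eq_some] at h
      obtain ⟨rfl, h⟩ := h
      split_ifs at h with h1
      · simp only [Option.some.injEq] at h
        subst h
        rfl
      · simp only [Option.some.injEq] at h
        subst h
        obtain ⟨i, hi⟩ := i
        simp only at h1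
        obtain rfl : i = u.length := by omega
        simp [tgOf, ctl_len]
    | T b x y i =>
      simp only [cols, Option.ite_none_right_eq_some] at h
      obtain ⟨rfl, h⟩ := h
      split_ifs at h with h1
      · simp only [Option.some.injEq] at h
        subst h
        rfl
      · simp only [Option.some.injEq] at h
        subst h
        obtain ⟨i, hi⟩ := i
        simp only at h1
        obtain rfl : i = (Q Pr b x y).length := by omega
        simp [tgOf, ctl_len]
    | _ =>
      simp only [cols, Option.ite_none_right_eq_some, Option.some.injEq] at h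
      obtain ⟨rfl, rfl⟩ := h
      rfl
  · intro h
    cases j with
    | ch i =>
      obtain ⟨_ | i, hi⟩ := i
      · simp [tgOf] at h
      · simp only [tgOf, Option.some.injEq, Prod.mk.injEq] at h
        obtain ⟨rfl, rfl⟩ := h
        have : i < u.length := by omega
        simp [cols, this]
    | en b =>
      cases b
      · simp only [tgOf, Option.some.injEq, Prod.mk.injEq] at h
        obtain ⟨rfl, rfl⟩ := h
        simp [cols]
      · simp only [tgOf, Option.some.injEq, Prod.mk.injEq] at h
        obtain ⟨rfl, rfl⟩ := h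
        simp [cols, ctl_len]
    | tau b x y i =>
      obtain ⟨_ | i, hi⟩ := i
      · simp only [tgOf, Option.some.injEq, Prod.mk.injEq] at h
        obtain ⟨rfl, rfl⟩ := h
        simp [cols]
      · simp only [tgOf, Option.some.injEq, Prod.mk.injEq] at h
        obtain ⟨rfl, rfl⟩ := h
        have : i < (Q Pr b x y).length := by omega
        simp [cols, this]
    | sig b x y =>
      simp only [tgOf, Option.some.injEq, Prod.mk.injEq] at h
      obtain ⟨rfl, rfl⟩ := h
      simp [cols, ctl_len]
    | _ =>
      simp only [tgOf, Option.some.injEq, Prod.mk.injEq] at h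
      obtain ⟨rfl, rfl⟩ := h
      simp [cols]

theorem rev_cols : Rev (cols Pr κ u hP) where
  src := by
    intro k k' a a' j h h'
    rw [src_iff] at h h'
    rw [h] at h'
    simpa using h'
  tg := by
    intro k k' a a' j h h'
    rw [tg_iff] at h h'
    rw [h] at h'
    simpa using h'

theorem isEnd_iff (j : St Pr u.length) : IsEnd (cols Pr κ u hP) j ↔ j = .ex2 false := by
  unfold IsEnd
  simp only [ne_eq, src_iff]
  constructor
  · intro h
    rcases hj : srcOf j with _ | ⟨k, a⟩
    · cases j with
      | ex2 b => cases b <;> simp_all [srcOf]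
      | _ => simp [srcOf] at hj
    · exact absurd hj (h k a)
  · rintro rfl k a
    simp [srcOf]

theorem isStart_iff (j : St Pr u.length) :
    IsStart (cols Pr κ u hP) j ↔ j = .ch ⟨0, by omega⟩ := by
  unfold IsStart
  simp only [ne_eq, tg_iff]
  constructor
  · intro h
    rcases hj : tgOf (κ := κ) j with _ | ⟨k, a⟩
    · cases j with
      | ch i => obtain ⟨_ | i, hi⟩ := i <;> simp_all [tgOf]
      | en b => cases b <;> simp_all [tgOf]
      | tau b x y i => obtain ⟨_ | i, hi⟩ := i <;> simp_all [tgOf]
      | _ => simp [tgOf] at hj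
    · exact absurd hj (h k a)
  · rintro rfl k a
    simp [tgOf]

/-- Every state occurs. -/
theorem occurs (j : St Pr u.length) :
    ∃ k p a, tgt (cols Pr κ u hP) k p a = some j := by
  by_cases h : j = .ex2 false
  · subst h
    refine ⟨.E false, (cols Pr κ u hP (.E false)).tp, mk, ?_⟩
    have hne := (cols Pr κ u hP (.E false)).ne
    rw [tgt, if_neg hne.symm, if_pos rfl, tg_iff]
    rfl
  · have h1 : ¬ IsEnd (cols Pr κ u hP) j := by rwa [isEnd_iff]
    unfold IsEnd at h1
    push Not at h1
    obtain ⟨k, a, h1⟩ := h1
    exact ⟨k, _, a, by rw [tgt, if_pos rfl, h1]⟩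

/-! ### Which contents are accepted -/

/-- Words as stack contents. -/
def text (l : List S) : List (Ltr S) := l.map s

/-- Sequences of pairs as stack contents. -/
def idx (V : List (S × S)) : List (Ltr S) := V.map fun v => pr v.1 v.2

/-- The concatenation of the words of the pairs. -/
def al (Pr : S → S → List S) (b : Bool) (V : List (S × S)) : List S :=
  V.flatMap fun v => Q Pr b v.1 v.2

/-- What is needed of the other stacks when phase `b` ends. -/
def Cont (Pr : S → S → List S) (κ : S) : Bool → List (Ltr S) → List (Ltr S) → Prop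
  | false, _, _ => True
  | true, I', X' => ∃ V r r', I' = idx V ++ mk :: r ∧
      X' = s κ :: (text (al Pr false V) ++ mk :: r')

/-- There are enough dummies. -/
def Zok (n : ℕ) (w : Stk → List (Ltr S)) : Prop := ∃ r, w Z = List.replicate n du ++ r

/-- The configurations from which the machine accepts. -/
def Phi (κ : S) : (Stk → List (Ltr S)) × St Pr u.length → Prop
  | (w, .m b) => ∃ V r r', w (I b) = idx V ++ mk :: r ∧
      w (X b) = text (al Pr b V) ++ mk :: r' ∧
      Cont Pr κ b (idx V.reverse ++ w (I (!b))) (text (al Pr b V).reverse ++ w (X (!b)))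
  | (w, .sig b x y) => Zok 1 w ∧ ∃ V r r', w (I b) = idx V ++ mk :: r ∧
      w (X b) = text (al Pr b V) ++ mk :: r' ∧
      Cont Pr κ b (idx V.reverse ++ pr x y :: w (I (!b)))
        (text (al Pr b V).reverse ++ w (X (!b)))
  | (w, .en b) => Zok 1 w ∧ ∃ V r r', w (I b) = idx V ++ mk :: r ∧
      w (X b) = text (al Pr b V) ++ mk :: r' ∧
      Cont Pr κ b (idx V.reverse ++ mk :: w (I (!b)))
        (text (al Pr b V).reverse ++ w (X (!b)))
  | (w, .tau b x y i) => Zok (min (i.val + 1) 2) w ∧ ∃ V r r', w (I b) = idx V ++ mk :: r ∧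
      w (X b) = text ((Q Pr b x y).drop i ++ al Pr b V) ++ mk :: r' ∧
      Cont Pr κ b (idx V.reverse ++ pr x y :: w (I (!b)))
        (text ((Q Pr b x y).drop (i.val - 1) ++ al Pr b V).reverse ++ w (X (!b)))
  | (w, .ch i) => Zok 2 w ∧ ∃ V r r', w (I true) = idx V ++ mk :: r ∧
      w (X true) = text (u.drop i ++ al Pr true V) ++ mk :: r' ∧
      Cont Pr κ true (idx V.reverse ++ mk :: w (I false))
        (text (u.drop i ++ al Pr true V).reverse ++ clt mk u i :: w (X false))
  | (w, .ex b) => ∃ r', w (X b) = mk :: r' ∧ Cont Pr κ b (w (I (!b))) (w (X (!b)))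
  | (w, .ex2 true) => Cont Pr κ true (w (I false)) (w (X false))
  | (_, .ex2 false) => True

/-- Moving between words by popping and pushing. -/
theorem push_eq_iff {p q : Stk} (h : p ≠ q) (a b : Ltr S) (w w' : Stk → List (Ltr S)) :
    push p a w = push q b w' ↔ w q = b :: w' q ∧ w' p = a :: w p ∧
      ∀ r, r ≠ p → r ≠ q → w' r = w r := by
  constructor
  · intro e
    refine ⟨?_, ?_, ?_⟩
    · have := congrFun e q
      rwa [push_same, push_ne h.symm] at this
    · have := congrFun e p
      rw [push_same, push_ne h] at this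
      exact this.symm
    · intro r h1 h2
      have := congrFun e r
      rw [push_ne h1, push_ne h2] at this
      exact this.symm
  · rintro ⟨h1, h2, h3⟩
    funext r
    by_cases hp : r = p
    · subst hp
      rw [push_same, push_ne h, h2]
    · by_cases hq : r = q
      · subst hq
        rw [push_same, push_ne hp, h1]
      · rw [push_ne hp, push_ne hq, h3 r hp hq]

/-- The step relation spelled out. -/
theorem step_iff (w w' : Stk → List (Ltr S)) (j j' : St Pr u.length) :
    Step (cols Pr κ u hP) (w, j) (w', j') ↔ ∃ k a b, srcOf j = some (k, a) ∧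
      tgOf (κ := κ) j' = some (k, b) ∧
      w (cols Pr κ u hP k).tp = b :: w' (cols Pr κ u hP k).tp ∧
      w' (cols Pr κ u hP k).sp = a :: w (cols Pr κ u hP k).sp ∧
      ∀ r, r ≠ (cols Pr κ u hP k).sp → r ≠ (cols Pr κ u hP k).tp → w' r = w r := by
  unfold Step
  simp only [src_iff, tg_iff]
  constructor
  · rintro ⟨k, a, b, h1, h2, h3⟩
    exact ⟨k, a, b, h1, h2, (push_eq_iff (cols Pr κ u hP k).ne a b w w').1 h3⟩
  · rintro ⟨k, a, b, h1, h2, h3⟩
    exact ⟨k, a, b, h1, h2, (push_eq_iff (cols Pr κ u hP k).ne a b w w').2 h3⟩

theorem ctl_lt {l : List S} {i : ℕ} (h : i < l.length) : ctl l i = s l[i] := by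
  simp [ctl, h]

theorem clt_succ {a0 : Ltr S} {l : List S} {i : ℕ} (h : i < l.length) :
    clt a0 l (i + 1) = s l[i] := by
  simp [clt, h]

theorem text_drop {l : List S} {i : ℕ} (h : i < l.length) (t : List S) :
    text (l.drop i ++ t) = s l[i] :: text (l.drop (i + 1) ++ t) := by
  rw [List.drop_eq_getElem_cons h]
  rfl

theorem text_drop_rev {l : List S} {i : ℕ} (h : i < l.length) (t : List S) :
    text (l.drop i ++ t).reverse = text (l.drop (i + 1) ++ t).reverse ++ [s l[i]] := by
  rw [List.drop_eq_getElem_cons h]
  simp only [text, List.cons_append, List.reverse_cons, List.map_append, List.map_cons,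
    List.map_nil]

theorem zok_push {n : ℕ} {w w' : Stk → List (Ltr S)} (h : w' Z = du :: w Z) :
    Zok (n + 1) w' ↔ Zok n w := by
  unfold Zok
  rw [h]
  simp [List.replicate_succ]

theorem zok_same {n : ℕ} {w w' : Stk → List (Ltr S)} (h : w' Z = w Z) :
    Zok n w' ↔ Zok n w := by
  unfold Zok
  rw [h]

theorem zok_zero (w : Stk → List (Ltr S)) : Zok 0 w := ⟨w Z, by simp⟩

theorem bne_ne (b : Bool) : (!b) ≠ b := by cases b <;> simp
theorem bne_ne' (b : Bool) : b ≠ (!b) := by cases b <;> simp

/-- Acceptance is preserved by steps in both directions. -/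
theorem phi_step {w w' : Stk → List (Ltr S)} {j j' : St Pr u.length}
    (h : Step (cols Pr κ u hP) (w, j) (w', j')) : Phi κ (w, j) ↔ Phi κ (w', j') := by
  rw [step_iff] at h
  obtain ⟨k, a, b, h1, h2, h3, h4, h5⟩ := h
  rw [← tg_iff hP] at h2
  cases j with
  | ch i =>
    simp only [srcOf, Option.some.injEq, Prod.mk.injEq] at h1
    obtain ⟨rfl, rfl⟩ := h1
    simp only [cols] at h2 h3 h4 h5
    rw [Option.ite_none_right_eq_some] at h2
    obtain ⟨rfl, h2⟩ := h2
    by_cases hi : i.val < u.length
    · rw [dif_pos hi, Option.some.injEq] at h2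
      subst h2
      rw [ctl_lt hi] at h3
      simp only [ctp, if_pos hi] at h3 h5
      have hZ := h5 Z (by simp) (by simp)
      have hI := h5 (I true) (by simp) (by simp)
      have hI' := h5 (I false) (by simp) (by simp)
      simp only [Phi, zok_same hZ, hI, hI', h4, clt_succ hi, h3, text_drop hi,
        text_drop_rev hi, List.cons_append, List.cons.injEq, true_and, List.append_assoc,
        List.nil_append]
    · rw [dif_neg hi, Option.some.injEq] at h2
      subst h2
      have hi2 : i.val = u.length := by omega
      simp only [ctp, hi2, lt_irrefl, if_false, ctl_len] at h3 h5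
      have hX := h5 (X true) (by simp) (by simp)
      have hI := h5 (I true) (by simp) (by simp)
      have hI' := h5 (I false) (by simp) (by simp)
      rw [hi2] at h4
      simp only [Phi, zok_push (n := 1) h3, hI, hI', hX, h4, hi2, List.drop_length,
        List.nil_append, Bool.not_true]
  | en b =>
    simp only [srcOf, Option.some.injEq, Prod.mk.injEq] at h1
    obtain ⟨rfl, rfl⟩ := h1
    simp only [cols] at h2 h3 h4 h5
    rw [Option.ite_none_right_eq_some] at h2
    obtain ⟨rfl, h2⟩ := h2
    rw [Option.some.injEq] at h2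
    subst h2
    have hI := h5 (I b) (by simp) (by simp)
    have hX := h5 (X b) (by simp) (by simp)
    have hX' := h5 (X (!b)) (by simp) (by simp)
    simp only [Phi, zok_push (n := 0) h3, hI, hX, hX', h4, zok_zero, true_and]
  | m b =>
    simp only [srcOf, Option.some.injEq, Prod.mk.injEq] at h1
    obtain ⟨rfl, rfl⟩ := h1
    simp only [cols] at h2 h3 h4 h5
    have hI' := h5 (I (!b)) (by simp) (by simp)
    have hX := h5 (X b) (by simp) (by simp)
    have hX' := h5 (X (!b)) (by simp) (by simp)
    rename_i l
    cases l with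
    | s x => simp at h2
    | du => simp at h2
    | pr x y =>
      simp only [Option.some.injEq] at h2
      subst h2
      simp only [Phi, h3, hI', hX, hX', zero_add, List.drop_zero, Nat.zero_sub]
      constructor
      · rintro ⟨_ | ⟨⟨x', y'⟩, V⟩, r, r', e1, e2, e3⟩
        · simp [idx] at e1
        · simp only [idx, List.map_cons, List.cons_append, List.cons.injEq,
            Ltr.pr.injEq] at e1
          obtain ⟨⟨rfl, rfl⟩, e1⟩ := e1
          refine ⟨(zok_push (n := 0) h4).2 (zok_zero _), V, r, r', e1, ?_, ?_⟩
          · simpa [al] using e2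
          · simpa [al, idx] using e3
      · rintro ⟨-, V, r, r', e1, e2, e3⟩
        refine ⟨(x, y) :: V, r, r', ?_, ?_, ?_⟩
        · simp [idx, e1]
        · simpa [al] using e2
        · simpa [al, idx] using e3
    | mk =>
      simp only [Option.some.injEq] at h2
      subst h2
      simp only [Phi, h3, hI', hX, hX']
      constructor
      · rintro ⟨_ | ⟨⟨x', y'⟩, V⟩, r, r', e1, e2, e3⟩
        · exact ⟨r', by simpa [al, text] using e2, by simpa [al, text, idx] using e3⟩
        · simp [idx] at e1
      · rintro ⟨r', e2, e3⟩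
        exact ⟨[], w' (I b), r', by simp [idx], by simpa [al, text] using e2,
          by simpa [al, text, idx] using e3⟩
  | tau b x y i =>
    simp only [srcOf, Option.some.injEq, Prod.mk.injEq] at h1
    obtain ⟨rfl, rfl⟩ := h1
    simp only [cols] at h2 h3 h4 h5
    rw [Option.ite_none_right_eq_some] at h2
    obtain ⟨rfl, h2⟩ := h2
    have hpos := List.length_pos_iff.2 (Q_ne Pr hP b x y)
    by_cases hi : i.val < (Q Pr b x y).length
    · rw [dif_pos hi, Option.some.injEq] at h2
      subst h2
      rw [ctl_lt hi] at h3
      simp only [ctp, if_pos hi] at h3 h5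
      have hI := h5 (I b) (by split_ifs <;> simp) (by simp)
      have hI' := h5 (I (!b)) (by split_ifs <;> simp) (by simp)
      by_cases h0 : i.val = 0
      · simp only [h0, if_true] at h4 h5
        have hX' := h5 (X (!b)) (by simp) (by simp)
        have hc : (clt du (Q Pr b x y) 0 : Ltr S) = du := by simp [clt]
        rw [hc] at h4
        have hz : Zok (min (0 + 1 + 1) 2) w' ↔ Zok (min (0 + 1) 2) w :=
          zok_push (n := 1) h4
        simp only [Phi, h0, hz, hI, hI', hX', h3]
        have e0 := text_drop hi (S := S)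
        simp only [h0] at e0
        simp only [e0, List.cons_append, List.cons.injEq, true_and, h0, Nat.zero_sub,
          Nat.add_sub_cancel]
      · simp only [if_neg h0] at h4 h5
        have hZ := h5 Z (by simp) (by simp)
        obtain ⟨n, hn⟩ : ∃ n, i.val = n + 1 := ⟨i.val - 1, by omega⟩
        have hn2 : n < (Q Pr b x y).length := by omega
        have hc : (clt du (Q Pr b x y) i.val : Ltr S) = s (Q Pr b x y)[n] := by
          rw [hn]; exact clt_succ hn2
        rw [hc] at h4
        have hm1 : min (i.val + 1) 2 = 2 := by omega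
        have hm2 : min (i.val + 1 + 1) 2 = 2 := by omega
        have hs1 : i.val - 1 = n := by omega
        simp only [Phi, zok_same hZ, hm1, hm2, hI, hI', h3, h4, text_drop hi,
          List.cons_append, List.cons.injEq, true_and, hs1, text_drop_rev hn2, ← hn,
          Nat.add_sub_cancel, List.append_assoc, List.nil_append]
    · rw [dif_neg hi, Option.some.injEq] at h2
      subst h2
      have hi2 : i.val = (Q Pr b x y).length := by omega
      have h0 : i.val ≠ 0 := by omega
      rw [hi2] at h3 h4 h5
      simp only [ctp, lt_irrefl, if_false, ctl_len] at h3 h5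
      rw [if_neg (by omega)] at h4 h5
      have hX := h5 (X b) (by simp) (by simp)
      have hI := h5 (I b) (by simp) (by simp)
      have hI' := h5 (I (!b)) (by simp) (by simp)
      obtain ⟨n, hn⟩ : ∃ n, (Q Pr b x y).length = n + 1 :=
        ⟨(Q Pr b x y).length - 1, by omega⟩
      have hn2 : n < (Q Pr b x y).length := by omega
      have hc : (clt du (Q Pr b x y) (Q Pr b x y).length : Ltr S) = s (Q Pr b x y)[n] := by
        rw [hn]; exact clt_succ hn2
      rw [hc] at h4
      have hm1 : min (i.val + 1) 2 = 2 := by omega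
      have hs1 : i.val - 1 = n := by omega
      have hd : (Q Pr b x y).drop (n + 1) = [] := by
        rw [← hn]; exact List.drop_length
      have hd2 : (Q Pr b x y).drop i.val = [] := by
        rw [hi2]; exact List.drop_length
      simp only [Phi, zok_push (n := 1) h3, hm1, hI, hI', hX, h4, hs1, text_drop_rev hn2,
        hd, hd2, List.nil_append, List.append_assoc, List.cons_append]
  | sig b x y =>
    simp only [srcOf, Option.some.injEq, Prod.mk.injEq] at h1
    obtain ⟨rfl, rfl⟩ := h1
    simp only [cols] at h2 h3 h4 h5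
    rw [Option.ite_none_right_eq_some] at h2
    obtain ⟨rfl, h2⟩ := h2
    rw [Option.some.injEq] at h2
    subst h2
    have hI := h5 (I b) (by simp) (by simp)
    have hX := h5 (X b) (by simp) (by simp)
    have hX' := h5 (X (!b)) (by simp) (by simp)
    simp only [Phi, zok_push (n := 0) h3, hI, hX, hX', h4, zok_zero, true_and]
  | ex b =>
    simp only [srcOf, Option.some.injEq, Prod.mk.injEq] at h1
    obtain ⟨rfl, rfl⟩ := h1
    simp only [cols] at h2 h3 h4 h5
    rw [Option.ite_none_right_eq_some] at h2
    obtain ⟨rfl, h2⟩ := h2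
    rw [Option.some.injEq] at h2
    subst h2
    have hI' := h5 (I (!b)) (by simp) (by simp)
    have hX' := h5 (X (!b)) (by simp) (by simp)
    cases b
    · simp only [Phi, Cont, h3]
      simp
    · simp only [Phi, h3]
      simp only [Bool.not_true] at hI' hX' ⊢
      rw [hI', hX']
      simp
  | ex2 b =>
    cases b
    · simp [srcOf] at h1
    simp only [srcOf, Option.some.injEq, Prod.mk.injEq] at h1
    obtain ⟨rfl, rfl⟩ := h1
    simp only [cols] at h2 h3 h4 h5
    rw [Option.ite_none_right_eq_some] at h2
    obtain ⟨rfl, h2⟩ := h2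
    rw [Option.some.injEq] at h2
    subst h2
    have hI := h5 (I false) (by simp) (by simp)
    simp only [Phi, Cont, zok_push (n := 0) h4, zok_zero, true_and, and_true, hI, h3,
      List.cons.injEq]

/-- The configuration after a step. -/
theorem exists_step {w : Stk → List (Ltr S)} {j j' : St Pr u.length} {k : Cl Pr u.length}
    {a b : Ltr S} {t : List (Ltr S)} (h1 : srcOf j = some (k, a))
    (h2 : (cols Pr κ u hP k).tg b = some j') (h3 : w (cols Pr κ u hP k).tp = b :: t) :
    ∃ w', Step (cols Pr κ u hP) (w, j) (w', j') := by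
  have hne := (cols Pr κ u hP k).ne
  refine ⟨Function.update (push (cols Pr κ u hP k).sp a w) (cols Pr κ u hP k).tp t, ?_⟩
  rw [step_iff]
  refine ⟨k, a, b, h1, (tg_iff hP _ _ _).1 h2, ?_, ?_, ?_⟩
  · simp [h3]
  · simp [hne]
  · intro r hr1 hr2
    rw [Function.update_of_ne hr2, push_ne hr1]

/-- An accepting configuration that is not final has a successor. -/
theorem phi_succ {w : Stk → List (Ltr S)} {j : St Pr u.length} (h : Phi κ (w, j))
    (hj : j ≠ .ex2 false) : ∃ w' j', Step (cols Pr κ u hP) (w, j) (w', j') := by
  have hz : ∀ {n : ℕ}, Zok (n + 1) w → ∃ t, w Z = du :: t := by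
    rintro n ⟨r, hr⟩
    exact ⟨List.replicate n du ++ r, by rw [hr, List.replicate_succ]; rfl⟩
  cases j with
  | ch i =>
    simp only [Phi] at h
    obtain ⟨h0, V, r, r', e1, e2, e3⟩ := h
    by_cases hi : i.val < u.length
    · rw [text_drop hi, List.cons_append] at e2
      obtain ⟨w', hw⟩ := exists_step (κ := κ) hP (j := .ch i) (w := w)
        (j' := .ch ⟨i.val + 1, by omega⟩) (b := s u[i.val]) (t := _) rfl
        (by simp [cols, ctl_lt hi, hi]) (by simp only [cols, ctp, if_pos hi]; exact e2)
      exact ⟨w', _, hw⟩
    · obtain ⟨t, ht⟩ := hz (n := 1) h0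
      have hi2 : i.val = u.length := by omega
      obtain ⟨w', hw⟩ := exists_step (κ := κ) hP (j := .ch i) (w := w)
        (j' := .en true) (b := du) (t := t) rfl
        (by simp [cols, ctl_len, hi2]) (by simp only [cols, ctp, if_neg hi]; exact ht)
      exact ⟨w', _, hw⟩
  | en b =>
    simp only [Phi] at h
    obtain ⟨t, ht⟩ := hz (n := 0) h.1
    obtain ⟨w', hw⟩ := exists_step (κ := κ) hP (j := .en b) (w := w)
      (j' := .m b) (b := du) (t := t) rfl (by simp [cols]) ht
    exact ⟨w', _, hw⟩
  | m b =>
    simp only [Phi] at h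
    obtain ⟨_ | ⟨⟨x, y⟩, V⟩, r, r', e1, e2, e3⟩ := h
    · obtain ⟨w', hw⟩ := exists_step (κ := κ) hP (j := .m b) (w := w)
        (j' := .ex b) (b := mk) (t := r) rfl (by simp [cols])
        (show w (I b) = mk :: r by simpa [idx] using e1)
      exact ⟨w', _, hw⟩
    · obtain ⟨w', hw⟩ := exists_step (κ := κ) hP (j := .m b) (w := w)
        (j' := .tau b x y ⟨0, by omega⟩) (b := pr x y) (t := idx V ++ mk :: r) rfl
        (by simp [cols]) (show w (I b) = pr x y :: (idx V ++ mk :: r) by simpa [idx] using e1)
      exact ⟨w', _, hw⟩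
  | tau b x y i =>
    simp only [Phi] at h
    obtain ⟨h0, V, r, r', e1, e2, e3⟩ := h
    by_cases hi : i.val < (Q Pr b x y).length
    · rw [text_drop hi, List.cons_append] at e2
      obtain ⟨w', hw⟩ := exists_step (κ := κ) hP (j := .tau b x y i) (w := w)
        (j' := .tau b x y ⟨i.val + 1, by omega⟩) (b := s (Q Pr b x y)[i.val]) (t := _) rfl
        (by simp [cols, ctl_lt hi, hi]) (by simp only [cols, ctp, if_pos hi]; exact e2)
      exact ⟨w', _, hw⟩
    · have hpos := List.length_pos_iff.2 (Q_ne Pr hP b x y)
      have hi2 : i.val = (Q Pr b x y).length := by omega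
      obtain ⟨t, ht⟩ := hz (n := 1) (by
        have : min (i.val + 1) 2 = 2 := by omega
        rwa [this] at h0)
      obtain ⟨w', hw⟩ := exists_step (κ := κ) hP (j := .tau b x y i) (w := w)
        (j' := .sig b x y) (b := du) (t := t) rfl
        (by simp [cols, ctl_len, hi2]) (by simp only [cols, ctp, if_neg hi]; exact ht)
      exact ⟨w', _, hw⟩
  | sig b x y =>
    simp only [Phi] at h
    obtain ⟨t, ht⟩ := hz (n := 0) h.1
    obtain ⟨w', hw⟩ := exists_step (κ := κ) hP (j := .sig b x y) (w := w)
      (j' := .m b) (b := du) (t := t) rfl (by simp [cols]) ht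
    exact ⟨w', _, hw⟩
  | ex b =>
    simp only [Phi] at h
    obtain ⟨r', e, -⟩ := h
    obtain ⟨w', hw⟩ := exists_step (κ := κ) hP (j := .ex b) (w := w)
      (j' := .ex2 b) (b := mk) (t := r') rfl (by simp [cols]) e
    exact ⟨w', _, hw⟩
  | ex2 b =>
    cases b
    · exact absurd rfl hj
    simp only [Phi, Cont] at h
    obtain ⟨V, r, r', e1, e2⟩ := h
    obtain ⟨w', hw⟩ := exists_step (κ := κ) hP (j := .ex2 true) (w := w)
      (j' := .en false) (b := s κ) (t := _) rfl (by simp [cols]) e2
    exact ⟨w', _, hw⟩

/-- The termination measure. -/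
def mu : (Stk → List (Ltr S)) × St Pr u.length → ℕ ×ₗ ℕ ×ₗ ℕ
  | (_, .ch i) => toLex (5, toLex (0, u.length - i.val))
  | (_, .en b) => toLex (if b then 4 else 2, toLex (0, 0))
  | (w, .m b) => toLex (if b then 3 else 1, toLex ((w (I b)).length, 0))
  | (w, .tau b x y i) => toLex (if b then 3 else 1,
      toLex ((w (I b)).length, 2 + (Q Pr b x y).length - i.val))
  | (w, .sig b _ _) => toLex (if b then 3 else 1, toLex ((w (I b)).length, 1))
  | (_, .ex b) => toLex (if b then 2 else 0, toLex (0, 2))
  | (_, .ex2 b) => toLex (if b then 2 else 0, toLex (0, 1))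

theorem lex_lt {a b c a' b' c' : ℕ} (h : a < a' ∨ (a = a' ∧ (b < b' ∨ (b = b' ∧ c < c')))) :
    (toLex (a, toLex (b, c)) : ℕ ×ₗ ℕ ×ₗ ℕ) < toLex (a', toLex (b', c')) := by
  rw [Prod.Lex.toLex_lt_toLex]
  rcases h with h | ⟨h, h2⟩
  · exact Or.inl h
  · refine Or.inr ⟨h, ?_⟩
    simp only
    rw [Prod.Lex.toLex_lt_toLex]
    exact h2

theorem mu_lt {x y : (Stk → List (Ltr S)) × St Pr u.length}
    (h : Step (cols Pr κ u hP) x y) : mu y < mu x := by
  obtain ⟨w, j⟩ := x
  obtain ⟨w', j'⟩ := y
  rw [step_iff] at h
  obtain ⟨k, a, b, h1, h2, h3, h4, h5⟩ := h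
  rw [← tg_iff hP] at h2
  cases j with
  | ch i =>
    simp only [srcOf, Option.some.injEq, Prod.mk.injEq] at h1
    obtain ⟨rfl, rfl⟩ := h1
    simp only [cols] at h2
    rw [Option.ite_none_right_eq_some] at h2
    obtain ⟨rfl, h2⟩ := h2
    split_ifs at h2 with hi
    · rw [Option.some.injEq] at h2
      subst h2
      refine lex_lt (Or.inr ⟨rfl, Or.inr ⟨rfl, ?_⟩⟩)
      show u.length - (i.val + 1) < u.length - i.val
      omega
    · rw [Option.some.injEq] at h2
      subst h2
      exact lex_lt (by simp)
  | en b =>
    simp only [srcOf, Option.some.injEq, Prod.mk.injEq] at h1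
    obtain ⟨rfl, rfl⟩ := h1
    simp only [cols] at h2
    rw [Option.ite_none_right_eq_some, Option.some.injEq] at h2
    obtain ⟨rfl, rfl⟩ := h2
    exact lex_lt (by cases b <;> simp)
  | m b =>
    simp only [srcOf, Option.some.injEq, Prod.mk.injEq] at h1
    obtain ⟨rfl, rfl⟩ := h1
    simp only [cols] at h2 h3
    rename_i l
    cases l with
    | s x => simp at h2
    | du => simp at h2
    | pr x y =>
      rw [Option.some.injEq] at h2
      subst h2
      refine lex_lt (Or.inr ⟨rfl, Or.inl ?_⟩)
      rw [h3]
      simp
    | mk =>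
      rw [Option.some.injEq] at h2
      subst h2
      exact lex_lt (by cases b <;> simp)
  | tau b x y i =>
    simp only [srcOf, Option.some.injEq, Prod.mk.injEq] at h1
    obtain ⟨rfl, rfl⟩ := h1
    simp only [cols] at h2 h5
    rw [Option.ite_none_right_eq_some] at h2
    obtain ⟨rfl, h2⟩ := h2
    have hI := h5 (I b) (by split_ifs <;> simp) (by unfold ctp; split_ifs <;> simp)
    split_ifs at h2 with hi
    · rw [Option.some.injEq] at h2
      subst h2
      simp only [mu, hI]
      exact lex_lt (by omega)
    · rw [Option.some.injEq] at h2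
      subst h2
      simp only [mu, hI]
      exact lex_lt (by omega)
  | sig b x y =>
    simp only [srcOf, Option.some.injEq, Prod.mk.injEq] at h1
    obtain ⟨rfl, rfl⟩ := h1
    simp only [cols] at h2 h5
    rw [Option.ite_none_right_eq_some, Option.some.injEq] at h2
    obtain ⟨rfl, rfl⟩ := h2
    have hI := h5 (I b) (by simp) (by simp)
    simp only [mu, hI]
    exact lex_lt (by omega)
  | ex b =>
    simp only [srcOf, Option.some.injEq, Prod.mk.injEq] at h1
    obtain ⟨rfl, rfl⟩ := h1
    simp only [cols] at h2
    rw [Option.ite_none_right_eq_some, Option.some.injEq] at h2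
    obtain ⟨rfl, rfl⟩ := h2
    exact lex_lt (by omega)
  | ex2 b =>
    cases b
    · simp [srcOf] at h1
    simp only [srcOf, Option.some.injEq, Prod.mk.injEq] at h1
    obtain ⟨rfl, rfl⟩ := h1
    simp only [cols] at h2
    rw [Option.ite_none_right_eq_some, Option.some.injEq] at h2
    obtain ⟨rfl, rfl⟩ := h2
    exact lex_lt (by simp)

theorem phi_reach (x : (Stk → List (Ltr S)) × St Pr u.length) (h : Phi κ x) :
    ∃ y, IsEnd (cols Pr κ u hP) y.2 ∧ ReflTransGen (Step (cols Pr κ u hP)) x y := by
  have wf : WellFounded fun a b : (Stk → List (Ltr S)) × St Pr u.length => mu a < mu b :=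
    InvImage.wf mu wellFounded_lt
  induction x using wf.induction with
  | _ x ih =>
    by_cases hx : x.2 = .ex2 false
    · exact ⟨x, (isEnd_iff hP _).2 hx, ReflTransGen.refl⟩
    · obtain ⟨w', j', hs⟩ := phi_succ (κ := κ) hP (w := x.1) (j := x.2) h hx
      obtain ⟨y, hy, hr⟩ := ih (w', j') (mu_lt hP hs) ((phi_step hP hs).1 h)
      exact ⟨y, hy, hr.head hs⟩

theorem reach_phi {x y : (Stk → List (Ltr S)) × St Pr u.length}
    (hy : IsEnd (cols Pr κ u hP) y.2) (h : ReflTransGen (Step (cols Pr κ u hP)) x y) :
    Phi κ x := by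
  induction h using ReflTransGen.head_induction_on with
  | refl =>
    rw [isEnd_iff] at hy
    obtain ⟨w, j⟩ := y
    simp only at hy
    subst hy
    trivial
  | head h _ ih => exact (phi_step hP h).2 ih

theorem split_mk {V : List (S × S)} {V' : List (S × S)} {r r' : List (Ltr S)}
    (h : idx V ++ mk :: r = idx V' ++ mk :: r') : V = V' ∧ r = r' := by
  induction V generalizing V' with
  | nil =>
    cases V' with
    | nil => simpa [idx] using h
    | cons v V' => simp [idx] at h
  | cons v V ih =>
    cases V' with
    | nil => simp [idx] at h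
    | cons v' V' =>
      simp only [idx, List.map_cons, List.cons_append, List.cons.injEq, Ltr.pr.injEq] at h
      obtain ⟨⟨h1, h2⟩, h3⟩ := h
      obtain ⟨h4, h5⟩ := ih h3
      exact ⟨by rw [h4, Prod.ext h1 h2], h5⟩

theorem split_mk' {V : List S} {V' : List S} {r r' : List (Ltr S)}
    (h : text V ++ mk :: r = text V' ++ mk :: r') : V = V' ∧ r = r' := by
  induction V generalizing V' with
  | nil =>
    cases V' with
    | nil => simpa [text] using h
    | cons v V' => simp [text] at h
  | cons v V ih =>
    cases V' with
    | nil => simp [text] at h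
    | cons v' V' =>
      simp only [text, List.map_cons, List.cons_append, List.cons.injEq, Ltr.s.injEq] at h
      obtain ⟨h1, h3⟩ := h
      obtain ⟨h4, h5⟩ := ih h3
      exact ⟨by rw [h4, h1], h5⟩

theorem al_false_reverse (V : List (S × S)) :
    (al Pr false V.reverse).reverse = V.flatMap fun v => [v.1, v.2] := by
  induction V with
  | nil => rfl
  | cons v V ih =>
    unfold al at ih ⊢
    rw [List.reverse_cons, List.flatMap_append, List.reverse_append, ih]
    simp [Q]

/-- The machine has an accepting path exactly if the equation has a solution. -/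
theorem accept_iff :
    (∃ x y : (Stk → List (Ltr S)) × St Pr u.length, IsStart (cols Pr κ u hP) x.2 ∧
      IsEnd (cols Pr κ u hP) y.2 ∧ ReflTransGen (Step (cols Pr κ u hP)) x y) ↔
    ∃ V : List (S × S), u ++ V.flatMap (fun v => Pr v.1 v.2) =
      V.flatMap (fun v => [v.1, v.2]) ++ [κ] := by
  constructor
  · rintro ⟨⟨w, j⟩, y, hx, hy, h⟩
    have hphi := reach_phi hP hy h
    rw [isStart_iff] at hx
    simp only at hx
    subst hx
    simp only [Phi, Cont] at hphi
    obtain ⟨-, V, r, r', e1, e2, V', r1, r2, e3, e4⟩ := hphi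
    obtain ⟨rfl, -⟩ := split_mk e3
    have hc : (clt mk u 0 : Ltr S) = mk := by simp [clt]
    rw [hc, List.drop_zero] at e4
    have e5 : text (u ++ al Pr true V).reverse ++ mk :: w (X false) =
        text (κ :: al Pr false V.reverse) ++ mk :: r2 := e4
    obtain ⟨e6, -⟩ := split_mk' e5
    refine ⟨V, ?_⟩
    have e7 := congrArg List.reverse e6
    rw [List.reverse_reverse, List.reverse_cons, al_false_reverse] at e7
    exact e7
  · rintro ⟨V, hV⟩
    have h6 : (u ++ al Pr true V).reverse = κ :: al Pr false V.reverse := by
      have e7 : (u ++ al Pr true V) = (κ :: al Pr false V.reverse).reverse := by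
        rw [List.reverse_cons, al_false_reverse]
        exact hV
      rw [e7, List.reverse_reverse]
    let w : Stk → List (Ltr S)
      | X true => text (u ++ al Pr true V) ++ [mk]
      | I true => idx V ++ [mk]
      | Z => [du, du]
      | _ => []
    obtain ⟨y, hy, hr⟩ := phi_reach (κ := κ) hP (w, .ch ⟨0, by omega⟩) (by
      simp only [Phi, Cont]
      refine ⟨⟨[], rfl⟩, V, [], [], rfl, rfl, V.reverse, [], [], rfl, ?_⟩
      have hc : (clt mk u 0 : Ltr S) = mk := by simp [clt]
      rw [hc, List.drop_zero, h6]
      rfl)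
    exact ⟨_, y, (isStart_iff hP _).2 rfl, hy, hr⟩

end Pool.Agent.Helper522.Kos.Mach
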