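import Mathlib
import Pool.Agent.Helper522.Kos.Code
import Pool.Agent.Helper522.Kos.Mach

/-!
The table of the machine and its computability.
-/

set_option autoImplicit false

namespace Pool.Agent.Helper522.Kos.Mach

open Stk Ltr Pool.Agent.Helper522.Kos

instance : Fintype Stk := ⟨{X true, X false, I true, I false, Z}, by
  intro x
  rcases x with b | b | _
  · cases b <;> decide
  · cases b <;> decide
  · decide⟩

section

variable {S : Type} [DecidableEq S] [Fintype S] (Pr : S → S → List S)

noncomputable instance : Fintype (Ltr S) :=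
  Fintype.ofInjective (fun l : Ltr S => match l with
    | .s x => (Sum.inl x : S ⊕ (S × S) ⊕ Bool)
    | .pr x y => Sum.inr (Sum.inl (x, y))
    | .mk => Sum.inr (Sum.inr true)
    | .du => Sum.inr (Sum.inr false)) (by
      intro a b h
      cases a <;> cases b <;> simp_all)

/-- The fixed columns. -/
abbrev Fx := Bool ⊕ Bool ⊕ Bool ⊕ Unit ⊕
  (Σ b : Bool, Σ x : S, Σ y : S, Fin ((Q Pr b x y).length + 1))

/-- The fixed states. -/
abbrev Fs := Bool ⊕ Bool ⊕ Bool ⊕ Bool ⊕ (Bool × S × S) ⊕
  (Σ b : Bool, Σ x : S, Σ y : S, Fin ((Q Pr b x y).length + 1))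

variable {Pr}

omit [DecidableEq S] [Fintype S] in
/-- The fixed columns. -/
def fx (L : ℕ) : Fx Pr → Cl Pr L
  | .inl b => .M b
  | .inr (.inl b) => .G b
  | .inr (.inr (.inl b)) => .E b
  | .inr (.inr (.inr (.inl _))) => .F
  | .inr (.inr (.inr (.inr ⟨b, x, y, i⟩))) => .T b x y i

/-- The columns are the fixed columns and the chain. -/
def clEquiv (L : ℕ) : Cl Pr L ≃ Fx Pr ⊕ Fin (L + 1) where
  toFun := fun k => match k with
    | .ch i => .inr i
    | .M b => .inl (.inl b)
    | .G b => .inl (.inr (.inl b))
    | .E b => .inl (.inr (.inr (.inl b)))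
    | .F => .inl (.inr (.inr (.inr (.inl ()))))
    | .T b x y i => .inl (.inr (.inr (.inr (.inr ⟨b, x, y, i⟩))))
  invFun := fun k => match k with
    | .inl f => fx L f
    | .inr i => .ch i
  left_inv := by intro k; cases k <;> rfl
  right_inv := by rintro ((b | b | b | ⟨⟩ | ⟨b, x, y, i⟩) | i) <;> rfl

/-- The numbering of the columns. -/
noncomputable def clFin (L : ℕ) : Fin (Fintype.card (Fx Pr) + (L + 1)) ≃ Cl Pr L :=
  finSumFinEquiv.symm.trans
    ((Equiv.sumCongr (Fintype.equivFin _).symm (Equiv.refl _)).trans (clEquiv L).symm)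

/-- The kind of a state. -/
def stS (L : ℕ) : St Pr L → Fs Pr ⊕ ℕ
  | .ch i => .inr i
  | .en b => .inl (.inl b)
  | .m b => .inl (.inr (.inl b))
  | .ex b => .inl (.inr (.inr (.inl b)))
  | .ex2 b => .inl (.inr (.inr (.inr (.inl b))))
  | .sig b x y => .inl (.inr (.inr (.inr (.inr (.inl (b, x, y))))))
  | .tau b x y i => .inl (.inr (.inr (.inr (.inr (.inr ⟨b, x, y, i⟩)))))

theorem stS_inj (L : ℕ) : Function.Injective (stS (Pr := Pr) L) := by
  intro j j' h
  cases j <;> cases j' <;> simp_all [stS, Fin.ext_iff]
  obtain ⟨rfl, h⟩ := h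
  have h := eq_of_heq h
  cases h
  exact ⟨rfl, rfl, HEq.rfl⟩

end

/-- The numbering of a finite type followed by the natural numbers. -/
noncomputable def num (F : Type) [Fintype F] : F ⊕ ℕ → ℕ
  | .inl f => (Fintype.equivFin F f).val
  | .inr i => Fintype.card F + i

theorem num_inj (F : Type) [Fintype F] : Function.Injective (num F) := by
  intro a b h
  rcases a with a | a <;> rcases b with b | b
  · simp only [num, Fin.val_inj, EmbeddingLike.apply_eq_iff_eq] at h
    rw [h]
  · simp only [num] at h
    have := (Fintype.equivFin F a).isLt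
    omega
  · simp only [num] at h
    have := (Fintype.equivFin F b).isLt
    omega
  · simp only [num] at h
    have : a = b := by omega
    rw [this]

section

variable {S : Type} [DecidableEq S] [Fintype S] {Pr : S → S → List S} (κ : S)
  (hP : ∀ x y, Pr x y ≠ []) {V : ℕ} (eV : Stk × Ltr S ≃ Fin V)

/-- The number of a state. -/
noncomputable def sc (L : ℕ) (j : St Pr L) : ℕ := num (Fs Pr) (stS L j)

theorem sc_inj (L : ℕ) : Function.Injective (sc (Pr := Pr) L) :=
  (num_inj _).comp (stS_inj L)

/-- The number of an optional state. -/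
noncomputable def oc {L : ℕ} (o : Option (St Pr L)) : ℕ := o.elim 0 fun j => sc _ j + 1

/-- The entries of the table. -/
noncomputable def entry (u : List S) (k : Cl Pr u.length) (v : Fin V) : ℕ :=
  oc (tgt (cols Pr κ u hP) k (eV.symm v).1 (eV.symm v).2)

theorem oc_tgt {C : Type} {L : ℕ} (c : C → Col Stk (Ltr S) (St Pr L)) (k : C) (p : Stk)
    (a : Ltr S) : oc (tgt c k p a) = if p = (c k).sp then oc ((c k).src a)
      else if p = (c k).tp then oc ((c k).tg a) else 0 := by
  unfold tgt
  split_ifs <;> rfl

theorem fx_sp (u : List S) (f : Fx Pr) :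
    (cols Pr κ u hP (fx _ f)).sp = (cols Pr κ [] hP (fx _ f)).sp := by
  rcases f with b | b | b | ⟨⟩ | ⟨b, x, y, i⟩ <;> rfl

theorem fx_tp (u : List S) (f : Fx Pr) :
    (cols Pr κ u hP (fx _ f)).tp = (cols Pr κ [] hP (fx _ f)).tp := by
  rcases f with b | b | b | ⟨⟩ | ⟨b, x, y, i⟩ <;> rfl

theorem fx_src (u : List S) (f : Fx Pr) (a : Ltr S) :
    oc ((cols Pr κ u hP (fx _ f)).src a) = oc ((cols Pr κ [] hP (fx _ f)).src a) := by
  rcases f with b | b | b | ⟨⟩ | ⟨b, x, y, i⟩
  · simp only [fx, cols]; split_ifs <;> rfl
  · simp only [fx, cols]; cases a <;> rfl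
  · simp only [fx, cols]; split_ifs <;> rfl
  · simp only [fx, cols]; split_ifs <;> rfl
  · simp only [fx, cols]; split_ifs <;> rfl

theorem fx_tg (u : List S) (f : Fx Pr) (a : Ltr S) :
    oc ((cols Pr κ u hP (fx _ f)).tg a) = oc ((cols Pr κ [] hP (fx _ f)).tg a) := by
  rcases f with b | b | b | ⟨⟩ | ⟨b, x, y, i⟩
  · simp only [fx, cols]; cases a <;> rfl
  · simp only [fx, cols]; split_ifs <;> rfl
  · simp only [fx, cols]; split_ifs <;> rfl
  · simp only [fx, cols]; split_ifs <;> rfl
  · simp only [fx, cols]; split_ifs <;> rfl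

theorem entry_fx (u : List S) (f : Fx Pr) (v : Fin V) :
    entry κ hP eV u (fx _ f) v = entry κ hP eV [] (fx _ f) v := by
  unfold entry
  rw [oc_tgt, oc_tgt, fx_sp, fx_tp, fx_src, fx_tg]

theorem entry_ch (u : List S) (i : Fin (u.length + 1)) (v : Fin V) :
    entry κ hP eV u (.ch i) v =
      if v.val = (eV (X false, clt mk u i)).val then Fintype.card (Fs Pr) + i.val + 1
      else if v.val = (eV (ctp true u i, ctl u i)).val then
        (if i.val < u.length then Fintype.card (Fs Pr) + i.val + 2
          else num (Fs Pr) (.inl (.inl true)) + 1)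
      else 0 := by
  have e1 : ∀ q : Stk × Ltr S, (v.val = (eV q).val ↔ eV.symm v = q) := by
    intro q
    rw [Equiv.symm_apply_eq, Fin.ext_iff]
  simp only [e1]
  unfold entry
  rw [oc_tgt]
  rcases hv : eV.symm v with ⟨p, a⟩
  have esp : (cols Pr κ u hP (.ch i)).sp = X false := rfl
  have etp : (cols Pr κ u hP (.ch i)).tp = ctp true u i := rfl
  have esrc : (cols Pr κ u hP (.ch i)).src a = if a = clt mk u i then some (.ch i) else none :=
    rfl
  have etg : (cols Pr κ u hP (.ch i)).tg a = if a = ctl u i then
          (if h : i.val < u.length then some (.ch ⟨i.val + 1, by omega⟩) else some (.en true))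
        else none := rfl
  rw [esp, etp, esrc, etg]
  simp only [Prod.mk.injEq]
  have hne : X false ≠ ctp true u i.val := by unfold ctp; split_ifs <;> simp
  by_cases h1 : p = X false
  · rw [if_pos h1]
    by_cases h2 : a = clt mk u i
    · rw [if_pos h2, if_pos ⟨h1, h2⟩]; rfl
    · rw [if_neg h2, if_neg (fun h => h2 h.2), if_neg]
      · rfl
      rintro ⟨h3, -⟩
      exact hne (h1.symm.trans h3)
  · rw [if_neg h1, if_neg (fun h : p = X false ∧ a = clt mk u i => h1 h.1)]
    by_cases h2 : p = ctp true u i
    · rw [if_pos h2]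
      by_cases h3 : a = ctl u i
      · rw [if_pos h3, if_pos ⟨h2, h3⟩]
        by_cases h4 : i.val < u.length
        · rw [dif_pos h4, if_pos h4]; rfl
        · rw [dif_neg h4, if_neg h4]; rfl
      · rw [if_neg h3, if_neg (fun h => h3 h.2)]; rfl
    · rw [if_neg h2, if_neg (fun h => h2 h.1)]

/-- The rows of the fixed columns. -/
noncomputable def fixT : List (List ℕ) :=
  (List.finRange (Fintype.card (Fx Pr))).map fun f =>
    (List.finRange V).map fun v => entry κ hP eV [] (fx _ ((Fintype.equivFin _).symm f)) v

end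

/-- The rows of the chain. -/
def chT (V m1 z1 j0 e1 : ℕ) (l1 l2 : List ℕ) : List (List ℕ) :=
  (List.range (l1.length + 1)).map fun i => (List.range V).map fun v =>
    if v = (m1 :: l1).getD i 0 then j0 + i + 1
    else if v = (l2 ++ [z1]).getD i 0 then (if i < l1.length then j0 + i + 2 else e1)
    else 0

section

variable {S : Type} [DecidableEq S] [Fintype S] {Pr : S → S → List S} (κ : S)
  (hP : ∀ x y, Pr x y ≠ []) {V : ℕ} (eV : Stk × Ltr S ≃ Fin V)

/-- The table of the machine. -/
noncomputable def tab (u : List S) : List (List ℕ) :=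
  fixT κ hP eV ++ chT V (eV (X false, mk)) (eV (Z, du)) (Fintype.card (Fs Pr))
    (num (Fs Pr) (.inl (.inl true)) + 1)
    (u.map fun x => (eV (X false, s x)).val) (u.map fun x => (eV (X true, s x)).val)

theorem ent_tab (u : List S) (k : Fin (Fintype.card (Fx Pr) + (u.length + 1))) (v : Fin V) :
    ent (tab κ hP eV u) k v = entry κ hP eV u (clFin u.length k) v := by
  obtain ⟨k, rfl⟩ := finSumFinEquiv.surjective k
  have hlen : (fixT κ hP eV).length = Fintype.card (Fx Pr) := by simp [fixT]
  rcases k with f | i
  · have h1 : clFin (Pr := Pr) u.length (finSumFinEquiv (Sum.inl f)) =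
        fx _ ((Fintype.equivFin _).symm f) := by
      unfold clFin
      rw [Equiv.trans_apply, Equiv.symm_apply_apply]
      rfl
    rw [h1, entry_fx]
    have h2 : ((finSumFinEquiv (Sum.inl f) :
        Fin (Fintype.card (Fx Pr) + (u.length + 1))) : ℕ) = f.val := by simp
    rw [h2]
    unfold ent tab
    rw [List.getD_append _ _ _ _ (by rw [hlen]; exact f.2)]
    unfold fixT
    have e1 : (List.finRange (Fintype.card (Fx Pr)))[f.val]? = some f := by
      rw [List.getElem?_eq_getElem (by rw [List.length_finRange]; exact f.2)]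
      simp
    simp [List.getD_eq_getElem?_getD, List.getElem?_map, e1]
  · have h1 : clFin (Pr := Pr) u.length (finSumFinEquiv (Sum.inr i)) = .ch i := by
      unfold clFin
      rw [Equiv.trans_apply, Equiv.symm_apply_apply]
      rfl
    rw [h1, entry_ch]
    have h2 : ((finSumFinEquiv (Sum.inr i) :
        Fin (Fintype.card (Fx Pr) + (u.length + 1))) : ℕ) = Fintype.card (Fx Pr) + i.val := by
      simp
    rw [h2]
    unfold ent tab
    rw [List.getD_append_right _ _ _ _ (by rw [hlen]; omega), hlen, Nat.add_sub_cancel_left]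
    unfold chT
    have hi := i.2
    have e1 : (((List.range ((u.map fun x => (eV (X false, s x)).val).length + 1)).map fun i =>
        (List.range V).map fun v =>
        if v = ((eV (X false, mk)).val :: (u.map fun x => (eV (X false, s x)).val)).getD i 0
          then Fintype.card (Fs Pr) + i + 1
        else if v = ((u.map fun x => (eV (X true, s x)).val) ++ [(eV (Z, du)).val]).getD i 0
          then (if i < (u.map fun x => (eV (X false, s x)).val).length
            then Fintype.card (Fs Pr) + i + 2 else num (Fs Pr) (.inl (.inl true)) + 1)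
        else 0).getD i.val []).getD v.val 0 =
        if v.val = ((eV (X false, mk)).val :: (u.map fun x => (eV (X false, s x)).val)).getD
            i.val 0 then Fintype.card (Fs Pr) + i.val + 1
        else if v.val = ((u.map fun x => (eV (X true, s x)).val) ++ [(eV (Z, du)).val]).getD
            i.val 0
          then (if i.val < (u.map fun x => (eV (X false, s x)).val).length
            then Fintype.card (Fs Pr) + i.val + 2 else num (Fs Pr) (.inl (.inl true)) + 1)
        else 0 := by
      have f1 : (List.range ((u.map fun x => (eV (X false, s x)).val).length + 1))[i.val]? =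
          some i.val := List.getElem?_range (by simpa using hi)
      have f2 : (List.range V)[v.val]? = some v.val := List.getElem?_range v.2
      rw [List.getD_eq_getElem?_getD (l := List.map _ (List.range _)), List.getElem?_map, f1]
      simp only [Option.map_some, Option.getD_some]
      rw [List.getD_eq_getElem?_getD (l := List.map _ (List.range _)), List.getElem?_map, f2]
      simp only [Option.map_some, Option.getD_some]
    refine e1.trans ?_
    have e2 : ((eV (X false, mk)).val :: (u.map fun x => (eV (X false, s x)).val)).getD i.val 0 =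
        (eV (X false, clt mk u i)).val := by
      unfold clt
      rcases hh : i.val with _ | n
      · simp
      · have hn : n < u.length := by omega
        simp [List.getElem?_eq_getElem hn]
    have e3 : ((u.map fun x => (eV (X true, s x)).val) ++ [(eV (Z, du)).val]).getD i.val 0 =
        (eV (ctp true u i, ctl u i)).val := by
      unfold ctp ctl
      by_cases hn : i.val < u.length
      · rw [List.getD_append _ _ _ _ (by simpa using hn), if_pos hn]
        simp [List.getElem?_eq_getElem hn]
      · have hn' : i.val = u.length := by omega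
        rw [List.getD_append_right _ _ _ _ (by simp; omega), if_neg hn]
        simp [hn']
    rw [e2, e3, List.length_map]

end

/-! ### Computability -/

theorem chT_primrec (V m1 z1 j0 e1 : ℕ) :
    Primrec fun t : List ℕ × List ℕ => chT V m1 z1 j0 e1 t.1 t.2 := by
  unfold chT
  refine Primrec.list_map (Primrec.list_range.comp
    (Primrec.succ.comp (Primrec.list_length.comp Primrec.fst))) ?_
  refine Primrec.list_map (Primrec.const _) ?_
  -- context: ((t, i), v)
  have hi : Primrec fun s : ((List ℕ × List ℕ) × ℕ) × ℕ => s.1.2 :=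
    Primrec.snd.comp Primrec.fst
  have hl1 : Primrec fun s : ((List ℕ × List ℕ) × ℕ) × ℕ => s.1.1.1 :=
    Primrec.fst.comp (Primrec.fst.comp Primrec.fst)
  have hl2 : Primrec fun s : ((List ℕ × List ℕ) × ℕ) × ℕ => s.1.1.2 :=
    Primrec.snd.comp (Primrec.fst.comp Primrec.fst)
  have hg1 : Primrec fun s : ((List ℕ × List ℕ) × ℕ) × ℕ => (m1 :: s.1.1.1).getD s.1.2 0 :=
    (Primrec.list_getD 0).comp (Primrec.list_cons.comp (Primrec.const _) hl1) hi
  have hg2 : Primrec fun s : ((List ℕ × List ℕ) × ℕ) × ℕ => (s.1.1.2 ++ [z1]).getD s.1.2 0 :=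
    (Primrec.list_getD 0).comp (Primrec.list_append.comp hl2 (Primrec.const _)) hi
  refine Primrec.ite (PrimrecRel.comp Primrec.eq Primrec.snd hg1) ?_
    (Primrec.ite (PrimrecRel.comp Primrec.eq Primrec.snd hg2)
      (Primrec.ite (PrimrecRel.comp Primrec.nat_lt hi (Primrec.list_length.comp hl1)) ?_ ?_) ?_)
  · exact Primrec.nat_add.comp (Primrec.nat_add.comp (Primrec.const _) hi) (Primrec.const _)
  · exact Primrec.nat_add.comp (Primrec.nat_add.comp (Primrec.const _) hi) (Primrec.const _)
  · exact Primrec.const _
  · exact Primrec.const _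

end Pool.Agent.Helper522.Kos.Mach
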