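import Mathlib
import Pool.Agent.Helper522.Kos.Table
import Pool.Agent.Helper522.Kos.Src

/-!
Linearity over the Koszul algebra of the machine.
-/

set_option autoImplicit false

namespace Pool.Agent.Helper522.Kos

open MvPolynomial Relation

/-! ### Reindexing the columns -/

section Reindex

variable {P A C C' J : Type} [DecidableEq P] (e : C' ≃ C) (c : C → Col P A J)

theorem step_comp {x y : (P → List A) × J} : Step (fun k => c (e k)) x y ↔ Step c x y := by
  constructor
  · rintro ⟨k, h⟩
    exact ⟨e k, h⟩
  · rintro ⟨k, h⟩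
    obtain ⟨k, rfl⟩ := e.surjective k
    exact ⟨k, h⟩

omit [DecidableEq P] in
theorem isStart_comp {j : J} : IsStart (fun k => c (e k)) j ↔ IsStart c j := by
  constructor
  · intro h k
    obtain ⟨k, rfl⟩ := e.surjective k
    exact h k
  · intro h k
    exact h (e k)

omit [DecidableEq P] in
theorem isEnd_comp {j : J} : IsEnd (fun k => c (e k)) j ↔ IsEnd c j := by
  constructor
  · intro h k
    obtain ⟨k, rfl⟩ := e.surjective k
    exact h k
  · intro h k
    exact h (e k)

omit [DecidableEq P] in
theorem rev_comp (h : Rev c) : Rev (fun k => c (e k)) where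
  src := by
    intro k k' a a' j h1 h2
    have := h.src _ _ _ _ _ h1 h2
    exact ⟨e.injective this.1, this.2⟩
  tg := by
    intro k k' a a' j h1 h2
    have := h.tg _ _ _ _ _ h1 h2
    exact ⟨e.injective this.1, this.2⟩

end Reindex

/-! ### The criterion -/

section Criterion

variable {K P A R : Type} [Field K] [DecidableEq P] [DecidableEq A] [CommRing R] [Algebra K R]
  [Fintype P] [Fintype A] {J : Type} (k : KR K P A R) {rk : P → ℕ}

theorem sum_single_smul {b : ℕ} (Ω : Submodule R (Fin b → R)) (v : Fin b → R) :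
    ∑ j, v j • (Submodule.Quotient.mk (Pi.single j 1) : (Fin b → R) ⧸ Ω) =
      Submodule.Quotient.mk v := by
  have h : v = ∑ j, v j • (Pi.single j 1 : Fin b → R) := by
    funext i
    rw [Finset.sum_apply, Finset.sum_eq_single i]
    · simp
    · intro j _ hj
      simp [Pi.single_eq_of_ne hj.symm]
    · intro h; exact absurd (Finset.mem_univ _) h
  conv_rhs => rw [h]
  rw [← Submodule.mkQ_apply, map_sum]
  refine Finset.sum_congr rfl fun j _ => ?_
  rw [map_smul]
  rfl

theorem regIs_iff (hrk : Function.Injective rk) {b : ℕ} (hb : 0 < b) (c : Fin b → Col P A J)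
    (hR : Rev c) (hocc : ∀ j, ∃ κ p a, tgt c κ p a = some j) {M : Type} [LinearOrder M]
    (μ : (P → List A) × J → M) (hμ : ∀ x y, Step c x y → μ y < μ x) {m : Ideal R}
    (hm : ∀ r, r ∈ m ↔ k.coef r (fun _ => none) = 0) :
    RegIs (fun e => (k.H e : Set R)) m (Om k c) 0 ↔
      ¬ ∃ x y : (P → List A) × J, IsStart c x.2 ∧ IsEnd c y.2 ∧ ReflTransGen (Step c) x y := by
  have hs : ∀ p (w : P → List A), sg K rk p w ≠ 0 := fun p w => sg_ne_zero rk p w
  constructor
  · rintro ⟨F, hF⟩ ⟨x, y, hx, hy, hxy⟩
    have hdeg : ∀ i j, F.deg i j ≤ i := by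
      intro i j
      have := hF.1 ⟨i, j, rfl⟩
      omega
    obtain ⟨f, hf1, hf2⟩ := ker_of_path (s := sg K rk) hs hR hx hy hxy
    refine hf2 (inj_of_lift (k := k) rk hocc (fun n z hz hsup => ?_) f hf1)
    exact lift_of_minRes hrk (Ω := Om k c) (fun v hv e => Om_homog hv e)
      (fun v hv => mem_Om_of_HF hv) (fun r hr => (hm r).1 hr) F hdeg hz hsup
  · intro hno
    have hinj : ∀ f, tr (sg K rk) c f = 0 → f = 0 := by
      intro f hf
      by_contra h0
      exact hno (path_of_ker hs μ hμ hf h0)
    have hgood := Om_good (k := k) rk (surj_of_inj (sg K rk) c hinj)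
    obtain ⟨F, hF1, hF2⟩ := exists_minRes hrk hgood (m := m)
      (fun r hr => by
        rw [hm]
        by_contra h1
        have := hr _ h1
        rw [dg_none] at this
        omega)
      (N := (Fin b → R) ⧸ Om k c)
      (gr := homQ (fun e => (k.H e : Set R)) (Om k c))
      (fun j => Submodule.Quotient.mk (Pi.single j 1))
      (fun j => ⟨Pi.single j 1, fun i => by
        by_cases h : i = j
        · subst h; rw [Pi.single_eq_same]; exact k.one_mem
        · rw [Pi.single_eq_of_ne h]; exact (k.H 0).zero_mem, rfl⟩)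
      (fun n => by
        obtain ⟨v, rfl⟩ := Submodule.Quotient.mk_surjective _ n
        exact ⟨v, sum_single_smul _ v⟩)
      (fun v => by rw [sum_single_smul, Submodule.Quotient.mk_eq_zero])
    refine ⟨F, ?_, ?_⟩
    · rintro t ⟨i, j, rfl⟩
      rw [hF1]
      simp
    · intro t ht
      have j0 : F.ι 0 := by rw [hF2]; exact ⟨0, hb⟩
      have := ht ⟨0, j0, rfl⟩
      rw [hF1] at this
      simpa using this

/-- The homogeneous maximal ideal. -/
theorem mem_irr_iff {V : ℕ} {g : List PolyCode} (hrk : Function.Injective rk) (e : P × A ≃ Fin V)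
    (k : KR K P A (Rg K (V, g)))
    (hk : ∀ p a, k.x p a = Ideal.Quotient.mk (idl K (V, g)) (X (e (p, a))))
    (r : Rg K (V, g)) : r ∈ irr K (V, g) ↔ k.coef r (fun _ => none) = 0 := by
  have hx : ∀ p a, k.x p a ∈ irr K (V, g) := by
    intro p a
    rw [hk]
    exact Ideal.subset_span ⟨_, rfl⟩
  constructor
  · intro h
    unfold irr at h
    rw [← Set.image_univ, ] at h
    refine Submodule.span_induction (p := fun r _ => k.coef r (fun _ => none) = 0)
      ?_ ?_ ?_ ?_ h
    · rintro _ ⟨v, -, rfl⟩
      have : cls K (V, g) (X v) = k.x (e.symm v).1 (e.symm v).2 := by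
        rw [hk, Prod.mk.eta, Equiv.apply_symm_apply]
        rfl
      simp only
      rw [this, ← mul_one (k.x _ _), k.coef_x]
      rfl
    · simp
    · intro a b _ _ ha hb
      rw [map_add, Pi.add_apply, ha, hb, add_zero]
    · intro a b _ hb
      rw [smul_eq_mul]
      -- by linearity and induction on `a`
      have key : ∀ a : Rg K (V, g), ∀ b, k.coef b (fun _ => none) = 0 →
          k.coef (a * b) (fun _ => none) = 0 := by
        intro a
        refine Algebra.adjoin_induction (p := fun a _ => ∀ b, k.coef b (fun _ => none) = 0 →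
          k.coef (a * b) (fun _ => none) = 0) ?_ ?_ ?_ ?_ (k.adj a)
        · rintro _ ⟨⟨p, a⟩, rfl⟩ b _
          rw [k.coef_x]
          rfl
        · intro s b hb
          rw [← Algebra.smul_def, map_smul, Pi.smul_apply, hb, smul_zero]
        · intro s t _ _ hs ht b hb
          rw [add_mul, map_add, Pi.add_apply, hs b hb, ht b hb, add_zero]
        · intro s t _ _ hs ht b hb
          rw [mul_assoc]
          exact hs _ (ht b hb)
      exact key a b hb
  · intro h
    rw [← k.sum_comp r]
    refine Ideal.sum_mem _ fun n _ => ?_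
    rcases n with _ | n
    · have h1 : k.comp 0 r = 0 := by
        rw [k.eq_of_mem_zero (k.comp_mem 0 r), k.coef_comp, dg_none, if_pos rfl, h, zero_smul]
      rw [h1]
      exact Ideal.zero_mem _
    · obtain ⟨y, -, hy⟩ := mem_span_x k hrk (k.comp_mem (n + 1) r)
      rw [hy]
      refine Ideal.sum_mem _ fun p _ => Ideal.sum_mem _ fun a _ => ?_
      exact Ideal.mul_mem_right _ _ (hx p a)

theorem gensOf_homog {V : ℕ} (e : P × A ≃ Fin V) (K : Type) [Field K] :
    ∀ p ∈ gensOf e, ∃ d, 2 ≤ d ∧ (poly K V p).IsHomogeneous d := by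
  intro p hp
  simp only [gensOf, List.mem_map, Finset.mem_toList, Finset.mem_univ, true_and] at hp
  obtain ⟨t, rfl⟩ := hp
  refine ⟨2, le_rfl, ?_⟩
  rw [poly_two]
  exact (isHomogeneous_X _ _).mul (isHomogeneous_X _ _)

/-- The algebra is Koszul. -/
theorem koszul_gensOf {V : ℕ} (hrk : Function.Injective rk) (e : P × A ≃ Fin V) (K : Type)
    [Field K] : Koszul K (V, gensOf e) := by
  refine ⟨gensOf_homog e K, ?_⟩
  obtain ⟨k, hk, hHR⟩ := exists_kr K e
  have hm := mem_irr_iff hrk e k hk
  let Ω : Submodule (Rg K (V, gensOf e)) (Fin 1 → Rg K (V, gensOf e)) :=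
    Submodule.comap (LinearMap.proj 0) (irr K (V, gensOf e))
  have hΩ : ∀ v, v ∈ Ω ↔ k.coef (v 0) (fun _ => none) = 0 := fun v => hm (v 0)
  have hgood : Good k rk Ω :=
    { homog := by
        intro v hv n
        rw [hΩ] at hv ⊢
        simp only [cF]
        rw [k.coef_comp, hv]
        simp
      zero := by
        intro v hv h0
        rw [hΩ] at hv
        funext i
        have hi : i = 0 := Subsingleton.elim _ _
        subst hi
        rw [k.eq_of_mem_zero (h0 0), hv, zero_smul]
        rfl
      lin := by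
        intro n z hz _
        refine ⟨fun _ => 0, fun _ _ => Submodule.zero_mem _, fun w => ?_⟩
        have h1 : dl k rk (fun _ => (0 : Fin 1 → Rg K (V, gensOf e))) w = 0 := by simp [dl]
        rw [h1, sub_zero, hΩ]
        by_contra h2
        have := hz w 0 _ h2
        rw [dg_none] at this
        omega }
  rw [hHR]
  obtain ⟨F, hF, -⟩ := exists_minRes hrk hgood (m := irr K (V, gensOf e))
      (fun r hr => by
        rw [hm]
        by_contra h1
        have := hr _ h1
        rw [dg_none] at this
        omega)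
      (N := Rg K (V, gensOf e) ⧸ irr K (V, gensOf e))
      (gr := fun n => {x | ∃ r ∈ (k.H n : Set (Rg K (V, gensOf e))),
        Ideal.Quotient.mk (irr K (V, gensOf e)) r = x})
      (fun _ => Ideal.Quotient.mk _ 1)
      (fun _ => ⟨1, k.one_mem, rfl⟩)
      (fun n => by
        obtain ⟨r, rfl⟩ := Ideal.Quotient.mk_surjective n
        refine ⟨fun _ => r, ?_⟩
        rw [Fin.sum_univ_one]
        change Ideal.Quotient.mk _ (r * 1) = _
        rw [mul_one])
      (fun v => by
        rw [Fin.sum_univ_one]
        change Ideal.Quotient.mk _ (v 0 * 1) = _ ↔ _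
        rw [mul_one, Ideal.Quotient.eq_zero_iff_mem]
        rfl)
  exact ⟨F, hF⟩

end Criterion

/-! ### The modules of the machine -/

section Machine

open Mach

/-- The numbering of the variables. -/
noncomputable def eV (S : Type) [DecidableEq S] [Fintype S] :
    Stk × Ltr S ≃ Fin (Fintype.card (Stk × Ltr S)) := Fintype.equivFin _

/-- The code of the ring. -/
noncomputable abbrev ringS (S : Type) [DecidableEq S] [Fintype S] : RingCode :=
  (Fintype.card (Stk × Ltr S), gensOf (eV S))

variable {S : Type} [DecidableEq S] [Fintype S] {Pr : S → S → List S} (κ : S)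
  (hP : ∀ x y, Pr x y ≠ [])

/-- The code of the module. -/
noncomputable def modS (u : List S) : ModCode :=
  (Fintype.card (Fx Pr) + (u.length + 1), relsOf (Fintype.card (Stk × Ltr S))
    (Fintype.card (Fx Pr) + (u.length + 1)) (tab κ hP (eV S) u))

/-- The numbering of the stacks. -/
noncomputable def rkS (p : Stk) : ℕ := (Fintype.equivFin Stk p).val

theorem rkS_inj : Function.Injective rkS := by
  intro p q h
  exact (Fintype.equivFin Stk).injective (Fin.ext h)

theorem koszul_ringS (K : Type) [Field K] : Koszul K (ringS S) :=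
  koszul_gensOf rkS_inj (eV S) K

theorem main (K : Type) [Field K] (u : List S) :
    Valid K (ringS S) (modS κ hP u) ∧
      (HasReg K (ringS S) (modS κ hP u) 0 ↔ ¬ Src.Sol Pr κ u) := by
  obtain ⟨k, hk, hHR⟩ := exists_kr K (eV S)
  have hm := mem_irr_iff rkS_inj (eV S) k hk
  let c : Fin (Fintype.card (Fx Pr) + (u.length + 1)) →
      Col Stk (Ltr S) (St Pr u.length) := fun i => cols Pr κ u hP (clFin u.length i)
  have hT : ∀ (i : Fin (Fintype.card (Fx Pr) + (u.length + 1)))
      (v : Fin (Fintype.card (Stk × Ltr S))), ent (tab κ hP (eV S) u) i v =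
      (tgt c i ((eV S).symm v).1 ((eV S).symm v).2).elim 0 fun j => sc _ j + 1 := by
    intro i v
    rw [ent_tab]
    rfl
  have hrel : rels K (ringS S) (modS κ hP u) = Om k c :=
    rels_eq (eV S) k hk c (sc u.length) (sc_inj _) hT rkS_inj
  have hocc : ∀ j, ∃ i p a, tgt c i p a = some j := by
    intro j
    obtain ⟨i, p, a, h⟩ := occurs (κ := κ) hP j
    refine ⟨(clFin u.length).symm i, p, a, ?_⟩
    have : cols Pr κ u hP (clFin u.length ((clFin u.length).symm i)) = cols Pr κ u hP i := by
      rw [Equiv.apply_symm_apply]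
    unfold tgt at h ⊢
    simp only [c, this]
    exact h
  refine ⟨⟨koszul_ringS K, fun r hr => relsOf_homog K hr, ?_, ?_⟩, ?_⟩
  · obtain ⟨i, p, a, h⟩ := hocc (.ex true)
    refine ⟨Pi.single i (k.x p a), fun i' => ?_, ?_⟩
    · rw [hHR]
      exact HF_single i p a i'
    · intro h0
      rw [hrel] at h0
      have h1 := h0.2 (.ex true)
      have h2 := lf_single (k := k) (c := c) (κ := i) (p := p) (a := a) (.ex true)
      rw [if_pos h] at h2
      exact one_ne_zero (h2.symm.trans h1)
  · intro e he v hv
    rw [hrel]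
    obtain ⟨e', rfl⟩ : ∃ e', e = e' + 2 := ⟨e - 2, by omega⟩
    refine mem_Om_of_HF (e := e') fun i => ?_
    have := hv i
    rw [hHR] at this
    exact this
  · have h1 : HasReg K (ringS S) (modS κ hP u) 0 ↔
        RegIs (homR K (ringS S)) (irr K (ringS S)) (rels K (ringS S) (modS κ hP u)) 0 := Iff.rfl
    have h3 : RegIs (fun n => (k.H n : Set (Rg K (ringS S)))) (irr K (ringS S)) (Om k c) 0 ↔ _ :=
      regIs_iff k rkS_inj (by omega) c (rev_comp _ _ (rev_cols hP)) hocc mu
      (fun x y h => mu_lt hP ((step_comp _ _).1 h)) hm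
    rw [h1, hrel, hHR]
    refine h3.trans ?_
    apply not_congr
    have h2 : Src.Sol Pr κ u ↔ _ := (accept_iff (κ := κ) (u := u) hP).symm
    rw [h2]
    constructor
    · rintro ⟨x, y, hx, hy, hxy⟩
      refine ⟨x, y, (isStart_comp _ _).1 hx, (isEnd_comp _ _).1 hy, ?_⟩
      exact ReflTransGen.mono (fun a b h => (step_comp _ _).1 h) _ _ hxy
    · rintro ⟨x, y, hx, hy, hxy⟩
      refine ⟨x, y, (isStart_comp _ _).2 hx, (isEnd_comp _ _).2 hy, ?_⟩
      exact ReflTransGen.mono (fun a b h => (step_comp _ _).2 h) _ _ hxy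

theorem comp_pair {f : ℕ × List (List ℕ) → List (List PolyCode)} (hf : Primrec f) {b : ℕ → ℕ}
    {t : ℕ → List (List ℕ)} (hb : Computable b) (ht : Computable t) :
    Computable fun n => (b n, f (b n, t n)) :=
  Computable.pair hb (hf.to_comp.comp (Computable.pair hb ht))

theorem modS_computable {u : ℕ → List S} (hu : ∀ g : S → ℕ, Computable fun n => (u n).map g) :
    Computable fun n => modS κ hP (u n) := by
  have h1 := hu fun x => (eV S (Stk.X false, Ltr.s x)).val
  have h2 := hu fun x => (eV S (Stk.X true, Ltr.s x)).val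
  have ht : Computable fun n => tab κ hP (eV S) (u n) :=
    Computable.list_append.comp (Computable.const _)
      ((chT_primrec _ _ _ _ _).to_comp.comp (Computable.pair h1 h2))
  have hb : Computable fun n => Fintype.card (Fx Pr) + ((u n).length + 1) := by
    have h3 : Computable fun n => Fintype.card (Fx Pr) +
        (((u n).map fun x => (eV S (Stk.X false, Ltr.s x)).val).length + 1) :=
      (Primrec.nat_add.comp (Primrec.const _) (Primrec.succ.comp Primrec.list_length)).to_comp.comp
        h1
    refine h3.of_eq fun n => ?_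
    rw [List.length_map]
  exact comp_pair (relsOf_primrec (Fintype.card (Stk × Ltr S))) hb ht

end Machine

end Pool.Agent.Helper522.Kos
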